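import Mathlib
import Pool.Agent.TH314.PD.LI

/-!
# An upper bound of Bezout type for the degree of a field extension
-/

set_option autoImplicit false

namespace Pool.Agent.TH314.PD

open MvPolynomial Finset

section count

/-- exponents of degree at most `D` -/
noncomputable def bd (σ : Type) [Fintype σ] [DecidableEq σ] (D : ℕ) : Finset (σ →₀ ℕ) :=
  (range (D + 1)).biUnion fun n => (univ : Finset σ).finsuppAntidiag n

theorem mem_bd {σ : Type} [Fintype σ] [DecidableEq σ] {D : ℕ} {α : σ →₀ ℕ} :
    α ∈ bd σ D ↔ ∑ i, α i ≤ D := by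
  unfold bd
  simp only [mem_biUnion, mem_range, mem_finsuppAntidiag, subset_univ, and_true]
  constructor
  · rintro ⟨n, hn, h1⟩
    have h2 : ∑ i, α i = n := h1
    omega
  · intro h1
    exact ⟨∑ i, α i, by omega, rfl⟩

theorem card_bd {σ : Type} [Fintype σ] [DecidableEq σ] (D : ℕ) :
    (bd σ D).card = (D + Fintype.card σ).choose (Fintype.card σ) := by
  have h1 : (bd σ D).card = ∑ n ∈ range (D + 1), (Fintype.card σ + n - 1).choose n := by
    unfold bd
    rw [card_biUnion]
    · refine sum_congr rfl fun n _ => ?_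
      rw [card_finsuppAntidiag_nat_eq_choose, card_univ]
    · intro n _ n' _ hnn
      rw [Function.onFun, disjoint_left]
      intro α h2 h3
      rw [mem_finsuppAntidiag] at h2 h3
      exact hnn (h2.1.symm.trans h3.1)
  have h2 : ∀ D : ℕ, ∑ n ∈ range (D + 1), (Fintype.card σ + n - 1).choose n =
      (Fintype.card σ + D).choose D := by
    intro D
    induction D with
    | zero => simp
    | succ D ih =>
      rw [sum_range_succ, ih]
      have h3 : Fintype.card σ + (D + 1) - 1 = Fintype.card σ + D := by omega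
      rw [h3, ← add_assoc, Nat.choose_succ_succ]
  rw [h1, h2, add_comm, ← Nat.choose_symm_add]

end count

section Bd

variable {L : Type} [Field L] {n : ℕ}

/-- degree at most `a` in the variable `none` and at most `b` in the other variables -/
def Bd (a b : ℕ) (f : MvPolynomial (Option (Fin n)) L) : Prop :=
  ∀ α ∈ f.support, α none ≤ a ∧ ∑ l, α (some l) ≤ b

theorem Bd.mono {a b a' b' : ℕ} {f : MvPolynomial (Option (Fin n)) L} (h : Bd a b f)
    (ha : a ≤ a') (hb : b ≤ b') : Bd a' b' f :=
  fun α hα => ⟨(h α hα).1.trans ha, (h α hα).2.trans hb⟩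

theorem Bd.mul {a b a' b' : ℕ} {f g : MvPolynomial (Option (Fin n)) L} (hf : Bd a b f)
    (hg : Bd a' b' g) : Bd (a + a') (b + b') (f * g) := by
  classical
  intro α hα
  obtain ⟨β, hβ, γ, hγ, rfl⟩ := Finset.mem_add.1 (MvPolynomial.support_mul f g hα)
  have h1 := hf β hβ
  have h2 := hg γ hγ
  refine ⟨?_, ?_⟩
  · rw [Finsupp.add_apply]
    omega
  · simp only [Finsupp.add_apply, Finset.sum_add_distrib]
    omega

theorem Bd.one : Bd 0 0 (1 : MvPolynomial (Option (Fin n)) L) := by
  classical
  intro α hα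
  have h1 : α = 0 := by
    by_contra h
    rw [mem_support_iff, coeff_one, if_neg (fun h' => h h'.symm)] at hα
    exact hα rfl
  subst h1
  simp

theorem Bd.pow {a b : ℕ} {f : MvPolynomial (Option (Fin n)) L} (hf : Bd a b f) (m : ℕ) :
    Bd (m * a) (m * b) (f ^ m) := by
  induction m with
  | zero =>
    rw [pow_zero]
    exact Bd.one.mono (by omega) (by omega)
  | succ m ih =>
    rw [pow_succ]
    exact (ih.mul hf).mono (by rw [Nat.succ_mul]) (by rw [Nat.succ_mul])

theorem Bd.prod {ι : Type} (s : Finset ι) {a b : ι → ℕ} {f : ι → MvPolynomial (Option (Fin n)) L}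
    (hf : ∀ i ∈ s, Bd (a i) (b i) (f i)) : Bd (∑ i ∈ s, a i) (∑ i ∈ s, b i) (∏ i ∈ s, f i) := by
  classical
  induction s using Finset.induction_on with
  | empty =>
    rw [Finset.prod_empty, Finset.sum_empty, Finset.sum_empty]
    exact Bd.one
  | insert i s hi ih =>
    rw [Finset.prod_insert hi, Finset.sum_insert hi, Finset.sum_insert hi]
    exact (hf i (Finset.mem_insert_self _ _)).mul
      (ih fun j hj => hf j (Finset.mem_insert_of_mem hj))

theorem Bd.exists (f : MvPolynomial (Option (Fin n)) L) : ∃ c, Bd c c f := by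
  refine ⟨f.totalDegree, fun α hα => ?_⟩
  have h1 := le_totalDegree hα
  rw [Finsupp.sum_fintype _ _ (fun _ => rfl), Fintype.sum_option] at h1
  omega

/-- the set of exponents -/
def ex (n a b : ℕ) : Set (Option (Fin n) →₀ ℕ) := {α | α none ≤ a ∧ ∑ l, α (some l) ≤ b}

theorem mem_restrict {a b : ℕ} {f : MvPolynomial (Option (Fin n)) L} :
    f ∈ restrictSupport L (ex n a b) ↔ Bd a b f := by
  rw [mem_restrictSupport_iff]
  exact Iff.rfl

theorem ex_inj (n a b : ℕ) : ∃ F : ex n a b → (Fin (a + 1) × bd (Fin n) b), Function.Injective F := by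
  refine ⟨fun α => (⟨α.1 none, by have := α.2.1; omega⟩, ⟨α.1.some, by
    rw [mem_bd]
    exact α.2.2⟩), ?_⟩
  intro α β h
  simp only [Prod.mk.injEq, Fin.mk.injEq, Subtype.mk.injEq] at h
  apply Subtype.ext
  ext i
  cases i with
  | none => exact h.1
  | some l => exact DFunLike.congr_fun h.2 l

theorem finrank_restrict (a b : ℕ) :
    Module.Finite L (restrictSupport L (ex n a b)) ∧
      Module.finrank L (restrictSupport L (ex n a b)) ≤ (a + 1) * (b + n).choose n := by
  obtain ⟨F, hF⟩ := ex_inj n a b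
  have : Finite (ex n a b) := Finite.of_injective F hF
  have : Fintype (ex n a b) := Fintype.ofFinite _
  let B := MvPolynomial.basisRestrictSupport L (ex n a b)
  refine ⟨Module.Finite.of_basis B, ?_⟩
  rw [Module.finrank_eq_card_basis B]
  refine (Fintype.card_le_of_injective F hF).trans ?_
  rw [Fintype.card_prod, Fintype.card_fin, Fintype.card_coe, card_bd, Fintype.card_fin]

end Bd

/-- the asymptotic step -/
theorem asym_ub {M n q c : ℕ}
    (h : ∀ l : ℕ, M * (l + (n + 1)).choose (n + 1) ≤ (l + c + 1) * (q * l + c + n).choose n) :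
    M ≤ (n + 1) * q ^ n := by
  have h1 : ∀ l : ℕ, M * (l + 1) ^ (n + 1) ≤ (n + 1) * ((l + c + 1) * (q * l + c + n) ^ n) := by
    intro l
    calc M * (l + 1) ^ (n + 1) ≤ M * (l + 1).ascFactorial (n + 1) :=
          Nat.mul_le_mul_left _ (Nat.pow_succ_le_ascFactorial _ _)
      _ = (n + 1).factorial * (M * (l + (n + 1)).choose (n + 1)) := by
          rw [Nat.ascFactorial_eq_factorial_mul_choose]; ring
      _ ≤ (n + 1).factorial * ((l + c + 1) * (q * l + c + n).choose n) :=
          Nat.mul_le_mul_left _ (h l)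
      _ = (n + 1) * ((l + c + 1) * (q * l + c + 1).ascFactorial n) := by
          rw [Nat.ascFactorial_eq_factorial_mul_choose, Nat.factorial_succ]
          ring
      _ ≤ (n + 1) * ((l + c + 1) * (q * l + c + n) ^ n) :=
          Nat.mul_le_mul_left _ (Nat.mul_le_mul_left _ (Nat.ascFactorial_le_pow_add _ _))
  have h2 : ∀ l : ℕ, (M : ℝ) ≤ ((n : ℝ) + 1) * ((1 + (c : ℝ) * (1 / ((l : ℝ) + 1))) *
      ((q : ℝ) + ((c : ℝ) + n - q) * (1 / ((l : ℝ) + 1))) ^ n) := by
    intro l
    have hL : (0 : ℝ) < (l : ℝ) + 1 := by positivity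
    have h3 : (M : ℝ) * ((l : ℝ) + 1) ^ (n + 1) ≤
        (n + 1) * (((l : ℝ) + c + 1) * ((q : ℝ) * l + c + n) ^ n) := by exact_mod_cast h1 l
    have h4 : (q : ℝ) + ((c : ℝ) + n - q) * (1 / ((l : ℝ) + 1)) =
        ((q : ℝ) * l + c + n) / (l + 1) := by
      field_simp
      ring
    have h5 : 1 + (c : ℝ) * (1 / ((l : ℝ) + 1)) = ((l : ℝ) + c + 1) / (l + 1) := by
      field_simp
      ring
    rw [h4, h5, div_pow, div_mul_div_comm, ← pow_succ', mul_div_assoc', le_div_iff₀ (by positivity)]
    exact h3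
  have h5 : Filter.Tendsto (fun l : ℕ => ((n : ℝ) + 1) * ((1 + (c : ℝ) * (1 / ((l : ℝ) + 1))) *
      ((q : ℝ) + ((c : ℝ) + n - q) * (1 / ((l : ℝ) + 1))) ^ n)) Filter.atTop
      (nhds (((n : ℝ) + 1) * ((1 + (c : ℝ) * 0) * ((q : ℝ) + ((c : ℝ) + n - q) * 0) ^ n))) := by
    have h6 := tendsto_one_div_add_atTop_nhds_zero_nat (𝕜 := ℝ)
    exact ((tendsto_const_nhds.add (tendsto_const_nhds.mul h6)).mul
      ((tendsto_const_nhds.add (tendsto_const_nhds.mul h6)).pow n)).const_mul _
  have h6 := ge_of_tendsto' h5 h2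
  rw [mul_zero, add_zero, mul_zero, add_zero, one_mul] at h6
  exact_mod_cast h6

section

variable {L K : Type} [Field L] [Field K] [Algebra L K] {n : ℕ}

/-- **Upper bound.** -/
theorem ub [CharZero K] [FiniteDimensional L K] {q : ℕ}
    (E : Option (Fin n) → MvPolynomial (Option (Fin n)) L) (p : Option (Fin n) → K)
    (hE : ∀ i, Bd 1 q (E i)) (h0 : ∀ i, aeval p (E i) = 0)
    (hnd : ∀ v : Option (Fin n) → K,
      (∀ i, ∑ j, v j * aeval p (pderiv j (E i)) = 0) → v = 0)
    (hsurj : ∀ z : K, ∃ g : MvPolynomial (Option (Fin n)) L, aeval p g = z) :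
    Module.finrank L K ≤ (n + 1) * q ^ n := by
  classical
  let b := Module.finBasis L K
  choose g hg using fun i => hsurj (b i)
  have hli : LinearIndependent L (fun i => aeval p (g i)) := by
    have h1 : (fun i => aeval p (g i)) = b := funext hg
    rw [h1]
    exact b.linearIndependent
  have hLI := li E p h0 hnd g hli
  choose cc hcc using fun i => Bd.exists (g i)
  set c := ∑ i, cc i with hc
  have hgc : ∀ i, Bd c c (g i) := fun i =>
    (hcc i).mono (Finset.single_le_sum (f := cc) (fun _ _ => Nat.zero_le _) (Finset.mem_univ i))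
      (Finset.single_le_sum (f := cc) (fun _ _ => Nat.zero_le _) (Finset.mem_univ i))
  refine asym_ub (c := c) fun l => ?_
  set V := restrictSupport L (ex n (l + c) (q * l + c)) with hV
  obtain ⟨hfin, hrank⟩ := finrank_restrict (L := L) (n := n) (l + c) (q * l + c)
  let h' : Fin (Module.finrank L K) × bd (Option (Fin n)) l → V := fun x =>
    ⟨g x.1 * ∏ i, E i ^ (x.2.1 i), by
      rw [hV, mem_restrict]
      have hα : ∑ i, x.2.1 i ≤ l := mem_bd.1 x.2.2
      have h1 : Bd (∑ i, x.2.1 i * 1) (∑ i, x.2.1 i * q) (∏ i, E i ^ (x.2.1 i)) :=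
        Bd.prod _ fun i _ => (hE i).pow _
      refine ((hgc x.1).mul h1).mono ?_ ?_
      · simp only [mul_one]
        omega
      · rw [← Finset.sum_mul]
        have h2 : (∑ i, x.2.1 i) * q ≤ q * l := by
          rw [mul_comm q]
          exact Nat.mul_le_mul_right _ hα
        omega⟩
  have hli' : LinearIndependent L h' := by
    refine LinearIndependent.of_comp (Submodule.subtype _) ?_
    have h1 : (Submodule.subtype V) ∘ h' =
        (fun x : Fin (Module.finrank L K) × (Option (Fin n) →₀ ℕ) =>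
          g x.1 * ∏ i, E i ^ (x.2 i)) ∘
        (fun x : Fin (Module.finrank L K) × bd (Option (Fin n)) l => (x.1, x.2.1)) := rfl
    rw [h1]
    refine hLI.comp _ ?_
    rintro ⟨t, α⟩ ⟨t', α'⟩ hx
    simp only [Prod.mk.injEq] at hx
    exact Prod.ext hx.1 (Subtype.ext hx.2)
  have h1 := hli'.fintype_card_le_finrank
  rw [Fintype.card_prod, Fintype.card_coe, card_bd, Fintype.card_fin, Fintype.card_option,
    Fintype.card_fin] at h1
  refine h1.trans (hrank.trans (le_of_eq ?_))
  ring_nf

end

end Pool.Agent.TH314.PD
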