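import Mathlib
import Pool.Agent.TH314.PD.UB

/-!
# Forms: dimensions, generation, and an asymptotic lower bound
-/

set_option autoImplicit false

namespace Pool.Agent.TH314.PD

open MvPolynomial Finset

section dims

theorem hom_eq_restrict (m e : ℕ) :
    homogeneousSubmodule (Fin (m + 1)) ℂ e =
      restrictSupport ℂ {α : Fin (m + 1) →₀ ℕ | ∑ i, α i = e} := by
  ext f
  rw [mem_homogeneousSubmodule, mem_restrictSupport_iff]
  constructor
  · intro h α hα
    have h1 := h.degree_eq_sum_deg_support hα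
    rw [Set.mem_ofPred_eq, h1]
    exact (Finset.sum_subset (subset_univ _) (fun i _ hi => by simpa using hi)).symm
  · intro h α hα
    have h1 : α ∈ f.support := by rwa [mem_support_iff]
    have h2 : ∑ i, α i = e := h h1
    rw [← h2, ← Finsupp.degree_eq_sum, Finsupp.degree_eq_weight_one]
    rfl

theorem finrank_hom (m e : ℕ) :
    Module.Finite ℂ (homogeneousSubmodule (Fin (m + 1)) ℂ e) ∧
      Module.finrank ℂ (homogeneousSubmodule (Fin (m + 1)) ℂ e) = (e + m).choose m := by
  rw [hom_eq_restrict]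
  set S : Set (Fin (m + 1) →₀ ℕ) := {α | ∑ i, α i = e} with hS
  let eq : S ≃ ((univ : Finset (Fin (m + 1))).finsuppAntidiag e) :=
    Equiv.subtypeEquivRight fun α => by
      rw [mem_finsuppAntidiag]
      simp only [subset_univ, and_true]
      exact Iff.rfl
  let B := (MvPolynomial.basisRestrictSupport ℂ S).reindex eq
  refine ⟨Module.Finite.of_basis B, ?_⟩
  rw [Module.finrank_eq_card_basis B, Fintype.card_coe, card_finsuppAntidiag_nat_eq_choose,
    card_univ, Fintype.card_fin]
  have h1 : m + 1 + e - 1 = m + e := by omega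
  rw [h1, ← Nat.choose_symm_add, add_comm]

end dims

section comp

variable {σ : Type}

theorem hc_mul (c p : MvPolynomial σ ℂ) {D : ℕ} (hp : p.IsHomogeneous D) {e : ℕ} (he : D ≤ e) :
    homogeneousComponent e (c * p) = homogeneousComponent (e - D) c * p := by
  conv_lhs => rw [← sum_homogeneousComponent c, Finset.sum_mul, map_sum]
  have h1 : ∀ i, homogeneousComponent e (homogeneousComponent i c * p) =
      if i = e - D then homogeneousComponent i c * p else 0 := by
    intro i
    have h2 : (homogeneousComponent i c * p).IsHomogeneous (i + D) :=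
      (homogeneousComponent_isHomogeneous i c).mul hp
    rw [homogeneousComponent_of_mem ((mem_homogeneousSubmodule _ _).2 h2)]
    by_cases h : i = e - D
    · rw [if_pos h, if_pos (by omega)]
    · rw [if_neg h, if_neg (by omega)]
  rw [Finset.sum_congr rfl fun i _ => h1 i, Finset.sum_ite_eq']
  split_ifs with h
  · rfl
  · rw [homogeneousComponent_eq_zero, zero_mul]
    rw [Finset.mem_range] at h
    omega

/-- scaling a form -/
theorem aeval_smul_form {A : Type} [CommRing A] [Algebra ℂ A] {H : MvPolynomial σ ℂ} {m : ℕ}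
    (hH : H.IsHomogeneous m) (a : A) (x : σ → A) :
    aeval (fun i => a * x i) H = a ^ m * aeval x H := by
  rw [aeval_def, eval₂_eq, aeval_def, eval₂_eq, Finset.mul_sum]
  refine Finset.sum_congr rfl fun α hα => ?_
  have h1 := hH.degree_eq_sum_deg_support hα
  simp only [mul_pow]
  rw [Finset.prod_mul_distrib, Finset.prod_pow_eq_pow_sum]
  have h2 : ∑ i ∈ α.support, α i = m := h1.symm
  rw [h2]
  ring

end comp

/-- **Generation.** -/
theorem gen {n D d : ℕ} (F : MvPolynomial (Fin (n + 2)) ℂ) (hF : F.IsHomogeneous d)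
    (p : Fin (n + 1) → MvPolynomial (Fin (n + 2)) ℂ) (hp : ∀ i, (p i).IsHomogeneous D)
    (hz : ∀ z : Fin (n + 2) → ℂ, (∀ i, eval z (p i) = 0) → eval z F = 0 → z = 0) :
    ∃ e0, D ≤ e0 ∧ ∀ e, e0 ≤ e → ∀ H : MvPolynomial (Fin (n + 2)) ℂ, H.IsHomogeneous e →
      ∃ h : Fin (n + 1) → MvPolynomial (Fin (n + 2)) ℂ, (∀ i, (h i).IsHomogeneous (e - D)) ∧
        ∃ B, H = ∑ i, h i * p i + B * F := by
  set J : Ideal (MvPolynomial (Fin (n + 2)) ℂ) := Ideal.span (insert F (Set.range p)) with hJ
  have h1 : idealOfVars (Fin (n + 2)) ℂ ≤ J.radical := by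
    rw [← vanishingIdeal_zeroLocus_eq_radical (K := ℂ), idealOfVars, Ideal.span_le]
    rintro _ ⟨i, rfl⟩
    rw [SetLike.mem_coe, mem_vanishingIdeal_iff]
    intro z hzz
    rw [mem_zeroLocus_iff] at hzz
    have h2 : z = 0 := by
      apply hz z
      · intro j
        have := hzz (p j) (Ideal.subset_span (Set.mem_insert_of_mem _ ⟨j, rfl⟩))
        rwa [aeval_eq_eval] at this
      · have := hzz F (Ideal.subset_span (Set.mem_insert _ _))
        rwa [aeval_eq_eval] at this
    rw [aeval_X, h2, Pi.zero_apply]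
  obtain ⟨N, hN⟩ := Ideal.exists_pow_le_of_le_radical_of_fg h1 (idealOfVars_fg _ _)
  refine ⟨N + D + d, by omega, fun e he H hH => ?_⟩
  have h3 : H ∈ J := by
    apply hN
    rw [mem_pow_idealOfVars_iff']
    intro α hα
    exact hH.coeff_eq_zero (by omega)
  rw [hJ, Ideal.mem_span_insert] at h3
  obtain ⟨a, z, hzm, hHz⟩ := h3
  rw [Ideal.mem_span_range_iff_exists_fun] at hzm
  obtain ⟨c, hc⟩ := hzm
  refine ⟨fun i => homogeneousComponent (e - D) (c i),
    fun i => homogeneousComponent_isHomogeneous _ _, homogeneousComponent (e - d) a, ?_⟩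
  conv_lhs => rw [← homogeneousComponent_eq_self hH, hHz, ← hc, map_add, map_sum]
  have h4 : ∑ x, homogeneousComponent e (c x * p x) =
      ∑ i, homogeneousComponent (e - D) (c i) * p i :=
    Finset.sum_congr rfl fun i _ => hc_mul (c i) (p i) (hp i) (by omega)
  rw [hc_mul a F hF (by omega), h4]
  exact add_comm _ _

/-- differences of binomial coefficients -/
theorem choose_diff (n f d : ℕ) :
    (f + n + 1).choose (n + 1) + d * (f + n).choose n ≤ (f + d + n + 1).choose (n + 1) := by
  induction d with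
  | zero => simp
  | succ d ih =>
    have h1 : (f + (d + 1) + n + 1).choose (n + 1) =
        (f + d + n + 1).choose n + (f + d + n + 1).choose (n + 1) := by
      have h2 : f + (d + 1) + n + 1 = (f + d + n + 1) + 1 := by ring
      rw [h2, Nat.choose_succ_succ]
    have h3 : (f + n).choose n ≤ (f + d + n + 1).choose n := Nat.choose_le_choose _ (by omega)
    rw [h1, Nat.succ_mul]
    omega

theorem asym_pow {a r c n : ℕ} (h : ∀ l : ℕ, a * l ^ n ≤ r * (l + c) ^ n) : a ≤ r := by
  have h2 : ∀ l : ℕ, (a : ℝ) ≤ (r : ℝ) * (1 + (c : ℝ) * (1 / ((l : ℝ) + 1))) ^ n := by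
    intro l
    have hL : (0 : ℝ) < (l : ℝ) + 1 := by positivity
    have h3 : (a : ℝ) * ((l : ℝ) + 1) ^ n ≤ (r : ℝ) * ((l : ℝ) + 1 + c) ^ n := by
      exact_mod_cast h (l + 1)
    have h5 : 1 + (c : ℝ) * (1 / ((l : ℝ) + 1)) = ((l : ℝ) + 1 + c) / (l + 1) := by
      field_simp
    rw [h5, div_pow, mul_div_assoc', le_div_iff₀ (by positivity)]
    exact h3
  have h5 : Filter.Tendsto (fun l : ℕ => (r : ℝ) * (1 + (c : ℝ) * (1 / ((l : ℝ) + 1))) ^ n)
      Filter.atTop (nhds ((r : ℝ) * (1 + (c : ℝ) * 0) ^ n)) :=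
    ((tendsto_const_nhds.add (tendsto_const_nhds.mul
      (tendsto_one_div_add_atTop_nhds_zero_nat (𝕜 := ℝ)))).pow n).const_mul _
  have h6 := ge_of_tendsto' h5 h2
  rw [mul_zero, add_zero, one_pow, mul_one] at h6
  exact_mod_cast h6

/-- the asymptotic step for the lower bound -/
theorem asym_lb {r n d D c : ℕ} (hD : 1 ≤ D)
    (h : ∀ m : ℕ, d ≤ m * D → (m * D + (n + 1)).choose (n + 1) ≤
      r * (m + c + n).choose n + (m * D - d + (n + 1)).choose (n + 1)) :
    d * D ^ n ≤ r := by
  refine asym_pow (n := n) (c := d + c + n) fun l => ?_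
  have h0 : d ≤ (l + d) * D := by nlinarith
  have h1 := h (l + d) h0
  obtain ⟨f, hf⟩ := Nat.exists_eq_add_of_le' h0
  have hf2 : (l + d) * D - d = f := by omega
  rw [hf2, hf] at h1
  have h2 := choose_diff n f d
  have h3 : d * (f + n).choose n ≤ r * (l + d + c + n).choose n := by
    have e1 : f + d + (n + 1) = f + d + n + 1 := by ring
    have e2 : f + (n + 1) = f + n + 1 := by ring
    rw [e1, e2] at h1
    omega
  have hfl : D * l ≤ f := by nlinarith
  calc d * D ^ n * l ^ n = d * (D * l) ^ n := by rw [mul_pow]; ring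
    _ ≤ d * (f + 1) ^ n := Nat.mul_le_mul_left _ (Nat.pow_le_pow_left (by omega) _)
    _ ≤ d * (f + 1).ascFactorial n := Nat.mul_le_mul_left _ (Nat.pow_succ_le_ascFactorial _ _)
    _ = n.factorial * (d * (f + n).choose n) := by
        rw [Nat.ascFactorial_eq_factorial_mul_choose]; ring
    _ ≤ n.factorial * (r * (l + d + c + n).choose n) := Nat.mul_le_mul_left _ h3
    _ = r * (l + d + c + 1).ascFactorial n := by
        rw [Nat.ascFactorial_eq_factorial_mul_choose]; ring
    _ ≤ r * (l + d + c + n) ^ n := Nat.mul_le_mul_left _ (Nat.ascFactorial_le_pow_add _ _)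
    _ = r * (l + (d + c + n)) ^ n := by ring_nf

end Pool.Agent.TH314.PD
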