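import Mathlib
import Pool.Agent.W602.GT.Der
import Pool.Agent.TH314.PD.Hilb

/-!
# The lower bound for the degree of the polar map
-/

set_option autoImplicit false

namespace Pool.Agent.TH314.PD

open MvPolynomial

noncomputable section

variable {K : Type} [Field K] [Algebra ℂ K] {n : ℕ}

/-- values of the forms `p i` -/
def PP (x : Fin (n + 2) → K) (p : Fin (n + 1) → MvPolynomial (Fin (n + 2)) ℂ) (i : Fin (n + 1)) : K :=
  aeval x (p i)

/-- their ratios -/
def yy (x : Fin (n + 2) → K) (p : Fin (n + 1) → MvPolynomial (Fin (n + 2)) ℂ) (i : Fin (n + 1)) : K :=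
  PP x p i / PP x p 0

/-- exponents -/
def Om (n e0 D : ℕ) : Finset (Fin (n + 2) →₀ ℕ) :=
  (bd (Fin (n + 2)) e0).filter fun β => D ∣ ∑ i, β i

/-- normalized values of monomials -/
def om (x : Fin (n + 2) → K) (p : Fin (n + 1) → MvPolynomial (Fin (n + 2)) ℂ) (D : ℕ)
    (β : Fin (n + 2) →₀ ℕ) : K :=
  aeval x (monomial β (1 : ℂ)) / PP x p 0 ^ ((∑ i, β i) / D)

/-- the conclusion of `gen` -/
def Gen (F : MvPolynomial (Fin (n + 2)) ℂ) (p : Fin (n + 1) → MvPolynomial (Fin (n + 2)) ℂ)
    (D e0 : ℕ) : Prop :=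
  D ≤ e0 ∧ ∀ e, e0 ≤ e → ∀ H : MvPolynomial (Fin (n + 2)) ℂ, H.IsHomogeneous e →
      ∃ h : Fin (n + 1) → MvPolynomial (Fin (n + 2)) ℂ, (∀ i, (h i).IsHomogeneous (e - D)) ∧
        ∃ B, H = ∑ i, h i * p i + B * F

variable {x : Fin (n + 2) → K} {p : Fin (n + 1) → MvPolynomial (Fin (n + 2)) ℂ}
  {F : MvPolynomial (Fin (n + 2)) ℂ} {D e0 : ℕ}

theorem yy_zero (h : PP x p 0 ≠ 0) : yy x p 0 = 1 := div_self h

theorem PP_eq (h : PP x p 0 ≠ 0) : PP x p = fun i => PP x p 0 * yy x p i := by
  funext i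
  unfold yy
  field_simp

theorem span1 (hD : 1 ≤ D) (hg : Gen F p D e0) (hFx : aeval x F = 0) :
    ∀ e (H : MvPolynomial (Fin (n + 2)) ℂ), H.IsHomogeneous e →
      aeval x H ∈ Submodule.span ℂ {z : K | ∃ (a : ℕ) (A : MvPolynomial (Fin (n + 1)) ℂ)
        (β : Fin (n + 2) →₀ ℕ), A.IsHomogeneous a ∧ ∑ i, β i ≤ e0 ∧ a * D + ∑ i, β i = e ∧
          z = aeval (PP x p) A * aeval x (monomial β (1 : ℂ))} := by
  intro e
  induction e using Nat.strong_induction_on with
  | _ e ih =>
    intro H hH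
    by_cases he : e < e0
    · rw [H.as_sum, map_sum]
      refine Submodule.sum_mem _ fun β hβ => ?_
      have h1 : ∑ i, β i = e := by
        have h2 := hH.degree_eq_sum_deg_support hβ
        rw [h2]
        exact (Finset.sum_subset (Finset.subset_univ _) (fun i _ hi => by simpa using hi)).symm
      have h2 : (monomial β (coeff β H) : MvPolynomial (Fin (n + 2)) ℂ) =
          (coeff β H) • monomial β 1 := by
        rw [smul_monomial, smul_eq_mul, mul_one]
      rw [h2, map_smul]
      refine Submodule.smul_mem _ _ (Submodule.subset_span ⟨0, 1, β, isHomogeneous_one _ _,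
        by omega, by omega, ?_⟩)
      have h3 : aeval (PP x p) (1 : MvPolynomial (Fin (n + 1)) ℂ) = 1 := map_one _
      rw [h3, one_mul]
    · obtain ⟨h, hh, B, hB⟩ := hg.2 e (by omega) H hH
      have hDe : D ≤ e := hg.1.trans (by omega)
      rw [hB, map_add, map_mul, hFx, mul_zero, add_zero, map_sum]
      refine Submodule.sum_mem _ fun i _ => ?_
      rw [map_mul]
      have h1 := ih (e - D) (by omega) (h i) (hh i)
      refine Submodule.span_induction (p := fun z _ => z * aeval x (p i) ∈ _) ?_ ?_ ?_ ?_ h1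
      · rintro z ⟨a, A, β, hA, hβ, hs, rfl⟩
        refine Submodule.subset_span ⟨a + 1, A * X i, β, hA.mul (isHomogeneous_X _ i), hβ, ?_, ?_⟩
        · rw [Nat.succ_mul]
          omega
        · rw [map_mul, aeval_X]
          change _ * _ * PP x p i = _
          ring
      · rw [zero_mul]
        exact Submodule.zero_mem _
      · intro z w _ _ hz hw
        rw [add_mul]
        exact Submodule.add_mem _ hz hw
      · intro c z _ hz
        rw [smul_mul_assoc]
        exact Submodule.smul_mem _ _ hz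

/-- the spaces `T m` -/
def TT (x : Fin (n + 2) → K) (p : Fin (n + 1) → MvPolynomial (Fin (n + 2)) ℂ) (D e0 m : ℕ) :
    Submodule ℂ K :=
  Submodule.span ℂ {z : K | ∃ (A : MvPolynomial (Fin (n + 1)) ℂ) (β : Fin (n + 2) →₀ ℕ),
    A.IsHomogeneous m ∧ β ∈ Om n e0 D ∧ z = aeval (yy x p) A * om x p D β}

theorem span2 (hD : 1 ≤ D) (hg : Gen F p D e0) (hFx : aeval x F = 0) (h0 : PP x p 0 ≠ 0) (m : ℕ)
    (H : MvPolynomial (Fin (n + 2)) ℂ) (hH : H.IsHomogeneous (m * D)) :
    aeval x H / PP x p 0 ^ m ∈ TT x p D e0 m := by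
  have h1 := span1 hD hg hFx (m * D) H hH
  refine Submodule.span_induction (p := fun z _ => z / PP x p 0 ^ m ∈ TT x p D e0 m) ?_ ?_ ?_ ?_ h1
  · rintro z ⟨a, A, β, hA, hβ, hs, rfl⟩
    have hdvd : D ∣ ∑ i, β i := (Nat.dvd_add_right (Dvd.intro_left a rfl)).1
      (hs ▸ Dvd.intro_left m rfl)
    obtain ⟨b, hb⟩ := hdvd
    have hab : a + b = m := by
      have h2 : (a + b) * D = m * D := by rw [← hs, hb]; ring
      exact Nat.eq_of_mul_eq_mul_right (by omega) h2
    have hbD : (∑ i, β i) / D = b := by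
      rw [hb, Nat.mul_div_cancel_left _ (by omega)]
    refine Submodule.subset_span ⟨A * X 0 ^ b, β, ?_, ?_, ?_⟩
    · rw [← hab]
      have := hA.mul ((isHomogeneous_X ℂ (0 : Fin (n + 1))).pow b)
      rwa [one_mul] at this
    · unfold Om
      rw [Finset.mem_filter, mem_bd]
      exact ⟨hβ, ⟨b, hb⟩⟩
    · rw [map_mul, map_pow, aeval_X, yy_zero h0, one_pow, mul_one]
      unfold om
      have hPA : aeval (PP x p) A = PP x p 0 ^ a * aeval (yy x p) A := by
        conv_lhs => rw [PP_eq h0]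
        exact aeval_smul_form hA _ _
      rw [hbD, hPA, ← hab, pow_add]
      field_simp
  · rw [zero_div]
    exact Submodule.zero_mem _
  · intro z w _ _ hz hw
    rw [add_div]
    exact Submodule.add_mem _ hz hw
  · intro c z _ hz
    rw [smul_div_assoc]
    exact Submodule.smul_mem _ _ hz

/-- the field of the ratios -/
def LL (x : Fin (n + 2) → K) (p : Fin (n + 1) → MvPolynomial (Fin (n + 2)) ℂ) :
    IntermediateField ℂ K :=
  IntermediateField.adjoin ℂ (Set.range (yy x p))

theorem aeval_yy_mem (A : MvPolynomial (Fin (n + 1)) ℂ) : aeval (yy x p) A ∈ LL x p := by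
  induction A using MvPolynomial.induction_on with
  | C a =>
    rw [aeval_C]
    exact (LL x p).algebraMap_mem a
  | add f g hf hg =>
    rw [map_add]
    exact add_mem hf hg
  | mul_X f i hf =>
    rw [map_mul, aeval_X]
    exact mul_mem hf (IntermediateField.subset_adjoin _ _ ⟨i, rfl⟩)

/-- the finite dimensional space which contains everything -/
def VV (x : Fin (n + 2) → K) (p : Fin (n + 1) → MvPolynomial (Fin (n + 2)) ℂ) (D e0 : ℕ) :
    Submodule (LL x p) K :=
  Submodule.span (LL x p) ((om x p D) '' (Om n e0 D : Set (Fin (n + 2) →₀ ℕ)))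

theorem TT_le (m : ℕ) {z : K} (hz : z ∈ TT x p D e0 m) : z ∈ VV x p D e0 := by
  refine Submodule.span_induction (p := fun z _ => z ∈ VV x p D e0) ?_ ?_ ?_ ?_ hz
  · rintro z ⟨A, β, hA, hβ, rfl⟩
    have h1 : aeval (yy x p) A * om x p D β =
        (⟨aeval (yy x p) A, aeval_yy_mem A⟩ : LL x p) • om x p D β := rfl
    rw [h1]
    exact Submodule.smul_mem _ _ (Submodule.subset_span ⟨β, hβ, rfl⟩)
  · exact Submodule.zero_mem _
  · intro z w _ _ hz hw
    exact Submodule.add_mem _ hz hw
  · intro c z _ hz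
    have h1 : c • z = (algebraMap ℂ (LL x p) c) • z := (algebraMap_smul _ c z).symm
    rw [h1]
    exact Submodule.smul_mem _ _ hz

/-- **Integrality of the ratios.** -/
theorem integral_ratio (hD : 1 ≤ D) (hg : Gen F p D e0) (hFx : aeval x F = 0) (h0 : PP x p 0 ≠ 0)
    (m : ℕ) (H : MvPolynomial (Fin (n + 2)) ℂ) (hH : H.IsHomogeneous (m * D)) :
    IsIntegral (LL x p) (aeval x H / PP x p 0 ^ m) := by
  set z := aeval x H / PP x p 0 ^ m with hz
  have hpow : ∀ k : ℕ, z ^ k ∈ VV x p D e0 := by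
    intro k
    have h1 : z ^ k = aeval x (H ^ k) / PP x p 0 ^ (m * k) := by
      rw [hz, div_pow, map_pow, pow_mul]
    rw [h1]
    refine TT_le (m * k) (span2 hD hg hFx h0 (m * k) (H ^ k) ?_)
    have := hH.pow k
    rwa [show m * D * k = m * k * D by ring] at this
  have hle : Subalgebra.toSubmodule (Algebra.adjoin (LL x p) {z}) ≤ VV x p D e0 := by
    rw [Algebra.adjoin_eq_span, Submodule.span_le]
    intro w hw
    obtain ⟨k, rfl⟩ := Submonoid.mem_closure_singleton.1 hw
    exact hpow k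
  have hfin : FiniteDimensional (LL x p) (VV x p D e0) :=
    FiniteDimensional.span_of_finite _ ((Om n e0 D).finite_toSet.image _)
  have hfin2 : FiniteDimensional (LL x p) (Subalgebra.toSubmodule (Algebra.adjoin (LL x p) {z})) :=
    Submodule.finiteDimensional_of_le hle
  exact IsIntegral.of_mem_of_fg (Algebra.adjoin (LL x p) {z}) (Module.Finite.iff_fg.1 hfin2) z
    (Algebra.subset_adjoin rfl)

/-- quotients of coordinates are algebraic -/
theorem algebraic_coord (hD : 1 ≤ D) (hg : Gen F p D e0) (hFx : aeval x F = 0)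
    (h0 : PP x p 0 ≠ 0) (i j : Fin (n + 2)) :
    x i / x j ∈ algebraicClosure (LL x p) K := by
  by_cases hj : x j = 0
  · rw [hj, div_zero]
    exact zero_mem _
  have h1 := integral_ratio hD hg hFx h0 1 (X i * X j ^ (D - 1)) (by
    have := (isHomogeneous_X ℂ i).mul ((isHomogeneous_X ℂ j).pow (D - 1))
    rwa [show 1 + 1 * (D - 1) = 1 * D by omega] at this)
  have h2 := integral_ratio hD hg hFx h0 1 (X j ^ D) (by
    have := (isHomogeneous_X ℂ j).pow D
    rwa [show 1 * D = 1 * D by rfl] at this)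
  have h3 : x i / x j = (aeval x (X i * X j ^ (D - 1) : MvPolynomial (Fin (n + 2)) ℂ) / PP x p 0 ^ 1) /
      (aeval x (X j ^ D : MvPolynomial (Fin (n + 2)) ℂ) / PP x p 0 ^ 1) := by
    rw [map_mul, map_pow, map_pow, aeval_X, aeval_X]
    have h4 : x j ^ D = x j * x j ^ (D - 1) := by
      rw [← pow_succ']
      congr 1
      omega
    rw [h4]
    field_simp
  rw [h3]
  exact div_mem ((mem_algebraicClosure_iff).2 h1.isAlgebraic)
    ((mem_algebraicClosure_iff).2 h2.isAlgebraic)

end

end Pool.Agent.TH314.PD
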