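import Mathlib
import Pool.Agent.TH314.PD.LB

/-!
# The lower bound: counting
-/

set_option autoImplicit false

namespace Pool.Agent.TH314.PD

open MvPolynomial

noncomputable section

variable {K : Type} [Field K] [Algebra ℂ K] {n : ℕ}

theorem homog_poly {y : Fin (n + 1) → K} (hy : y 0 = 1) (A : MvPolynomial (Fin (n + 1)) ℂ) {c : ℕ}
    (hc : A.totalDegree ≤ c) :
    ∃ A' : MvPolynomial (Fin (n + 1)) ℂ, A'.IsHomogeneous c ∧ aeval y A' = aeval y A := by
  refine ⟨∑ α ∈ A.support, monomial α (coeff α A) * X 0 ^ (c - α.degree), ?_, ?_⟩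
  · refine IsHomogeneous.sum _ _ _ fun α hα => ?_
    have h1 : α.degree ≤ c := by
      refine le_trans ?_ hc
      have := le_totalDegree hα
      rw [Finsupp.degree_eq_sum]
      rw [Finsupp.sum_fintype _ _ (fun _ => rfl)] at this
      exact this
    have h2 := (isHomogeneous_monomial (coeff α A) (rfl : α.degree = α.degree)).mul
      ((isHomogeneous_X ℂ (0 : Fin (n + 1))).pow (c - α.degree))
    rwa [show α.degree + 1 * (c - α.degree) = c by omega] at h2
  · rw [map_sum]
    conv_rhs => rw [A.as_sum, map_sum]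
    refine Finset.sum_congr rfl fun α _ => ?_
    rw [map_mul, map_pow, aeval_X, hy, one_pow, mul_one]

variable {x : Fin (n + 2) → K} {p : Fin (n + 1) → MvPolynomial (Fin (n + 2)) ℂ}
  {F : MvPolynomial (Fin (n + 2)) ℂ} {D e0 : ℕ}

theorem den (h0 : PP x p 0 ≠ 0) {ι : Type} [Fintype ι] [DecidableEq ι] (κ : ι → K)
    (hκ : ∀ i, κ i ∈ LL x p) :
    ∃ (c : ℕ) (Q : MvPolynomial (Fin (n + 1)) ℂ), aeval (yy x p) Q ≠ 0 ∧
      ∃ A : ι → MvPolynomial (Fin (n + 1)) ℂ, (∀ i, (A i).IsHomogeneous c) ∧
        ∀ i, aeval (yy x p) Q * κ i = aeval (yy x p) (A i) := by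
  have h1 : ∀ i, ∃ r s : MvPolynomial (Fin (n + 1)) ℂ, aeval (yy x p) s ≠ 0 ∧
      aeval (yy x p) s * κ i = aeval (yy x p) r := by
    intro i
    obtain ⟨r, s, hrs⟩ := (IntermediateField.mem_adjoin_range_iff ℂ (yy x p) (κ i)).1 (hκ i)
    by_cases hs : aeval (yy x p) s = 0
    · refine ⟨0, 1, ?_, ?_⟩
      · rw [map_one]
        exact one_ne_zero
      · rw [hrs, hs, div_zero, mul_zero, map_zero]
    · refine ⟨r, s, hs, ?_⟩
      rw [hrs]
      field_simp
  choose r s hs hrs using h1
  set R : ι → MvPolynomial (Fin (n + 1)) ℂ := fun i => r i * ∏ j ∈ Finset.univ.erase i, s j with hR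
  set c := ∑ i, (R i).totalDegree with hc
  have h2 : ∀ i, (R i).totalDegree ≤ c := fun i =>
    Finset.single_le_sum (f := fun i => (R i).totalDegree) (fun _ _ => Nat.zero_le _)
      (Finset.mem_univ i)
  choose A hA hAR using fun i => homog_poly (yy_zero h0) (R i) (h2 i)
  refine ⟨c, ∏ j, s j, ?_, A, hA, fun i => ?_⟩
  · rw [map_prod]
    exact Finset.prod_ne_zero_iff.2 fun j _ => hs j
  · rw [hAR i, hR]
    simp only
    rw [map_mul, ← hrs i, ← Finset.mul_prod_erase _ _ (Finset.mem_univ i), map_mul]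
    ring

/-- **Lower bound.** -/
theorem lower {d : ℕ} (hD : 1 ≤ D) (hg : Gen F p D e0) (hFx : aeval x F = 0) (h0 : PP x p 0 ≠ 0)
    (hF : F.IsHomogeneous d)
    (hker : ∀ e (H : MvPolynomial (Fin (n + 2)) ℂ), H.IsHomogeneous e → aeval x H = 0 → F ∣ H)
    (M : IntermediateField (LL x p) K) [FiniteDimensional (LL x p) M]
    (hM : ∀ β ∈ Om n e0 D, om x p D β ∈ M) :
    d * D ^ n ≤ Module.finrank (LL x p) M := by
  classical
  set r := Module.finrank (LL x p) M with hr
  let b := Module.finBasis (LL x p) M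
  let κ : (Om n e0 D) × Fin r → K := fun i =>
    ((b.repr ⟨om x p D i.1.1, hM i.1.1 i.1.2⟩ i.2 : LL x p) : K)
  obtain ⟨c, Q, hQ, A, hA, hAeq⟩ := den h0 κ (fun i => (b.repr _ i.2).2)
  have hom : ∀ β : Om n e0 D, aeval (yy x p) Q * om x p D β.1 =
      ∑ j, aeval (yy x p) (A (β, j)) * ((b j : M) : K) := by
    intro β
    have h1 := b.sum_repr ⟨om x p D β.1, hM β.1 β.2⟩
    have h2 := congrArg (fun z : M => (z : K)) h1
    simp only at h2
    rw [← h2]
    have h3 : (((∑ i, b.repr ⟨om x p D β.1, hM β.1 β.2⟩ i • b i : M)) : K) =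
        ∑ i, ((b.repr ⟨om x p D β.1, hM β.1 β.2⟩ i : LL x p) : K) * ((b i : M) : K) := by
      rw [IntermediateField.coe_sum]
      rfl
    rw [h3, Finset.mul_sum]
    refine Finset.sum_congr rfl fun j _ => ?_
    rw [← hAeq (β, j), mul_assoc]
  refine asym_lb (c := c) hD fun m hdm => ?_
  -- the maps
  let Φ : (Fin r → homogeneousSubmodule (Fin (n + 1)) ℂ (m + c)) →ₗ[ℂ] K :=
    { toFun := fun B => ∑ j, aeval (yy x p) (B j).1 * ((b j : M) : K)
      map_add' := by
        intro B B'
        rw [← Finset.sum_add_distrib]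
        refine Finset.sum_congr rfl fun j _ => ?_
        rw [Pi.add_apply, Submodule.coe_add, map_add, add_mul]
      map_smul' := by
        intro a B
        rw [RingHom.id_apply, Finset.smul_sum]
        refine Finset.sum_congr rfl fun j _ => ?_
        rw [Pi.smul_apply, Submodule.coe_smul, map_smul, smul_mul_assoc] }
  let θ : homogeneousSubmodule (Fin (n + 2)) ℂ (m * D) →ₗ[ℂ] K :=
    { toFun := fun H => aeval (yy x p) Q * (aeval x H.1 / PP x p 0 ^ m)
      map_add' := by
        intro H H'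
        rw [Submodule.coe_add, map_add]
        ring
      map_smul' := by
        intro a H
        rw [Submodule.coe_smul, map_smul, RingHom.id_apply, smul_div_assoc, mul_smul_comm] }
  let μ : homogeneousSubmodule (Fin (n + 2)) ℂ (m * D - d) →ₗ[ℂ]
      homogeneousSubmodule (Fin (n + 2)) ℂ (m * D) :=
    { toFun := fun B => ⟨B.1 * F, by
        have h1 := ((mem_homogeneousSubmodule _ _).1 B.2).mul hF
        rw [mem_homogeneousSubmodule]
        rwa [show m * D - d + d = m * D by omega] at h1⟩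
      map_add' := by
        intro B B'
        apply Subtype.ext
        exact add_mul B.1 B'.1 F
      map_smul' := by
        intro a B
        apply Subtype.ext
        exact smul_mul_assoc a B.1 F }
  obtain ⟨hf1, hr1⟩ := finrank_hom n (m + c)
  obtain ⟨hf2, hr2⟩ := finrank_hom (n + 1) (m * D)
  obtain ⟨hf3, hr3⟩ := finrank_hom (n + 1) (m * D - d)
  have hker' : LinearMap.ker θ ≤ LinearMap.range μ := by
    intro H hH
    rw [LinearMap.mem_ker] at hH
    have h1 : aeval x H.1 = 0 := by
      have h2 : aeval (yy x p) Q * (aeval x H.1 / PP x p 0 ^ m) = 0 := hH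
      rcases mul_eq_zero.1 h2 with h3 | h3
      · exact absurd h3 hQ
      · rcases div_eq_zero_iff.1 h3 with h4 | h4
        · exact h4
        · exact absurd h4 (pow_ne_zero _ h0)
    have hHh : H.1.IsHomogeneous (m * D) := (mem_homogeneousSubmodule _ _).1 H.2
    obtain ⟨B, hB⟩ := hker _ H.1 hHh h1
    refine ⟨⟨homogeneousComponent (m * D - d) B, homogeneousComponent_mem _ _⟩, ?_⟩
    apply Subtype.ext
    change homogeneousComponent (m * D - d) B * F = H.1
    rw [← hc_mul B F hF hdm, mul_comm B F, ← hB]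
    exact homogeneousComponent_eq_self hHh
  have hrange : LinearMap.range θ ≤ LinearMap.range Φ := by
    rintro _ ⟨H, rfl⟩
    have h1 := span2 hD hg hFx h0 m H.1 ((mem_homogeneousSubmodule _ _).1 H.2)
    change aeval (yy x p) Q * (aeval x H.1 / PP x p 0 ^ m) ∈ _
    refine Submodule.span_induction
      (p := fun z _ => aeval (yy x p) Q * z ∈ LinearMap.range Φ) ?_ ?_ ?_ ?_ h1
    · rintro z ⟨A', β, hA', hβ, rfl⟩
      refine ⟨fun j => ⟨A' * A (⟨β, hβ⟩, j), (mem_homogeneousSubmodule _ _).2
        (hA'.mul (hA _))⟩, ?_⟩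
      change ∑ j, aeval (yy x p) (A' * A (⟨β, hβ⟩, j)) * ((b j : M) : K) = _
      have h2 := hom ⟨β, hβ⟩
      simp only at h2
      rw [mul_left_comm, h2, Finset.mul_sum]
      refine Finset.sum_congr rfl fun j _ => ?_
      rw [map_mul, mul_assoc]
    · rw [mul_zero]
      exact Submodule.zero_mem _
    · intro z w _ _ hz hw
      rw [mul_add]
      exact Submodule.add_mem _ hz hw
    · intro a z _ hz
      rw [mul_smul_comm]
      exact Submodule.smul_mem _ _ hz
  have e1 := LinearMap.finrank_range_add_finrank_ker θ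
  have e2 : Module.finrank ℂ (LinearMap.ker θ) ≤ (m * D - d + (n + 1)).choose (n + 1) := by
    rw [← hr3]
    exact (Submodule.finrank_mono hker').trans (LinearMap.finrank_range_le μ)
  have e3 : Module.finrank ℂ (LinearMap.range θ) ≤ r * (m + c + n).choose n := by
    refine (Submodule.finrank_mono hrange).trans ((LinearMap.finrank_range_le Φ).trans ?_)
    rw [Module.finrank_pi_fintype]
    simp only [hr1, Finset.sum_const, Finset.card_univ, Fintype.card_fin, smul_eq_mul]
    exact le_rfl
  rw [hr2] at e1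
  omega

end

end Pool.Agent.TH314.PD
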