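import Mathlib
import Pool.Agent.TH314.PD.LB2

/-!
# Algebraicity over the field of the ratios, and a form vanishing on the gradient
-/

set_option autoImplicit false

namespace Pool.Agent.TH314.PD

open MvPolynomial Cardinal

noncomputable section

variable {n : ℕ} {K : Type} [Field K] [Algebra ℂ K]

/-- a nonzero form vanishing at given `n + 2` polynomials in `n` variables -/
theorem exists_form (ξ : Fin (n + 2) → MvPolynomial (Fin n) ℂ) :
    ∃ (m : ℕ) (Δ : MvPolynomial (Fin (n + 2)) ℂ), Δ.IsHomogeneous m ∧ Δ ≠ 0 ∧ aeval ξ Δ = 0 := by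
  let v : Fin (n + 2) → Polynomial (MvPolynomial (Fin n) ℂ) := fun i =>
    Polynomial.X * Polynomial.C (ξ i)
  have hv : ¬ AlgebraicIndependent ℂ v := by
    intro h
    have h1 := h.cardinalMk_le_trdeg
    have h2 : Algebra.trdeg ℂ (Polynomial (MvPolynomial (Fin n) ℂ)) = ((n + 1 : ℕ) : Cardinal) := by
      rw [← trdeg_add_eq ℂ (MvPolynomial (Fin n) ℂ), MvPolynomial.trdeg_of_isDomain,
        Polynomial.trdeg_of_isDomain]
      simp
    rw [h2, Cardinal.mk_fin, Nat.cast_le] at h1
    omega
  rw [algebraicIndependent_iff] at hv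
  push Not at hv
  obtain ⟨A, hA, hA0⟩ := hv
  -- some component is nonzero
  have h1 : ∃ m, homogeneousComponent m A ≠ 0 := by
    by_contra h
    push Not at h
    apply hA0
    rw [← sum_homogeneousComponent A]
    exact Finset.sum_eq_zero fun i _ => h i
  obtain ⟨m, hm⟩ := h1
  refine ⟨m, homogeneousComponent m A, homogeneousComponent_isHomogeneous _ _, hm, ?_⟩
  have h2 : ∀ i, aeval v (homogeneousComponent i A) =
      Polynomial.X ^ i * Polynomial.C (aeval ξ (homogeneousComponent i A)) := by
    intro i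
    rw [aeval_smul_form (homogeneousComponent_isHomogeneous i A)]
    congr 1
    generalize homogeneousComponent i A = q
    induction q using MvPolynomial.induction_on with
    | C a =>
      rw [aeval_C, aeval_C]
      rfl
    | add f g hf hg => rw [map_add, map_add, map_add, hf, hg]
    | mul_X f l hf => rw [map_mul, map_mul, map_mul, hf, aeval_X, aeval_X]
  have h3 : ∑ i ∈ Finset.range (A.totalDegree + 1),
      (Polynomial.X ^ i * Polynomial.C (aeval ξ (homogeneousComponent i A)) :
        Polynomial (MvPolynomial (Fin n) ℂ)) = 0 := by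
    rw [← Finset.sum_congr rfl fun i _ => h2 i, ← map_sum, sum_homogeneousComponent, hA]
  have h4 := congrArg (fun q : Polynomial (MvPolynomial (Fin n) ℂ) => q.coeff m) h3
  simp only [Polynomial.finsetSum_coeff, Polynomial.coeff_zero] at h4
  have h5 : ∀ i, (Polynomial.X ^ i * Polynomial.C (aeval ξ (homogeneousComponent i A)) :
      Polynomial (MvPolynomial (Fin n) ℂ)).coeff m =
      if i = m then aeval ξ (homogeneousComponent i A) else 0 := by
    intro i
    rw [Polynomial.coeff_mul_C, Polynomial.coeff_X_pow]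
    by_cases h : i = m
    · rw [if_pos h, if_pos h.symm, one_mul]
    · rw [if_neg h, if_neg (Ne.symm h), zero_mul]
  rw [Finset.sum_congr rfl fun i _ => h5 i, Finset.sum_ite_eq'] at h4
  by_cases hmem : m ∈ Finset.range (A.totalDegree + 1)
  · rwa [if_pos hmem] at h4
  · exfalso
    apply hm
    apply homogeneousComponent_eq_zero
    rw [Finset.mem_range] at hmem
    omega

/-- homogenisation with respect to an additional variable -/
theorem homogenize (A : MvPolynomial (Fin n) ℂ) :
    ∃ A' : MvPolynomial (Fin (n + 1)) ℂ, A'.IsHomogeneous A.totalDegree ∧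
      ∀ {R : Type} [CommRing R] [Algebra ℂ R] (u : Fin n → R),
        aeval (Fin.cons 1 u : Fin (n + 1) → R) A' = aeval u A := by
  refine ⟨∑ α ∈ A.support, rename Fin.succ (monomial α (coeff α A)) *
    X 0 ^ (A.totalDegree - α.degree), ?_, ?_⟩
  · refine IsHomogeneous.sum _ _ _ fun α hα => ?_
    have h1 : α.degree ≤ A.totalDegree := by
      have := le_totalDegree hα
      rw [Finsupp.degree_eq_sum]
      rw [Finsupp.sum_fintype _ _ (fun _ => rfl)] at this
      exact this
    have h2 := (IsHomogeneous.rename_isHomogeneous (f := Fin.succ)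
      (isHomogeneous_monomial (coeff α A) (rfl : α.degree = α.degree))).mul
      ((isHomogeneous_X ℂ (0 : Fin (n + 1))).pow (A.totalDegree - α.degree))
    rwa [show α.degree + 1 * (A.totalDegree - α.degree) = A.totalDegree by omega] at h2
  · intro R _ _ u
    rw [map_sum]
    conv_rhs => rw [A.as_sum, map_sum]
    refine Finset.sum_congr rfl fun α _ => ?_
    rw [map_mul, map_pow, aeval_X, Fin.cons_zero, one_pow, mul_one, aeval_rename]
    have h3 : (Fin.cons 1 u : Fin (n + 1) → R) ∘ Fin.succ = u := by
      funext l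
      exact Fin.cons_succ _ _ _
    rw [h3]

variable {x : Fin (n + 2) → K} {F : MvPolynomial (Fin (n + 2)) ℂ} {d : ℕ}

theorem exists_indep (hF : F.IsHomogeneous d) (hd : 1 ≤ d) (hF0 : F ≠ 0)
    (hker : ∀ e (H : MvPolynomial (Fin (n + 2)) ℂ), H.IsHomogeneous e → aeval x H = 0 → F ∣ H) :
    ∃ u : Fin n → K, AlgebraicIndependent ℂ u ∧ ∀ l, ∃ a b, u l = x a / x b := by
  -- a variable which occurs in `F`
  obtain ⟨α, hα⟩ := ne_zero_iff.1 hF0
  have hdeg : α.degree = d := by
    by_contra h
    exact hα (hF.coeff_eq_zero h)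
  obtain ⟨j, hj⟩ : ∃ j, α j ≠ 0 := by
    by_contra h
    push Not at h
    have : α = 0 := Finsupp.ext h
    rw [this, map_zero] at hdeg
    omega
  have hjF : degreeOf j F ≠ 0 := by
    have h1 := monomial_le_degreeOf j (mem_support_iff.2 hα)
    omega
  -- forms not involving `j` and divisible by `F` vanish
  have hno : ∀ q : MvPolynomial (Fin (n + 1)) ℂ, F ∣ rename j.succAbove q → q = 0 := by
    intro q hq
    by_contra hq0
    obtain ⟨B, hB⟩ := hq
    have h1 : rename j.succAbove q ≠ 0 := by
      intro h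
      exact hq0 (rename_injective _ Fin.succAbove_right_injective (by rw [h, map_zero]))
    have hB0 : B ≠ 0 := by
      rintro rfl
      rw [mul_zero] at hB
      exact h1 hB
    have h2 : degreeOf j (rename j.succAbove q) ≠ 0 := by
      rw [hB, degreeOf_mul_eq hF0 hB0]
      omega
    rw [← mem_vars_iff_degreeOf_ne_zero] at h2
    obtain ⟨i, _, hi⟩ := mem_vars_rename _ _ h2
    exact Fin.succAbove_ne j i hi
  set z : Fin (n + 1) → K := fun i => x (j.succAbove i) with hz
  have haev : ∀ q : MvPolynomial (Fin (n + 1)) ℂ, aeval x (rename j.succAbove q) = aeval z q := by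
    intro q
    rw [aeval_rename]
    rfl
  have hz0 : z 0 ≠ 0 := by
    intro h
    have h1 := hker 1 (rename j.succAbove (X 0)) (by
      rw [rename_X]
      exact isHomogeneous_X _ _) (by rw [haev, aeval_X, h])
    exact X_ne_zero _ (hno _ h1)
  refine ⟨fun l => z l.succ / z 0, ?_, fun l => ⟨_, _, rfl⟩⟩
  rw [algebraicIndependent_iff]
  intro A hA
  obtain ⟨A', hA'h, hA'⟩ := homogenize A
  have h1 : aeval z A' = 0 := by
    have h2 : z = fun i => z 0 * (Fin.cons 1 (fun l : Fin n => z l.succ / z 0) : Fin (n + 1) → K) i := by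
      funext i
      refine Fin.cases ?_ (fun l => ?_) i
      · rw [Fin.cons_zero, mul_one]
      · rw [Fin.cons_succ]
        field_simp
    rw [h2, aeval_smul_form hA'h, hA', hA, mul_zero]
  have h2 : A' = 0 := hno A' (hker _ _ (IsHomogeneous.rename_isHomogeneous hA'h)
    (by rw [haev, h1]))
  have h3 := hA' (X : Fin n → MvPolynomial (Fin n) ℂ)
  rw [h2, map_zero, aeval_X_left_apply] at h3
  exact h3.symm

/-- **Algebraicity.** -/
theorem algebraic_LL {p : Fin (n + 1) → MvPolynomial (Fin (n + 2)) ℂ} {D e0 : ℕ}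
    (hb : Algebra.trdeg ℂ K = n)
    (hF : F.IsHomogeneous d) (hd : 1 ≤ d) (hF0 : F ≠ 0)
    (hker : ∀ e (H : MvPolynomial (Fin (n + 2)) ℂ), H.IsHomogeneous e → aeval x H = 0 → F ∣ H)
    (hD : 1 ≤ D) (hg : Gen F p D e0) (hFx : aeval x F = 0) (h0 : PP x p 0 ≠ 0) :
    Algebra.IsAlgebraic (LL x p) K := by
  obtain ⟨u, hu, hux⟩ := exists_indep hF hd hF0 hker
  have hbas : IsTranscendenceBasis ℂ u :=
    hu.isTranscendenceBasis_of_trdeg_le_of_finite (by rw [hb, Cardinal.mk_fin])
  have halg := hbas.isAlgebraic_field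
  set C := algebraicClosure (LL x p) K with hC
  have hle : IntermediateField.adjoin ℂ (Set.range u) ≤ C.restrictScalars ℂ := by
    rw [IntermediateField.adjoin_le_iff]
    rintro _ ⟨l, rfl⟩
    obtain ⟨a, b, hab⟩ := hux l
    change u l ∈ C
    rw [hab]
    exact algebraic_coord hD hg hFx h0 a b
  let _ : Algebra (IntermediateField.adjoin ℂ (Set.range u)) C :=
    (IntermediateField.inclusion hle).toRingHom.toAlgebra
  have : IsScalarTower (IntermediateField.adjoin ℂ (Set.range u)) C K :=
    IsScalarTower.of_algebraMap_eq fun x => rfl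
  have h1 : Algebra.IsAlgebraic C K :=
    Algebra.IsAlgebraic.extendScalars (R := IntermediateField.adjoin ℂ (Set.range u))
      (IntermediateField.inclusion hle).toRingHom.injective
  exact Algebra.IsAlgebraic.trans (LL x p) C K

end

end Pool.Agent.TH314.PD
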