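import Mathlib
import Pool.Agent.W602.GT.Der
import Pool.Agent.TH314.PD.UB

/-!
# The operators which give the equations
-/

set_option autoImplicit false

namespace Pool.Agent.TH314.PD

open MvPolynomial

noncomputable section

variable {n : ℕ}

/-- `k g - ∑ X_l ∂_l g` and the partial derivatives -/
def Dop (k : ℕ) : Option (Fin n) → (MvPolynomial (Fin n) ℂ →ₗ[ℂ] MvPolynomial (Fin n) ℂ)
  | none => (k : ℂ) • LinearMap.id -
      ∑ l, (LinearMap.mulLeft ℂ (X l)).comp (pderiv (R := ℂ) l).toLinearMap
  | some l => (pderiv (R := ℂ) l).toLinearMap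

theorem Dop_some (k : ℕ) (l : Fin n) (g : MvPolynomial (Fin n) ℂ) : Dop k (some l) g = pderiv l g := rfl

theorem Dop_none (k : ℕ) (g : MvPolynomial (Fin n) ℂ) :
    Dop k none g = (k : ℂ) • g - ∑ l, X l * pderiv l g := by
  unfold Dop
  rw [LinearMap.sub_apply, LinearMap.smul_apply, LinearMap.sum_apply]
  rfl

theorem sum_X_pderiv (g : MvPolynomial (Fin n) ℂ) :
    ∑ l, X l * pderiv l g = ∑ i ∈ Finset.range (g.totalDegree + 1), i • homogeneousComponent i g := by
  conv_lhs => rw [← sum_homogeneousComponent g]
  simp only [map_sum, Finset.mul_sum]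
  rw [Finset.sum_comm]
  refine Finset.sum_congr rfl fun i _ => ?_
  exact (homogeneousComponent_isHomogeneous i g).sum_X_mul_pderiv

/-- the support condition -/
def Sd (q : ℕ) (g : MvPolynomial (Fin n) ℂ) : Prop := ∀ α ∈ g.support, ∑ l, α l ≤ q

theorem Sd_of_totalDegree {q : ℕ} {g : MvPolynomial (Fin n) ℂ} (h : g.totalDegree ≤ q) : Sd q g := by
  intro α hα
  have := le_totalDegree hα
  rw [Finsupp.sum_fintype _ _ (fun _ => rfl)] at this
  exact this.trans h

theorem Dop_deg {k : ℕ} {g : MvPolynomial (Fin n) ℂ} (hg : g.totalDegree ≤ k)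
    (i : Option (Fin n)) : Sd (k - 1) (Dop k i g) := by
  cases i with
  | some l =>
    rw [Dop_some]
    intro α hα
    rw [mem_support_iff, coeff_pderiv] at hα
    have h1 : α + Finsupp.single l 1 ∈ g.support := by
      rw [mem_support_iff]
      intro h
      rw [h, zero_mul] at hα
      exact hα rfl
    have h2 := Sd_of_totalDegree hg _ h1
    simp only [Finsupp.add_apply, Finset.sum_add_distrib] at h2
    have h3 : ∑ x, (Finsupp.single l 1 : Fin n →₀ ℕ) x = 1 := by
      rw [Finset.sum_eq_single l]
      · exact Finsupp.single_eq_same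
      · intro b _ hb
        exact Finsupp.single_eq_of_ne hb
      · intro h
        exact absurd (Finset.mem_univ _) h
    omega
  | none =>
    rw [Dop_none]
    intro α hα
    have h1 : coeff α ((k : ℂ) • g - ∑ l, X l * pderiv l g) = ((k : ℂ) - (∑ l, α l : ℕ)) * coeff α g := by
      rw [coeff_sub, coeff_smul, smul_eq_mul, sub_mul, sum_X_pderiv, coeff_sum]
      congr 1
      have h2 : ∀ i, coeff α (i • homogeneousComponent i g) =
          if α.degree = i then (i : ℂ) * coeff α g else 0 := by
        intro i
        rw [coeff_smul, coeff_homogeneousComponent]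
        split_ifs with h
        · rw [nsmul_eq_mul]
        · rw [nsmul_zero]
      rw [Finset.sum_congr rfl fun i _ => h2 i, Finset.sum_ite_eq]
      split_ifs with h
      · rw [Finsupp.degree_eq_sum]
      · have h3 : coeff α g = 0 := by
          apply coeff_eq_zero_of_totalDegree_lt
          rw [Finset.mem_range] at h
          have h4 : ∑ i ∈ α.support, α i = α.degree := rfl
          omega
        rw [h3, mul_zero]
    rw [mem_support_iff, h1] at hα
    have h2 : coeff α g ≠ 0 := right_ne_zero_of_mul hα
    have h3 : (k : ℂ) - (∑ l, α l : ℕ) ≠ 0 := left_ne_zero_of_mul hα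
    have h4 := Sd_of_totalDegree hg α (mem_support_iff.2 h2)
    have h5 : ∑ l, α l ≠ k := by
      intro h
      rw [h, sub_self] at h3
      exact h3 rfl
    omega

section iota

variable {K : Type} [Field K] [Algebra ℂ K] (L : IntermediateField ℂ K)

/-- inclusion of the polynomials -/
def io : MvPolynomial (Fin n) ℂ →ₐ[ℂ] MvPolynomial (Option (Fin n)) L :=
  aeval (fun l => (X (some l) : MvPolynomial (Option (Fin n)) L))

theorem io_C (a : ℂ) : io L (C a : MvPolynomial (Fin n) ℂ) = C (algebraMap ℂ L a) := by
  unfold io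
  rw [aeval_C]
  rfl

theorem io_X (l : Fin n) : io L (X l : MvPolynomial (Fin n) ℂ) = X (some l) := by
  unfold io
  rw [aeval_X]

theorem aeval_io (pt : Option (Fin n) → K) (g : MvPolynomial (Fin n) ℂ) :
    aeval pt (io L g) = aeval (fun l => pt (some l)) g := by
  induction g using MvPolynomial.induction_on with
  | C a =>
    rw [io_C, aeval_C, aeval_C]
    rfl
  | add f g hf hg => rw [map_add, map_add, map_add, hf, hg]
  | mul_X f l hf => rw [map_mul, map_mul, map_mul, hf, io_X, aeval_X, aeval_X]

theorem pderiv_none_io (g : MvPolynomial (Fin n) ℂ) : pderiv none (io L g) = 0 := by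
  induction g using MvPolynomial.induction_on with
  | C a => rw [io_C, pderiv_C]
  | add f g hf hg => rw [map_add, map_add, hf, hg, add_zero]
  | mul_X f l hf =>
    rw [map_mul, io_X, pderiv_mul, hf, pderiv_X_of_ne (by simp), mul_zero, zero_mul, add_zero]

theorem pderiv_some_io (m : Fin n) (g : MvPolynomial (Fin n) ℂ) :
    pderiv (some m) (io L g) = io L (pderiv m g) := by
  induction g using MvPolynomial.induction_on with
  | C a => rw [io_C, pderiv_C, pderiv_C, map_zero]
  | add f g hf hg => rw [map_add, map_add, map_add, map_add, hf, hg]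
  | mul_X f l hf =>
    rw [map_mul, io_X, pderiv_mul, pderiv_mul, hf, map_add, map_mul, map_mul, io_X]
    by_cases h : l = m
    · subst h
      rw [pderiv_X_self, pderiv_X_self, map_one]
    · rw [pderiv_X_of_ne h, pderiv_X_of_ne (by simpa using h), map_zero]

theorem io_Bd {q : ℕ} {g : MvPolynomial (Fin n) ℂ} (hg : Sd q g) : Bd 0 q (io L g) := by
  classical
  have h1 : io L g = ∑ α ∈ g.support, monomial (α.mapDomain some) (algebraMap ℂ L (coeff α g)) := by
    conv_lhs => rw [g.as_sum, map_sum]
    refine Finset.sum_congr rfl fun α _ => ?_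
    unfold io
    rw [aeval_monomial]
    rw [monomial_eq, Finsupp.prod_mapDomain_index (fun _ => pow_zero _) (fun _ _ _ => pow_add _ _ _)]
    rfl
  intro β hβ
  rw [h1] at hβ
  have h2 := Finset.mem_biUnion.1 (MvPolynomial.support_sum hβ)
  obtain ⟨α, hα, hβ2⟩ := h2
  have h3 : β = α.mapDomain some := by
    have := support_monomial_subset hβ2
    rwa [Finset.mem_singleton] at this
  subst h3
  refine ⟨?_, ?_⟩
  · rw [Finsupp.mapDomain_notin_range]
    simp
  · have h4 : ∀ l : Fin n, α.mapDomain some (some l) = α l := fun l =>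
      Finsupp.mapDomain_apply (Option.some_injective _) _ _
    simp only [h4]
    exact hg α hα

end iota

end

end Pool.Agent.TH314.PD
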