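import Mathlib
import Pool.Agent.W602.GT.Der
import Pool.Agent.TH314.PD.Op

/-!
# Nondegeneracy of the equations at the generic point
-/

set_option autoImplicit false

namespace Pool.Agent.TH314.PD

open MvPolynomial

noncomputable section

variable {n k : ℕ} {K : Type} [Field K] [Algebra ℂ K]

/-- a derivation with prescribed values on the variables -/
theorem exists_der' (al : MvPolynomial (Fin n) ℂ →ₐ[ℂ] K)
    (hb : IsTranscendenceBasis ℂ (fun l : Fin n => al (X l))) (w : Fin n → K) :
    ∃ δ : Derivation ℂ K K, ∀ g : MvPolynomial (Fin n) ℂ,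
      δ (al g) = ∑ l, w l * al (pderiv l g) := by
  obtain ⟨δ, hδ⟩ := W602.GT.exists_der (fun l : Fin n => al (X l)) hb w
  refine ⟨δ, fun g => ?_⟩
  induction g using MvPolynomial.induction_on with
  | C a =>
    have h1 : al (C a) = algebraMap ℂ (K) a := al.commutes a
    rw [h1, Derivation.map_algebraMap]
    symm
    refine Finset.sum_eq_zero fun l _ => ?_
    rw [pderiv_C, map_zero, mul_zero]
  | add f g hf hg =>
    rw [map_add, map_add, hf, hg, ← Finset.sum_add_distrib]
    refine Finset.sum_congr rfl fun l _ => ?_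
    rw [map_add, map_add, mul_add]
  | mul_X f i hf =>
    rw [map_mul, Derivation.leibniz, hf, hδ, smul_eq_mul, smul_eq_mul]
    have h2 : ∀ l, w l * al (pderiv l (f * X i)) =
        (if l = i then al f * w i else 0) + al (X i) * (w l * al (pderiv l f)) := by
      intro l
      rw [pderiv_mul]
      by_cases h : l = i
      · subst h
        rw [pderiv_X_self, if_pos rfl, map_add, map_mul, map_mul, map_one]
        ring
      · rw [pderiv_X_of_ne (Ne.symm h), if_neg h, mul_zero, add_zero, map_mul]
        ring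
    rw [Finset.sum_congr rfl fun l _ => h2 l, Finset.sum_add_distrib, Finset.sum_ite_eq',
      if_pos (Finset.mem_univ _), Finset.mul_sum]

theorem nd [CharZero K] (al : MvPolynomial (Fin n) ℂ →ₐ[ℂ] K) (hal : Function.Injective al)
    (hb : IsTranscendenceBasis ℂ (fun l : Fin n => al (X l)))
    (Γ : Fin (n + 2) → MvPolynomial (Fin n) ℂ) (Y : Fin (n + 2) → K) (hY0 : Y 0 = 1)
    (hr0 : ∑ j, Y j * al (Γ j) = 0) (hr1 : ∀ l, ∑ j, Y j * al (pderiv l (Γ j)) = 0)
    (hlast : Γ (Fin.last (n + 1)) ≠ 0) (hk : 0 < k)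
    (hind : ∀ (a : K) (w : Fin n → K),
      (∀ j, a * al (Γ j) + ∑ l, w l * al (pderiv l (Γ j)) = 0) → a = 0 ∧ w = 0)
    (hder : ∀ δ : Derivation ℂ (K) (K), (∀ j, δ (Y j) = 0) → δ = 0)
    (μ : K) (w : Fin n → K)
    (h : ∀ i : Option (Fin n), μ * al (Dop k i (Γ (Fin.last (n + 1)))) +
      ∑ m, w m * ∑ j, Y j * al (pderiv m (Dop k i (Γ j))) = 0) : μ = 0 ∧ w = 0 := by
  classical
  -- the equations
  have hsome : ∀ l : Fin n, μ * al (pderiv l (Γ (Fin.last (n + 1)))) +
      ∑ m, w m * ∑ j, Y j * al (pderiv m (pderiv l (Γ j))) = 0 := fun l => h (some l)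
  have hnone := h none
  have hμ : μ = 0 := by
    have h1 : ∀ m, ∑ j, Y j * al (pderiv m (Dop k none (Γ j))) =
        - ∑ l, al (X l) * ∑ j, Y j * al (pderiv m (pderiv l (Γ j))) := by
      intro m
      have h2 : ∀ j, al (pderiv m (Dop k none (Γ j))) =
          (k : K) * al (pderiv m (Γ j)) - al (pderiv m (Γ j)) -
            ∑ l, al (X l) * al (pderiv m (pderiv l (Γ j))) := by
        intro j
        rw [Dop_none, map_sub, map_sum]
        have h3 : ∀ l, pderiv m (X l * pderiv l (Γ j)) =
            (if l = m then pderiv m (Γ j) else 0) + X l * pderiv m (pderiv l (Γ j)) := by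
          intro l
          rw [pderiv_mul]
          by_cases hl : l = m
          · subst hl
            rw [pderiv_X_self, if_pos rfl, one_mul]
          · rw [pderiv_X_of_ne hl, if_neg hl, zero_mul]
        rw [Finset.sum_congr rfl fun l _ => h3 l, Finset.sum_add_distrib, Finset.sum_ite_eq',
          if_pos (Finset.mem_univ _), map_sub, map_add, map_sum, Derivation.map_smul, map_smul]
        simp only [map_mul]
        rw [Algebra.smul_def, map_natCast]
        ring
      simp only [h2, mul_sub, Finset.sum_sub_distrib]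
      have h4 : ∑ j, Y j * ((k : K) * al (pderiv m (Γ j))) = 0 := by
        have h5 : ∀ j, Y j * ((k : K) * al (pderiv m (Γ j))) =
            (k : K) * (Y j * al (pderiv m (Γ j))) := fun j => by ring
        rw [Finset.sum_congr rfl fun j _ => h5 j, ← Finset.mul_sum, hr1 m, mul_zero]
      rw [h4, hr1 m, sub_zero, zero_sub]
      congr 1
      simp only [Finset.mul_sum]
      rw [Finset.sum_comm]
      refine Finset.sum_congr rfl fun l _ => Finset.sum_congr rfl fun j _ => ?_
      ring
    have h6 : al (Dop k none (Γ (Fin.last (n + 1)))) = (k : K) * al (Γ (Fin.last (n + 1))) -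
        ∑ l, al (X l) * al (pderiv l (Γ (Fin.last (n + 1)))) := by
      rw [Dop_none, map_sub, map_sum, map_smul, Algebra.smul_def, map_natCast]
      simp only [map_mul]
    have hs : ∑ m, w m * ∑ j, Y j * al (pderiv m (Dop k none (Γ j))) =
        ∑ m, w m * -∑ l, al (X l) * ∑ j, Y j * al (pderiv m (pderiv l (Γ j))) :=
      Finset.sum_congr rfl fun m _ => by rw [h1 m]
    rw [h6, hs] at hnone
    have h7 : ∑ m, w m * -∑ l, al (X l) * ∑ j, Y j * al (pderiv m (pderiv l (Γ j))) =
        - ∑ l, al (X l) * ∑ m, w m * ∑ j, Y j * al (pderiv m (pderiv l (Γ j))) := by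
      simp only [mul_neg, Finset.sum_neg_distrib]
      congr 1
      simp only [Finset.mul_sum]
      rw [Finset.sum_comm]
      refine Finset.sum_congr rfl fun l _ => Finset.sum_congr rfl fun m _ =>
        Finset.sum_congr rfl fun j _ => ?_
      ring
    rw [h7] at hnone
    have h8 : ∑ l, al (X l) * ∑ m, w m * ∑ j, Y j * al (pderiv m (pderiv l (Γ j))) =
        - ∑ l, al (X l) * (μ * al (pderiv l (Γ (Fin.last (n + 1))))) := by
      rw [← Finset.sum_neg_distrib]
      refine Finset.sum_congr rfl fun l _ => ?_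
      rw [← mul_neg]
      congr 1
      exact eq_neg_of_add_eq_zero_right (hsome l)
    rw [h8] at hnone
    have h9 : μ * ((k : K) * al (Γ (Fin.last (n + 1)))) = 0 := by
      rw [← hnone]
      rw [mul_sub, Finset.mul_sum, neg_neg]
      have h10 : ∑ i, μ * (al (X i) * al (pderiv i (Γ (Fin.last (n + 1))))) =
          ∑ l, al (X l) * (μ * al (pderiv l (Γ (Fin.last (n + 1))))) :=
        Finset.sum_congr rfl fun l _ => by ring
      rw [h10]
      ring
    rcases mul_eq_zero.1 h9 with h10 | h10
    · exact h10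
    · rcases mul_eq_zero.1 h10 with h11 | h11
      · exact absurd h11 (Nat.cast_ne_zero.2 (by omega))
      · exact absurd h11 ((map_ne_zero_iff al hal).2 hlast)
  refine ⟨hμ, ?_⟩
  subst hμ
  have hsome' : ∀ l : Fin n, ∑ m, w m * ∑ j, Y j * al (pderiv m (pderiv l (Γ j))) = 0 := by
    intro l
    have := hsome l
    rwa [zero_mul, zero_add] at this
  obtain ⟨δ, hδ⟩ := exists_der' al hb w
  -- `δ Y` is orthogonal to the same vectors as `Y`
  have hd0 : ∑ j, δ (Y j) * al (Γ j) = 0 := by
    have h1 := congrArg δ hr0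
    rw [map_zero, map_sum] at h1
    have h2 : ∀ j, δ (Y j * al (Γ j)) = δ (Y j) * al (Γ j) +
        ∑ l, w l * (Y j * al (pderiv l (Γ j))) := by
      intro j
      rw [Derivation.leibniz, smul_eq_mul, smul_eq_mul, hδ, Finset.mul_sum, add_comm]
      congr 1
      · ring
      · exact Finset.sum_congr rfl fun l _ => by ring
    rw [Finset.sum_congr rfl fun j _ => h2 j, Finset.sum_add_distrib, Finset.sum_comm] at h1
    have h3 : ∑ l, ∑ j, w l * (Y j * al (pderiv l (Γ j))) = 0 := by
      refine Finset.sum_eq_zero fun l _ => ?_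
      rw [← Finset.mul_sum, hr1 l, mul_zero]
    rwa [h3, add_zero] at h1
  have hd1 : ∀ l, ∑ j, δ (Y j) * al (pderiv l (Γ j)) = 0 := by
    intro l
    have h1 := congrArg δ (hr1 l)
    rw [map_zero, map_sum] at h1
    have h2 : ∀ j, δ (Y j * al (pderiv l (Γ j))) = δ (Y j) * al (pderiv l (Γ j)) +
        ∑ m, w m * (Y j * al (pderiv m (pderiv l (Γ j)))) := by
      intro j
      rw [Derivation.leibniz, smul_eq_mul, smul_eq_mul, hδ, Finset.mul_sum, add_comm]
      congr 1
      · ring
      · exact Finset.sum_congr rfl fun l _ => by ring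
    rw [Finset.sum_congr rfl fun j _ => h2 j, Finset.sum_add_distrib, Finset.sum_comm] at h1
    have h3 : ∑ m, ∑ j, w m * (Y j * al (pderiv m (pderiv l (Γ j)))) = 0 := by
      have h4 := hsome' l
      simp only [Finset.mul_sum] at h4
      exact h4
    rwa [h3, add_zero] at h1
  -- the matrix of the conditions
  let Mx : Matrix (Option (Fin n)) (Fin (n + 2)) (K) :=
    Matrix.of fun i j => match i with
      | none => al (Γ j)
      | some l => al (pderiv l (Γ j))
  have hrow : LinearIndependent (K) Mx.row := by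
    rw [Fintype.linearIndependent_iff]
    intro g hg
    have h1 : ∀ j, g none * al (Γ j) + ∑ l, g (some l) * al (pderiv l (Γ j)) = 0 := by
      intro j
      have h2 := congrFun hg j
      rw [Fintype.sum_option] at h2
      rw [Pi.add_apply, Finset.sum_apply] at h2
      exact h2
    obtain ⟨h3, h4⟩ := hind (g none) (fun l => g (some l)) h1
    intro i
    cases i with
    | none => exact h3
    | some l => exact congrFun h4 l
  have hrank := hrow.rank_matrix
  rw [Fintype.card_option, Fintype.card_fin] at hrank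
  have hkerdim : Module.finrank (K) (LinearMap.ker Mx.mulVecLin) = 1 := by
    have h1 := LinearMap.finrank_range_add_finrank_ker Mx.mulVecLin
    rw [Module.finrank_fin_fun] at h1
    have h2 : Mx.rank = Module.finrank (K) (LinearMap.range Mx.mulVecLin) := rfl
    omega
  have hmem : ∀ u : Fin (n + 2) → K, ∑ j, u j * al (Γ j) = 0 →
      (∀ l, ∑ j, u j * al (pderiv l (Γ j)) = 0) → u ∈ LinearMap.ker Mx.mulVecLin := by
    intro u h1 h2
    rw [LinearMap.mem_ker, Matrix.mulVecLin_apply]
    funext i
    cases i with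
    | none =>
      have h3 : Mx.mulVec u none = ∑ j, al (Γ j) * u j := rfl
      rw [h3, Pi.zero_apply, ← h1]
      exact Finset.sum_congr rfl fun j _ => mul_comm _ _
    | some l =>
      have h3 : Mx.mulVec u (some l) = ∑ j, al (pderiv l (Γ j)) * u j := rfl
      rw [h3, Pi.zero_apply, ← h2 l]
      exact Finset.sum_congr rfl fun j _ => mul_comm _ _
  let v : LinearMap.ker Mx.mulVecLin := ⟨Y, hmem Y hr0 hr1⟩
  let v' : LinearMap.ker Mx.mulVecLin := ⟨fun j => δ (Y j), hmem _ hd0 hd1⟩
  have hv : v ≠ 0 := by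
    intro h'
    have h1 := congrFun (congrArg Subtype.val h') 0
    change Y 0 = 0 at h1
    rw [hY0] at h1
    exact one_ne_zero h1
  obtain ⟨c, hc⟩ := (finrank_eq_one_iff_of_nonzero' v hv).1 hkerdim v'
  have hc' : ∀ j, c * Y j = δ (Y j) := fun j => congrFun (congrArg Subtype.val hc) j
  have hc0 : c = 0 := by
    have h1 := hc' 0
    rw [hY0, mul_one, Derivation.map_one_eq_zero] at h1
    exact h1
  have hδ0 : δ = 0 := hder δ fun j => by rw [← hc' j, hc0, zero_mul]
  funext l
  have h1 := hδ (X l)
  rw [hδ0, Derivation.zero_apply] at h1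
  rw [Finset.sum_eq_single l, pderiv_X_self, map_one, mul_one] at h1
  · exact h1.symm
  · intro m _ hm
    rw [pderiv_X_of_ne (Ne.symm hm), map_zero, mul_zero]
  · intro h'
    exact absurd (Finset.mem_univ _) h'

end

end Pool.Agent.TH314.PD
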