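import Mathlib
import Pool.Agent.TH314.PD.LB
import Pool.Agent.TH314.PD.ND

/-!
# The upper bound for the degree over the field of the ratios
-/

set_option autoImplicit false

namespace Pool.Agent.TH314.PD

open MvPolynomial

noncomputable section

section Bd2

variable {L : Type} [Field L] {n : ℕ}

theorem Bd.add {a b : ℕ} {f g : MvPolynomial (Option (Fin n)) L} (hf : Bd a b f) (hg : Bd a b g) :
    Bd a b (f + g) := by
  classical
  intro α hα
  rcases Finset.mem_union.1 (MvPolynomial.support_add hα) with h | h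
  · exact hf α h
  · exact hg α h

theorem Bd.sum {ι : Type} (s : Finset ι) {a b : ℕ} {f : ι → MvPolynomial (Option (Fin n)) L}
    (hf : ∀ i ∈ s, Bd a b (f i)) : Bd a b (∑ i ∈ s, f i) := by
  classical
  induction s using Finset.induction_on with
  | empty =>
    rw [Finset.sum_empty]
    intro α hα
    simp at hα
  | insert i s hi ih =>
    rw [Finset.sum_insert hi]
    exact (hf i (Finset.mem_insert_self _ _)).add (ih fun j hj => hf j (Finset.mem_insert_of_mem hj))

theorem Bd.C (c : L) : Bd 0 0 (MvPolynomial.C c : MvPolynomial (Option (Fin n)) L) := by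
  intro α hα
  have h1 : α = 0 := by
    have := support_monomial_subset hα
    rwa [Finset.mem_singleton] at this
  subst h1
  simp

theorem Bd.X : Bd 1 0 (MvPolynomial.X none : MvPolynomial (Option (Fin n)) L) := by
  intro α hα
  have h1 : α = Finsupp.single none 1 := by
    have := support_monomial_subset hα
    rwa [Finset.mem_singleton] at this
  subst h1
  refine ⟨by simp, ?_⟩
  rw [Finset.sum_eq_zero]
  intro l _
  exact Finsupp.single_eq_of_ne (by simp)

end Bd2

variable {n k : ℕ} {K : Type} [Field K] [Algebra ℂ K]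

theorem adjoin_top (al : MvPolynomial (Fin n) ℂ →ₐ[ℂ] K)
    (hfrac : ∀ z : K, ∃ a b, z = al a / al b) (L : IntermediateField ℂ K) :
    IntermediateField.adjoin L (Set.range fun l => al (X l)) = ⊤ := by
  rw [eq_top_iff]
  intro z _
  have h1 : ∀ a : MvPolynomial (Fin n) ℂ,
      al a ∈ IntermediateField.adjoin L (Set.range fun l => al (X l)) := by
    intro a
    induction a using MvPolynomial.induction_on with
    | C a =>
      have h2 : al (C a) = algebraMap L K (algebraMap ℂ L a) := al.commutes a
      rw [h2]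
      exact (IntermediateField.adjoin L _).algebraMap_mem _
    | add f g hf hg =>
      rw [map_add]
      exact add_mem hf hg
    | mul_X f i hf =>
      rw [map_mul]
      exact mul_mem hf (IntermediateField.subset_adjoin _ _ ⟨i, rfl⟩)
  obtain ⟨a, b, rfl⟩ := hfrac z
  exact div_mem (h1 a) (h1 b)

theorem finite_dim (al : MvPolynomial (Fin n) ℂ →ₐ[ℂ] K)
    (hfrac : ∀ z : K, ∃ a b, z = al a / al b) (L : IntermediateField ℂ K)
    [Algebra.IsAlgebraic L K] : FiniteDimensional L K := by
  have h1 : FiniteDimensional L (IntermediateField.adjoin L (Set.range fun l => al (X l))) :=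
    IntermediateField.finiteDimensional_adjoin fun z _ =>
      (Algebra.IsAlgebraic.isAlgebraic z).isIntegral
  rw [adjoin_top al hfrac L] at h1
  exact IntermediateField.topEquiv.toLinearEquiv.finiteDimensional

theorem surj (al : MvPolynomial (Fin n) ℂ →ₐ[ℂ] K)
    (hfrac : ∀ z : K, ∃ a b, z = al a / al b) (L : IntermediateField ℂ K)
    [Algebra.IsAlgebraic L K] (pt : Option (Fin n) → K) (hpt : ∀ l, pt (some l) = al (X l))
    (z : K) : ∃ g : MvPolynomial (Option (Fin n)) L, aeval pt g = z := by
  have h1 : (IntermediateField.adjoin L (Set.range fun l => al (X l))).toSubalgebra =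
      Algebra.adjoin L (Set.range fun l => al (X l)) :=
    IntermediateField.adjoin_toSubalgebra_of_isAlgebraic fun z _ =>
      Algebra.IsAlgebraic.isAlgebraic z
  have h2 : z ∈ Algebra.adjoin L (Set.range fun l => al (X l)) := by
    rw [← h1, adjoin_top al hfrac L]
    exact IntermediateField.mem_top
  rw [Algebra.adjoin_range_eq_range_aeval] at h2
  obtain ⟨g, hg⟩ := h2
  refine ⟨rename some g, ?_⟩
  rw [aeval_rename, ← hg]
  have h3 : pt ∘ some = fun l => al (X l) := funext hpt
  rw [h3]
  rfl

/-- **Upper bound.** -/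
theorem upper [CharZero K] (al : MvPolynomial (Fin n) ℂ →ₐ[ℂ] K) (hal : Function.Injective al)
    (hb : IsTranscendenceBasis ℂ (fun l : Fin n => al (X l)))
    (hfrac : ∀ z : K, ∃ a b, z = al a / al b)
    (Γ : Fin (n + 2) → MvPolynomial (Fin n) ℂ) (hΓ : ∀ j, (Γ j).totalDegree ≤ k)
    (x : Fin (n + 2) → K) (p : Fin (n + 1) → MvPolynomial (Fin (n + 2)) ℂ)
    [Algebra.IsAlgebraic (LL x p) K]
    (Y : Fin (n + 2) → K) (hY0 : Y 0 = 1) (hYc : ∀ j : Fin (n + 1), Y j.castSucc = yy x p j)
    (hr0 : ∑ j, Y j * al (Γ j) = 0) (hr1 : ∀ l, ∑ j, Y j * al (pderiv l (Γ j)) = 0)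
    (hlast : Γ (Fin.last (n + 1)) ≠ 0) (hk : 0 < k)
    (hind : ∀ (a : K) (w : Fin n → K),
      (∀ j, a * al (Γ j) + ∑ l, w l * al (pderiv l (Γ j)) = 0) → a = 0 ∧ w = 0) :
    Module.finrank (LL x p) K ≤ (n + 1) * (k - 1) ^ n := by
  classical
  have hfd : FiniteDimensional (LL x p) K := finite_dim al hfrac (LL x p)
  set L := LL x p with hL
  let yL : Fin (n + 1) → L := fun j => ⟨yy x p j, IntermediateField.subset_adjoin _ _ ⟨j, rfl⟩⟩
  let E : Option (Fin n) → MvPolynomial (Option (Fin n)) L := fun i =>
    (∑ j : Fin (n + 1), C (yL j) * io L (Dop k i (Γ j.castSucc))) +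
      X none * io L (Dop k i (Γ (Fin.last (n + 1))))
  let pt : Option (Fin n) → K := fun i => match i with
    | none => Y (Fin.last (n + 1))
    | some l => al (X l)
  have hio : ∀ g : MvPolynomial (Fin n) ℂ, aeval pt (io L g) = al g := by
    intro g
    rw [aeval_io]
    have h1 : (aeval (fun l => pt (some l)) : MvPolynomial (Fin n) ℂ →ₐ[ℂ] K) = al := by
      apply MvPolynomial.algHom_ext
      intro l
      rw [aeval_X]
    rw [h1]
  have hsum : ∀ f : Fin (n + 2) → MvPolynomial (Fin n) ℂ,
      aeval pt ((∑ j : Fin (n + 1), C (yL j) * io L (f j.castSucc)) +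
        X none * io L (f (Fin.last (n + 1)))) = ∑ j, Y j * al (f j) := by
    intro f
    have h2 : ∀ j : Fin (n + 1), aeval pt (C (yL j) * io L (f j.castSucc)) =
        Y j.castSucc * al (f j.castSucc) := by
      intro j
      rw [map_mul, aeval_C, hio, hYc]
      rfl
    rw [map_add, map_sum, map_mul, aeval_X, hio, Finset.sum_congr rfl fun j _ => h2 j]
    exact (Fin.sum_univ_castSucc (fun j => Y j * al (f j))).symm
  have hE0 : ∀ i, aeval pt (E i) = 0 := by
    intro i
    have h0 : aeval pt (E i) = ∑ j, Y j * al (Dop k i (Γ j)) := hsum (fun j => Dop k i (Γ j))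
    rw [h0]
    cases i with
    | some l => exact hr1 l
    | none =>
      have h1 : ∀ j, Y j * al (Dop k none (Γ j)) = (k : K) * (Y j * al (Γ j)) -
          ∑ l, al (X l) * (Y j * al (pderiv l (Γ j))) := by
        intro j
        rw [Dop_none, map_sub, map_sum, map_smul, Algebra.smul_def, map_natCast, mul_sub,
          Finset.mul_sum]
        congr 1
        · ring
        · refine Finset.sum_congr rfl fun l _ => ?_
          rw [map_mul]
          ring
      rw [Finset.sum_congr rfl fun j _ => h1 j, Finset.sum_sub_distrib, ← Finset.mul_sum, hr0,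
        mul_zero, Finset.sum_comm, zero_sub, neg_eq_zero]
      refine Finset.sum_eq_zero fun l _ => ?_
      rw [← Finset.mul_sum, hr1 l, mul_zero]
  have hdn : ∀ i, pderiv none (E i) = io L (Dop k i (Γ (Fin.last (n + 1)))) := by
    intro i
    change pderiv none ((∑ j : Fin (n + 1), C (yL j) * io L (Dop k i (Γ j.castSucc))) +
      X none * io L (Dop k i (Γ (Fin.last (n + 1))))) = _
    rw [map_add, map_sum, pderiv_mul, pderiv_X_self, pderiv_none_io, mul_zero, add_zero, one_mul]
    rw [Finset.sum_eq_zero, zero_add]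
    intro j _
    rw [pderiv_C_mul, pderiv_none_io, mul_zero]
  have hds : ∀ i m, pderiv (some m) (E i) =
      (∑ j : Fin (n + 1), C (yL j) * io L (pderiv m (Dop k i (Γ j.castSucc)))) +
        X none * io L (pderiv m (Dop k i (Γ (Fin.last (n + 1))))) := by
    intro i m
    change pderiv (some m) ((∑ j : Fin (n + 1), C (yL j) * io L (Dop k i (Γ j.castSucc))) +
      X none * io L (Dop k i (Γ (Fin.last (n + 1))))) = _
    rw [map_add, map_sum, pderiv_mul, pderiv_X_of_ne (by simp), zero_mul, zero_add, pderiv_some_io]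
    congr 1
    refine Finset.sum_congr rfl fun j _ => ?_
    rw [pderiv_C_mul, pderiv_some_io]
  refine ub (q := k - 1) E pt ?_ hE0 ?_ (surj al hfrac L pt fun l => rfl)
  · intro i
    refine Bd.add (Bd.sum _ fun j _ => ?_) ?_
    · exact ((Bd.C (yL j)).mul (io_Bd L (Dop_deg (hΓ _) i))).mono (by omega) (by omega)
    · exact (Bd.X.mul (io_Bd L (Dop_deg (hΓ _) i))).mono (by omega) (by omega)
  · intro v hv
    have hder : ∀ δ : Derivation ℂ K K, (∀ j, δ (Y j) = 0) → δ = 0 := by
      intro δ hδ
      refine W602.GT.der_eq_zero δ (Set.range (yy x p)) (inferInstanceAs (Algebra.IsAlgebraic (LL x p) K)) ?_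
      rintro _ ⟨j, rfl⟩
      rw [← hYc j]
      exact hδ _
    have h1 := nd (k := k) al hal hb Γ Y hY0 hr0 hr1 hlast hk hind hder (v none)
      (fun l => v (some l)) (fun i => by
        have h2 := hv i
        rw [Fintype.sum_option, hdn, hio] at h2
        rw [← h2]
        congr 1
        refine Finset.sum_congr rfl fun m _ => ?_
        rw [hds, hsum (fun j => pderiv m (Dop k i (Γ j)))])
    funext i
    cases i with
    | none => exact h1.1
    | some l => exact congrFun h1.2 l

end

end Pool.Agent.TH314.PD
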