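import Mathlib
import Pool.Agent.TH314.PD.Upper
import Pool.Agent.TH314.PD.Alg

/-!
# Maps given by forms of degree `k` onto a smooth hypersurface: the inequality
-/

set_option autoImplicit false

namespace Pool.Agent.TH314.PD

open MvPolynomial

noncomputable section

/-- the chain rule -/
theorem chain_rule {τ : Type} [Fintype τ] [DecidableEq τ] {A : Type} [CommRing A] [Algebra ℂ A]
    (δ : Derivation ℂ A A) (G : τ → A) (F : MvPolynomial τ ℂ) :
    δ (aeval G F) = ∑ i, aeval G (pderiv i F) * δ (G i) := by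
  induction F using MvPolynomial.induction_on with
  | C a =>
    rw [aeval_C, Derivation.map_algebraMap]
    symm
    refine Finset.sum_eq_zero fun i _ => ?_
    rw [pderiv_C, map_zero, zero_mul]
  | add p q hp hq =>
    rw [map_add, map_add, hp, hq, ← Finset.sum_add_distrib]
    refine Finset.sum_congr rfl fun i _ => ?_
    rw [map_add, map_add, add_mul]
  | mul_X p j hp =>
    rw [map_mul, aeval_X, Derivation.leibniz, hp, smul_eq_mul, smul_eq_mul]
    have h1 : ∀ i, aeval G (pderiv i (p * X j)) * δ (G i) =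
        G j * (aeval G (pderiv i p) * δ (G i)) + (if i = j then aeval G p * δ (G j) else 0) := by
      intro i
      rw [pderiv_mul, map_add, map_mul, map_mul, aeval_X]
      by_cases hij : i = j
      · subst hij
        rw [pderiv_X_self, map_one, if_pos rfl]
        ring
      · rw [pderiv_X_of_ne (Ne.symm hij), map_zero, if_neg hij]
        ring
    rw [Finset.sum_congr rfl (fun i _ => h1 i), Finset.sum_add_distrib, ← Finset.mul_sum,
      Finset.sum_ite_eq' Finset.univ j]
    simp only [Finset.mem_univ, if_true]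
    ring

/-- an invertible matrix with given nonzero last column -/
theorem exists_matrix {m : ℕ} (c : Fin (m + 1) → ℂ) (hc : c ≠ 0) :
    ∃ R Q : Matrix (Fin (m + 1)) (Fin (m + 1)) ℂ, R * Q = 1 ∧ Q * R = 1 ∧
      ∀ i, R i (Fin.last m) = c i := by
  have h1 : (Pi.single (Fin.last m) 1 : Fin (m + 1) → ℂ) ≠ 0 := by
    intro h
    have := congrFun h (Fin.last m)
    rw [Pi.single_eq_same] at this
    exact one_ne_zero this
  obtain ⟨A, hA⟩ := SeparatingDual.exists_continuousLinearEquiv_apply_eq (R := ℂ) h1 hc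
  let B := A.toLinearEquiv
  refine ⟨LinearMap.toMatrix' B.toLinearMap, LinearMap.toMatrix' B.symm.toLinearMap, ?_, ?_, ?_⟩
  · rw [← LinearMap.toMatrix'_comp, LinearEquiv.comp_coe, LinearEquiv.symm_trans_self,
      LinearEquiv.refl_toLinearMap, LinearMap.toMatrix'_id]
  · rw [← LinearMap.toMatrix'_comp, LinearEquiv.comp_coe, LinearEquiv.self_trans_symm,
      LinearEquiv.refl_toLinearMap, LinearMap.toMatrix'_id]
  · intro i
    rw [LinearMap.toMatrix'_apply]
    exact congrFun hA i

/-- the field generated by the ratios of the coordinates -/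
def ratioField {K : Type} [Field K] [Algebra ℂ K] {m : ℕ} (x : Fin m → K) : IntermediateField ℂ K :=
  IntermediateField.adjoin ℂ {z | ∃ i j, z = x i / x j}

theorem ratio_mem {K : Type} [Field K] [Algebra ℂ K] {m : ℕ} (x : Fin m → K)
    (hx : ∃ b, x b ≠ 0) {H H' : MvPolynomial (Fin m) ℂ} {e : ℕ} (hH : H.IsHomogeneous e)
    (hH' : H'.IsHomogeneous e) : aeval x H / aeval x H' ∈ ratioField x := by
  obtain ⟨b, hb⟩ := hx
  have h1 : ∀ A : MvPolynomial (Fin m) ℂ, aeval (fun i => x i / x b) A ∈ ratioField x := by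
    intro A
    induction A using MvPolynomial.induction_on with
    | C a =>
      rw [aeval_C]
      exact (ratioField x).algebraMap_mem a
    | add f g hf hg =>
      rw [map_add]
      exact add_mem hf hg
    | mul_X f i hf =>
      rw [map_mul, aeval_X]
      exact mul_mem hf (IntermediateField.subset_adjoin _ _ ⟨i, b, rfl⟩)
  have h2 : x = fun i => x b * (x i / x b) := by
    funext i
    field_simp
  have h3 : ∀ A : MvPolynomial (Fin m) ℂ, A.IsHomogeneous e →
      aeval x A = x b ^ e * aeval (fun i => x i / x b) A := by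
    intro A hA
    conv_lhs => rw [h2]
    exact aeval_smul_form hA _ _
  rw [h3 H hH, h3 H' hH', mul_div_mul_left _ _ (pow_ne_zero _ hb)]
  exact div_mem (h1 H) (h1 H')

/-- the numerical step -/
theorem degree_le {n d k m : ℕ} (hd : 2 ≤ d) (hm : 1 ≤ m)
    (h : m * (d * (d - 1) ^ n) ≤ (n + 1) * (k - 1) ^ n) : d ≤ k := by
  by_contra hk
  obtain ⟨a, rfl⟩ := Nat.exists_eq_add_of_le' hd
  have h1 : (a + 2) * (a + 1) ^ n ≤ (n + 1) * a ^ n := by
    calc (a + 2) * (a + 1) ^ n ≤ m * ((a + 2) * (a + 1) ^ n) := Nat.le_mul_of_pos_left _ hm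
      _ ≤ (n + 1) * (k - 1) ^ n := h
      _ ≤ (n + 1) * a ^ n := Nat.mul_le_mul_left _ (Nat.pow_le_pow_left (by omega) _)
  have h2 : ∀ m : ℕ, a ^ m * (a + m) ≤ a * (a + 1) ^ m := by
    intro m
    induction m with
    | zero => simp
    | succ m ih =>
      calc a ^ (m + 1) * (a + (m + 1)) = a ^ m * (a * (a + m + 1)) := by ring
        _ ≤ a ^ m * ((a + m) * (a + 1)) := Nat.mul_le_mul_left _ (by nlinarith)
        _ = (a ^ m * (a + m)) * (a + 1) := by ring
        _ ≤ (a * (a + 1) ^ m) * (a + 1) := Nat.mul_le_mul_right _ ih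
        _ = a * (a + 1) ^ (m + 1) := by ring
  rcases Nat.eq_zero_or_pos a with ha | ha
  · subst ha
    cases n with
    | zero => simp at h1
    | succ n => simp at h1
  · have h3 := h2 n
    have h4 : 0 < a ^ n := Nat.pow_pos ha
    have h5 : (a + 2) * (a ^ n * (a + n)) ≤ a * ((n + 1) * a ^ n) := by
      calc (a + 2) * (a ^ n * (a + n)) ≤ (a + 2) * (a * (a + 1) ^ n) := Nat.mul_le_mul_left _ h3
        _ = a * ((a + 2) * (a + 1) ^ n) := by ring
        _ ≤ a * ((n + 1) * a ^ n) := Nat.mul_le_mul_left _ h1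
    have h6 : a ^ n * ((a + 2) * (a + n)) ≤ a ^ n * (a * (n + 1)) := by nlinarith
    have h7 := Nat.le_of_mul_le_mul_left h6 h4
    nlinarith

end

end Pool.Agent.TH314.PD
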