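import Mathlib
import Pool.Agent.TH314.PD.Core

/-!
# Smooth hypersurfaces: properties of the gradient
-/

set_option autoImplicit false

namespace Pool.Agent.TH314.PD

open MvPolynomial

noncomputable section

/-- partial derivatives commute -/
theorem pderiv_comm' {τ : Type} (i j : τ) (f : MvPolynomial τ ℂ) :
    pderiv i (pderiv j f) = pderiv j (pderiv i f) := by
  classical
  have h : ⁅(pderiv i : Derivation ℂ (MvPolynomial τ ℂ) (MvPolynomial τ ℂ)),
      (pderiv j : Derivation ℂ (MvPolynomial τ ℂ) (MvPolynomial τ ℂ))⁆ = 0 := by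
    apply MvPolynomial.derivation_ext
    intro l
    rw [Derivation.commutator_apply, Derivation.zero_apply]
    have h1 : ∀ (a b : τ), pderiv a (pderiv b (X l : MvPolynomial τ ℂ)) = 0 := by
      intro a b
      rcases eq_or_ne l b with h | h
      · subst h
        rw [pderiv_X_self, pderiv_one]
      · rw [pderiv_X_of_ne h, map_zero]
    rw [h1, h1, sub_zero]
  have h2 := congrArg (fun D : Derivation ℂ (MvPolynomial τ ℂ) (MvPolynomial τ ℂ) => D f) h
  simp only [Derivation.commutator_apply, Derivation.zero_apply] at h2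
  exact sub_eq_zero.1 h2

/-- a form of degree smaller than `d` divisible by a form of degree `d` vanishes -/
theorem eq_zero_of_dvd {m d e : ℕ} {F H : MvPolynomial (Fin m) ℂ} (hF : F.IsHomogeneous d)
    (hF0 : F ≠ 0) (hH : H.IsHomogeneous e) (he : e < d) (h : F ∣ H) : H = 0 := by
  by_contra hH0
  obtain ⟨B, hB⟩ := h
  have hB0 : B ≠ 0 := by
    rintro rfl
    exact hH0 (by rw [hB, mul_zero])
  have h1 := totalDegree_mul_of_isDomain hF0 hB0
  rw [← hB, hH.totalDegree hH0, hF.totalDegree hF0] at h1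
  omega

/-- linear combinations of forms -/
theorem hom_comb {m e : ℕ} {τ : Type} [Fintype τ] (q : τ → ℂ) {f : τ → MvPolynomial (Fin m) ℂ}
    (hf : ∀ i, (f i).IsHomogeneous e) : (∑ i, C (q i) * f i).IsHomogeneous e :=
  IsHomogeneous.sum _ _ _ fun i _ => (hf i).C_mul _

theorem ne_zero_of_smooth {m : ℕ} {F : MvPolynomial (Fin (m + 1)) ℂ}
    (hsm : ∀ z : Fin (m + 1) → ℂ, (∀ i, eval z (pderiv i F) = 0) → z = 0) : F ≠ 0 := by
  rintro rfl
  have := hsm 1 (fun i => by rw [map_zero, map_zero])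
  exact one_ne_zero this

/-- the partial derivatives of a smooth form are linearly independent -/
theorem comb_ne_zero {m d : ℕ} (hd : 2 ≤ d) {F : MvPolynomial (Fin (m + 1)) ℂ}
    (hF : F.IsHomogeneous d)
    (hsm : ∀ z : Fin (m + 1) → ℂ, (∀ i, eval z (pderiv i F) = 0) → z = 0)
    (q : Fin (m + 1) → ℂ) (hq : q ≠ 0) : ∑ i, C (q i) * pderiv i F ≠ 0 := by
  intro h
  apply hq
  apply hsm
  intro l
  have h1 : (pderiv l F).IsHomogeneous (d - 1) := hF.pderiv
  have h2 := congrArg (eval q) h1.sum_X_mul_pderiv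
  have h3 := congrArg (fun f => eval q (pderiv l f)) h
  simp only [map_sum, map_zero, pderiv_C_mul, map_mul, eval_C] at h3
  rw [map_sum] at h2
  have h4 : ∑ i, eval q (X i * pderiv i (pderiv l F)) =
      ∑ i, q i * eval q (pderiv l (pderiv i F)) := by
    refine Finset.sum_congr rfl fun i _ => ?_
    rw [map_mul, eval_X, pderiv_comm' i l]
  rw [h4, h3, nsmul_eq_mul, map_mul, map_natCast] at h2
  have h5 : ((d - 1 : ℕ) : ℂ) ≠ 0 := Nat.cast_ne_zero.2 (by omega)
  rcases mul_eq_zero.1 h2.symm with h6 | h6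
  · exact absurd h6 h5
  · exact h6

/-- a change of coordinates in a bilinear sum -/
theorem bilin {m : ℕ} {A : Type} [CommRing A] [Algebra ℂ A] (R Q : Matrix (Fin m) (Fin m) ℂ)
    (hRQ : R * Q = 1) (ξ g : Fin m → A) :
    ∑ j, (∑ i, algebraMap ℂ A (Q j i) * ξ i) * (∑ l, algebraMap ℂ A (R l j) * g l) =
      ∑ i, ξ i * g i := by
  have h1 : ∀ j, (∑ i, algebraMap ℂ A (Q j i) * ξ i) * (∑ l, algebraMap ℂ A (R l j) * g l) =
      ∑ i, ∑ l, algebraMap ℂ A (R l j * Q j i) * (ξ i * g l) := by
    intro j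
    rw [Finset.sum_mul_sum]
    refine Finset.sum_congr rfl fun i _ => Finset.sum_congr rfl fun l _ => ?_
    rw [map_mul]
    ring
  rw [Finset.sum_congr rfl fun j _ => h1 j, Finset.sum_comm]
  refine Finset.sum_congr rfl fun i _ => ?_
  rw [Finset.sum_comm]
  have h2 : ∀ l, ∑ j, algebraMap ℂ A (R l j * Q j i) * (ξ i * g l) =
      if l = i then ξ i * g l else 0 := by
    intro l
    rw [← Finset.sum_mul, ← map_sum]
    have h3 : ∑ j, R l j * Q j i = (R * Q) l i := by rw [Matrix.mul_apply]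
    rw [h3, hRQ, Matrix.one_apply]
    split_ifs with h
    · rw [map_one, one_mul]
    · rw [map_zero, zero_mul]
  rw [Finset.sum_congr rfl fun l _ => h2 l, Finset.sum_ite_eq' Finset.univ i]
  simp

/-- inversion of a change of coordinates -/
theorem invert {m : ℕ} {A : Type} [CommRing A] [Algebra ℂ A] (R Q : Matrix (Fin m) (Fin m) ℂ)
    (hRQ : R * Q = 1) (g : Fin m → A) (i : Fin m) :
    ∑ j, algebraMap ℂ A (Q j i) * (∑ l, algebraMap ℂ A (R l j) * g l) = g i := by
  have h := bilin R Q hRQ (Pi.single i (1 : A)) g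
  have h1 : ∀ j, ∑ i', algebraMap ℂ A (Q j i') * (Pi.single i (1 : A) : Fin m → A) i' =
      algebraMap ℂ A (Q j i) := by
    intro j
    rw [Finset.sum_eq_single i]
    · rw [Pi.single_eq_same, mul_one]
    · intro b _ hb
      rw [Pi.single_eq_of_ne hb, mul_zero]
    · intro h
      exact absurd (Finset.mem_univ _) h
  rw [Finset.sum_congr rfl fun j _ => by rw [h1 j]] at h
  rw [h, Finset.sum_eq_single i]
  · rw [Pi.single_eq_same, one_mul]
  · intro b _ hb
    rw [Pi.single_eq_of_ne hb, zero_mul]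
  · intro h
    exact absurd (Finset.mem_univ _) h

end

end Pool.Agent.TH314.PD
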