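import Mathlib
import Pool.Agent.TH314.PD.Core2

/-!
# Dominance from algebraic independence of the coordinates
-/

set_option autoImplicit false

namespace Pool.Agent.TH314.PD

open MvPolynomial

noncomputable section

/-- numbers of monomials: first differences are bounded -/
theorem choose_step (n M e : ℕ) :
    (M + e + n + 1).choose (n + 1) ≤ (M + n + 1).choose (n + 1) + e * (M + e + n).choose n := by
  induction e with
  | zero => simp
  | succ e ih =>
    have h1 : (M + (e + 1) + n + 1).choose (n + 1) =
        (M + (e + 1) + n).choose n + (M + e + n + 1).choose (n + 1) := by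
      have h2 : M + (e + 1) + n = M + e + n + 1 := by ring
      rw [h2, Nat.choose_succ_succ]
    have h3 : (M + e + n).choose n ≤ (M + (e + 1) + n).choose n :=
      Nat.choose_le_choose _ (by omega)
    have h4 : e * (M + e + n).choose n ≤ e * (M + (e + 1) + n).choose n :=
      Nat.mul_le_mul_left _ h3
    rw [h1, Nat.succ_mul]
    omega

/-- the telescoped form of the counting inequality -/
theorem tele (n L d e : ℕ) :
    (L + d + e + (n + 1)).choose (n + 1) + (L + (n + 1)).choose (n + 1) ≤
      (L + e + (n + 1)).choose (n + 1) + (L + d + (n + 1)).choose (n + 1) +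
        ∑ i ∈ Finset.range d, ((L + e + (i + 1) + n).choose n - (L + (i + 1) + n).choose n) := by
  induction d with
  | zero => simp
  | succ d ih =>
    rw [Finset.sum_range_succ]
    have h1 : (L + (d + 1) + e + (n + 1)).choose (n + 1) =
        (L + e + (d + 1) + n).choose n + (L + d + e + (n + 1)).choose (n + 1) := by
      have h2 : L + (d + 1) + e + (n + 1) = (L + e + (d + 1) + n) + 1 := by ring
      have h3 : L + d + e + (n + 1) = L + e + (d + 1) + n := by ring
      rw [h2, Nat.choose_succ_succ, h3]
    have h4 : (L + (d + 1) + (n + 1)).choose (n + 1) =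
        (L + (d + 1) + n).choose n + (L + d + (n + 1)).choose (n + 1) := by
      have h2 : L + (d + 1) + (n + 1) = (L + (d + 1) + n) + 1 := by ring
      have h3 : L + d + (n + 1) = L + (d + 1) + n := by ring
      rw [h2, Nat.choose_succ_succ, h3]
    have h5 : (L + (d + 1) + n).choose n ≤ (L + e + (d + 1) + n).choose n :=
      Nat.choose_le_choose _ (by omega)
    omega

/-- the counting inequality fails for large `L` -/
theorem count_fails (n d e : ℕ) (hd : 1 ≤ d) :
    ∃ L, (L + d + e + (n + 1)).choose (n + 1) + (L + (n + 1)).choose (n + 1) <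
      (L + e + (n + 1)).choose (n + 1) + (L + d + (n + 1)).choose (n + 1) +
        (L + d + e + n).choose n := by
  cases n with
  | zero =>
    refine ⟨0, ?_⟩
    simp
    omega
  | succ n =>
    refine ⟨(n + 1) * (d * e), ?_⟩
    set L := (n + 1) * (d * e) with hL
    have h1 := tele (n + 1) L d e
    have h2 : ∑ i ∈ Finset.range d, ((L + e + (i + 1) + (n + 1)).choose (n + 1) -
        (L + (i + 1) + (n + 1)).choose (n + 1)) ≤ d * (e * (L + d + e + n).choose n) := by
      have h3 : ∀ i ∈ Finset.range d, ((L + e + (i + 1) + (n + 1)).choose (n + 1) -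
          (L + (i + 1) + (n + 1)).choose (n + 1)) ≤ e * (L + d + e + n).choose n := by
        intro i hi
        rw [Finset.mem_range] at hi
        have h4 := choose_step n (L + (i + 1)) e
        have h5 : L + (i + 1) + e + n + 1 = L + e + (i + 1) + (n + 1) := by ring
        have h6 : L + (i + 1) + n + 1 = L + (i + 1) + (n + 1) := by ring
        rw [h5, h6] at h4
        have h7 : (L + (i + 1) + e + n).choose n ≤ (L + d + e + n).choose n :=
          Nat.choose_le_choose _ (by omega)
        have h8 : e * (L + (i + 1) + e + n).choose n ≤ e * (L + d + e + n).choose n :=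
          Nat.mul_le_mul_left _ h7
        omega
      calc _ ≤ ∑ i ∈ Finset.range d, e * (L + d + e + n).choose n := Finset.sum_le_sum h3
        _ = d * (e * (L + d + e + n).choose n) := by
          rw [Finset.sum_const, Finset.card_range, smul_eq_mul]
    have h9 : d * (e * (L + d + e + n).choose n) < (L + d + e + (n + 1)).choose (n + 1) := by
      have h10 : (L + d + e + (n + 1)).choose (n + 1) * (n + 1) =
          (L + d + e + (n + 1)) * (L + d + e + n).choose n := by
        have := Nat.add_one_mul_choose_eq (L + d + e + n) n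
        rw [show L + d + e + (n + 1) = L + d + e + n + 1 by ring]
        exact this.symm
      have h11 : 0 < (L + d + e + n).choose n := Nat.choose_pos (by omega)
      have h12 : (n + 1) * (d * (e * (L + d + e + n).choose n)) <
          (L + d + e + (n + 1)).choose (n + 1) * (n + 1) := by
        rw [h10]
        calc (n + 1) * (d * (e * (L + d + e + n).choose n)) = L * (L + d + e + n).choose n := by
              rw [hL]; ring
          _ < (L + d + e + (n + 1)) * (L + d + e + n).choose n :=
              Nat.mul_lt_mul_of_pos_right (by omega) h11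
      rw [mul_comm] at h12
      exact Nat.lt_of_mul_lt_mul_right h12
    omega

variable {n d : ℕ} {R : Type} [CommRing R] [Algebra ℂ R]

/-- **Dominance from independence.** -/
theorem dom_of_indep {F : MvPolynomial (Fin (n + 2)) ℂ} (hF : F.IsHomogeneous d) (hd : 1 ≤ d)
    (hF0 : F ≠ 0)
    (hprime : ∀ (a b : ℕ) (A B : MvPolynomial (Fin (n + 2)) ℂ), A.IsHomogeneous a →
      B.IsHomogeneous b → F ∣ A * B → F ∣ A ∨ F ∣ B)
    (φ : MvPolynomial (Fin (n + 2)) ℂ →ₐ[ℂ] R) (ζ : Fin (n + 1) → Fin (n + 2)) (hφF : φ F = 0)
    (hind : ∀ (l : ℕ) (A : MvPolynomial (Fin (n + 1)) ℂ), A.IsHomogeneous l →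
      φ (rename ζ A) = 0 → A = 0)
    {e : ℕ} {H : MvPolynomial (Fin (n + 2)) ℂ} (hH : H.IsHomogeneous e) (hφH : φ H = 0) :
    F ∣ H := by
  by_contra hFH
  obtain ⟨L, hL⟩ := count_fails n d e hd
  have hH0 : H ≠ 0 := by
    rintro rfl
    exact hFH (dvd_zero _)
  set M := L + d + e with hM
  let S : ℕ → Submodule ℂ (MvPolynomial (Fin (n + 2)) ℂ) := fun i =>
    homogeneousSubmodule (Fin (n + 2)) ℂ i
  let S' : Submodule ℂ (MvPolynomial (Fin (n + 1)) ℂ) := homogeneousSubmodule (Fin (n + 1)) ℂ M
  have hfS : ∀ i, Module.Finite ℂ (S i) := fun i => (finrank_hom (n + 1) i).1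
  have hS : ∀ i, Module.finrank ℂ (S i) = (i + (n + 1)).choose (n + 1) := fun i =>
    (finrank_hom (n + 1) i).2
  have hfS' : Module.Finite ℂ S' := (finrank_hom n M).1
  have hS' : Module.finrank ℂ S' = (M + n).choose n := (finrank_hom n M).2
  let T : (S (L + e) × S (L + d)) × S' →ₗ[ℂ] MvPolynomial (Fin (n + 2)) ℂ :=
    ((LinearMap.mulLeft ℂ F).comp (S (L + e)).subtype).coprod
      ((LinearMap.mulLeft ℂ H).comp (S (L + d)).subtype) |>.coprod
        ((rename ζ).toLinearMap.comp S'.subtype)
  have hT : ∀ (A : S (L + e)) (B : S (L + d)) (C : S'), T ((A, B), C) =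
      F * A + H * B + rename ζ (C : MvPolynomial (Fin (n + 1)) ℂ) := fun A B C => rfl
  have hrange : LinearMap.range T ≤ S M := by
    rintro _ ⟨⟨⟨A, B⟩, C⟩, rfl⟩
    rw [hT]
    refine add_mem (add_mem ?_ ?_) ?_
    · have := hF.mul A.2
      rw [show d + (L + e) = M by omega] at this
      exact this
    · have := hH.mul B.2
      rw [show e + (L + d) = M by omega] at this
      exact this
    · exact IsHomogeneous.rename_isHomogeneous C.2
  have hfr1 : Module.finrank ℂ (LinearMap.range T) ≤ (M + (n + 1)).choose (n + 1) := by
    rw [← hS M]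
    exact Submodule.finrank_mono hrange
  -- the kernel
  let U : S L →ₗ[ℂ] (S (L + e) × S (L + d)) × S' :=
    LinearMap.prod (LinearMap.prod
      (((LinearMap.mulLeft ℂ (-H)).comp (S L).subtype).codRestrict (S (L + e)) (fun A => by
        have := (hH.neg).mul A.2
        rw [show e + L = L + e by omega] at this
        exact this))
      (((LinearMap.mulLeft ℂ F).comp (S L).subtype).codRestrict (S (L + d)) (fun A => by
        have := hF.mul A.2
        rw [show d + L = L + d by omega] at this
        exact this))) 0
  have hker : LinearMap.ker T ≤ LinearMap.range U := by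
    rintro ⟨⟨A, B⟩, C⟩ hABC
    rw [LinearMap.mem_ker, hT] at hABC
    have h1 : φ (rename ζ (C : MvPolynomial (Fin (n + 1)) ℂ)) = 0 := by
      have := congrArg φ hABC
      rw [map_add, map_add, map_mul, map_mul, hφF, hφH, zero_mul, zero_mul, zero_add, zero_add,
        map_zero] at this
      exact this
    have h2 : (C : MvPolynomial (Fin (n + 1)) ℂ) = 0 := hind M _ C.2 h1
    rw [h2, map_zero, add_zero] at hABC
    have h3 : F ∣ H * (B : MvPolynomial (Fin (n + 2)) ℂ) := by
      refine ⟨-A, ?_⟩
      rw [mul_neg]
      exact eq_neg_of_add_eq_zero_right hABC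
    rcases hprime e (L + d) H B hH B.2 h3 with h | h
    · exact absurd h hFH
    · obtain ⟨B', hB'⟩ := h
      -- `B'` can be taken homogeneous of degree `L`
      have hB'' : (B : MvPolynomial (Fin (n + 2)) ℂ) = F * homogeneousComponent L B' := by
        have h4 := hc_mul B' F hF (e := L + d) (by omega)
        have h5 : homogeneousComponent (L + d) (B : MvPolynomial (Fin (n + 2)) ℂ) = B := by
          rw [homogeneousComponent_of_mem B.2, if_pos rfl]
        rw [← h5]
        conv_lhs => rw [hB', mul_comm]
        rw [h4, mul_comm, Nat.add_sub_cancel]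
      refine ⟨⟨homogeneousComponent L B', homogeneousComponent_isHomogeneous _ _⟩, ?_⟩
      refine Prod.ext (Prod.ext (Subtype.ext ?_) (Subtype.ext ?_)) (Subtype.ext ?_)
      · change -H * homogeneousComponent L B' = A
        rw [hB''] at hABC
        have h6 : F * (A + H * homogeneousComponent L B') = 0 := by
          linear_combination hABC
        rcases mul_eq_zero.1 h6 with h | h
        · exact absurd h hF0
        · linear_combination -h
      · change F * homogeneousComponent L B' = B
        exact hB''.symm
      · exact h2.symm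
  have hfr2 : Module.finrank ℂ (LinearMap.ker T) ≤ (L + (n + 1)).choose (n + 1) := by
    rw [← hS L]
    exact (Submodule.finrank_mono hker).trans (LinearMap.finrank_range_le U)
  have hfr := LinearMap.finrank_range_add_finrank_ker T
  rw [Module.finrank_prod, Module.finrank_prod, hS, hS, hS'] at hfr
  omega

end

end Pool.Agent.TH314.PD
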