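import Mathlib
import Pool.Agent.TH314.PD.Restr

/-!
# Restriction of a dominant map to an affine-linear subspace of the parameters
-/

set_option autoImplicit false

namespace Pool.Agent.TH314.PD

open MvPolynomial

noncomputable section

variable {n N d k : ℕ} {K : Type} [Field K] [Algebra ℂ K]

theorem aeval_al (al : MvPolynomial (Fin N) ℂ →ₐ[ℂ] K) (g : MvPolynomial (Fin N) ℂ) :
    aeval (fun l => al (X l)) g = al g := by
  have : (aeval (fun l => al (X l)) : MvPolynomial (Fin N) ℂ →ₐ[ℂ] K) = al := by
    apply MvPolynomial.algHom_ext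
    intro l
    rw [aeval_X]
  rw [this]

/-- derivations on polynomials -/
theorem der_al (al : MvPolynomial (Fin N) ℂ →ₐ[ℂ] K) (δ : Derivation ℂ K K)
    (g : MvPolynomial (Fin N) ℂ) :
    δ (al g) = ∑ l, al (pderiv l g) * δ (al (X l)) := by
  have h := chain_rule δ (fun l => al (X l)) g
  simp only [aeval_al] at h
  exact h

/-- derivations dual to an algebraically independent family -/
theorem exists_dual [CharZero K] (u : Fin n → K) (hu : AlgebraicIndependent ℂ u) :
    ∃ δ : Fin n → Derivation ℂ K K, ∀ i j, δ i (u j) = if j = i then 1 else 0 := by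
  classical
  obtain ⟨t, hst, ht⟩ := exists_isTranscendenceBasis_superset (R := ℂ) hu.coe_range
  have h : ∀ i : Fin n, ∃ D : Derivation ℂ K K, ∀ b : t, D (b : K) = if (b : K) = u i then 1 else 0 :=
    fun i => W602.GT.exists_der (fun b : t => (b : K)) ht fun b => if (b : K) = u i then 1 else 0
  choose δ hδ using h
  refine ⟨δ, fun i j => ?_⟩
  have h1 := hδ i ⟨u j, hst ⟨j, rfl⟩⟩
  rw [h1]
  have h2 : (u j = u i) ↔ j = i := ⟨fun h => hu.injective h, fun h => by rw [h]⟩
  simp only [h2]

/-- the coordinates of a dominant map: independence of the ratios -/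
theorem exists_indep' {x : Fin (n + 2) → K} {F : MvPolynomial (Fin (n + 2)) ℂ}
    (hF : F.IsHomogeneous d) (hd : 1 ≤ d) (hF0 : F ≠ 0)
    (hker : ∀ e (H : MvPolynomial (Fin (n + 2)) ℂ), H.IsHomogeneous e → aeval x H = 0 → F ∣ H) :
    ∃ j : Fin (n + 2), x (j.succAbove 0) ≠ 0 ∧
      AlgebraicIndependent ℂ (fun l : Fin n => x (j.succAbove l.succ) / x (j.succAbove 0)) := by
  obtain ⟨α, hα⟩ := ne_zero_iff.1 hF0
  have hdeg : α.degree = d := by
    by_contra h
    exact hα (hF.coeff_eq_zero h)
  obtain ⟨j, hj⟩ : ∃ j, α j ≠ 0 := by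
    by_contra h
    push Not at h
    have : α = 0 := Finsupp.ext h
    rw [this, map_zero] at hdeg
    omega
  have hjF : degreeOf j F ≠ 0 := by
    have h1 := monomial_le_degreeOf j (mem_support_iff.2 hα)
    omega
  have hno : ∀ q : MvPolynomial (Fin (n + 1)) ℂ, F ∣ rename j.succAbove q → q = 0 := by
    intro q hq
    by_contra hq0
    obtain ⟨B, hB⟩ := hq
    have h1 : rename j.succAbove q ≠ 0 := by
      intro h
      exact hq0 (rename_injective _ Fin.succAbove_right_injective (by rw [h, map_zero]))
    have hB0 : B ≠ 0 := by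
      rintro rfl
      rw [mul_zero] at hB
      exact h1 hB
    have h2 : degreeOf j (rename j.succAbove q) ≠ 0 := by
      rw [hB, degreeOf_mul_eq hF0 hB0]
      omega
    rw [← mem_vars_iff_degreeOf_ne_zero] at h2
    obtain ⟨i, _, hi⟩ := mem_vars_rename _ _ h2
    exact Fin.succAbove_ne j i hi
  set z : Fin (n + 1) → K := fun i => x (j.succAbove i) with hz
  have haev : ∀ q : MvPolynomial (Fin (n + 1)) ℂ, aeval x (rename j.succAbove q) = aeval z q := by
    intro q
    rw [aeval_rename]
    rfl
  have hz0 : z 0 ≠ 0 := by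
    intro h
    have h1 := hker 1 (rename j.succAbove (X 0)) (by
      rw [rename_X]
      exact isHomogeneous_X _ _) (by rw [haev, aeval_X, h])
    exact X_ne_zero _ (hno _ h1)
  refine ⟨j, hz0, ?_⟩
  rw [algebraicIndependent_iff]
  intro A hA
  obtain ⟨A', hA'h, hA'⟩ := homogenize A
  have h1 : aeval z A' = 0 := by
    have h2 : z = fun i => z 0 * (Fin.cons 1 (fun l : Fin n => z l.succ / z 0) : Fin (n + 1) → K) i := by
      funext i
      refine Fin.cases ?_ (fun l => ?_) i
      · rw [Fin.cons_zero, mul_one]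
      · rw [Fin.cons_succ]
        field_simp
    rw [h2, aeval_smul_form hA'h, hA', hA, mul_zero]
  have h2 : A' = 0 := hno A' (hker _ _ (IsHomogeneous.rename_isHomogeneous hA'h)
    (by rw [haev, h1]))
  have h3 := hA' (X : Fin n → MvPolynomial (Fin n) ℂ)
  rw [h2, map_zero, aeval_X_left_apply] at h3
  exact h3.symm

/-- the matrix of values and first derivatives -/
def ZZ (z : Fin (n + 1) → MvPolynomial (Fin n) ℂ) :
    Matrix (Fin (n + 1)) (Fin (n + 1)) (MvPolynomial (Fin n) ℂ) :=
  fun i r => Fin.cases (z i) (fun s => pderiv s (z i)) r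

/-- no homogeneous relation if the matrix is nonsingular -/
theorem no_relation (z : Fin (n + 1) → MvPolynomial (Fin n) ℂ) (hdet : (ZZ z).det ≠ 0) :
    ∀ (l : ℕ) (A : MvPolynomial (Fin (n + 1)) ℂ), A.IsHomogeneous l → aeval z A = 0 → A = 0 := by
  intro l
  induction l with
  | zero =>
    intro A hA h
    rw [← totalDegree_zero_iff_isHomogeneous, totalDegree_eq_zero_iff_eq_C] at hA
    rw [hA, aeval_C, algebraMap_eq, C_eq_zero] at h
    rw [hA, h, C_0]
  | succ l ih =>
    intro A hA h
    have hv : (fun i => aeval z (pderiv i A)) = 0 := by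
      refine Matrix.eq_zero_of_vecMul_eq_zero hdet ?_
      funext r
      change ∑ i, aeval z (pderiv i A) * ZZ z i r = 0
      refine Fin.cases ?_ (fun s => ?_) r
      · change ∑ i, aeval z (pderiv i A) * z i = 0
        have h1 := congrArg (aeval z) hA.sum_X_mul_pderiv
        rw [map_sum, nsmul_eq_mul, map_mul, h, mul_zero] at h1
        rw [← h1]
        refine Finset.sum_congr rfl fun i _ => ?_
        rw [map_mul, aeval_X, mul_comm]
      · change ∑ i, aeval z (pderiv i A) * pderiv s (z i) = 0
        rw [← chain_rule (pderiv s) z A, h, map_zero]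
    have h2 : ∀ i, pderiv i A = 0 := by
      intro i
      refine ih _ ?_ (congrFun hv i)
      have := hA.pderiv (i := i)
      rwa [Nat.add_sub_cancel] at this
    have h3 := hA.sum_X_mul_pderiv
    rw [Finset.sum_eq_zero fun i _ => by rw [h2 i, mul_zero], nsmul_eq_mul] at h3
    rcases mul_eq_zero.1 h3.symm with h4 | h4
    · exact absurd h4 (Nat.cast_ne_zero.2 (by omega))
    · exact h4

/-- the substitution -/
def sub (c : Fin N → ℂ) (A : Fin N → Fin n → ℂ) : Fin N → MvPolynomial (Fin n) ℂ :=
  fun l => C (c l) + ∑ s, C (A l s) * X s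

theorem sub_deg (c : Fin N → ℂ) (A : Fin N → Fin n → ℂ) (l : Fin N) :
    (sub c A l).totalDegree ≤ 1 := by
  unfold sub
  refine (totalDegree_add _ _).trans (max_le ?_ ?_)
  · rw [totalDegree_C]
    exact zero_le_one
  · refine totalDegree_finsetSum_le fun i _ => ?_
    refine (totalDegree_mul _ _).trans ?_
    rw [totalDegree_C, totalDegree_X]

/-- substitution does not increase the degree -/
theorem aeval_sub_deg (c : Fin N → ℂ) (A : Fin N → Fin n → ℂ) (g : MvPolynomial (Fin N) ℂ)
    (hg : g.totalDegree ≤ k) : (aeval (sub c A) g).totalDegree ≤ k := by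
  rw [g.as_sum, map_sum]
  refine totalDegree_finsetSum_le fun α hα => ?_
  rw [aeval_monomial]
  refine (totalDegree_mul _ _).trans ?_
  rw [algebraMap_eq, totalDegree_C, zero_add, Finsupp.prod]
  refine (totalDegree_finsetProd _ _).trans ?_
  have h1 : ∑ i ∈ α.support, (sub c A i ^ α i).totalDegree ≤ ∑ i ∈ α.support, α i := by
    refine Finset.sum_le_sum fun i _ => ?_
    refine (totalDegree_pow _ _).trans ?_
    calc α i * (sub c A i).totalDegree ≤ α i * 1 := Nat.mul_le_mul_left _ (sub_deg c A i)
      _ = α i := mul_one _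
  refine h1.trans ((le_totalDegree hα).trans hg)

theorem eval_sub (c : Fin N → ℂ) (A : Fin N → Fin n → ℂ) (g : MvPolynomial (Fin N) ℂ) :
    eval 0 (aeval (sub c A) g) = eval c g := by
  have : (aeval (0 : Fin n → ℂ) : MvPolynomial (Fin n) ℂ →ₐ[ℂ] ℂ).comp (aeval (sub c A)) =
      (aeval c : MvPolynomial (Fin N) ℂ →ₐ[ℂ] ℂ) := by
    apply MvPolynomial.algHom_ext
    intro l
    rw [AlgHom.comp_apply, aeval_X, aeval_X]
    unfold sub
    rw [map_add, map_sum, aeval_C, Finset.sum_eq_zero, add_zero]
    · rfl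
    · intro s _
      rw [map_mul, aeval_X, Pi.zero_apply, mul_zero]
  have h := congrArg (fun f : MvPolynomial (Fin N) ℂ →ₐ[ℂ] ℂ => f g) this
  simp only [AlgHom.comp_apply] at h
  exact h

theorem pderiv_sub (c : Fin N → ℂ) (A : Fin N → Fin n → ℂ) (l : Fin N) (s : Fin n) :
    pderiv s (sub c A l) = C (A l s) := by
  unfold sub
  rw [map_add, pderiv_C, zero_add, map_sum, Finset.sum_eq_single s]
  · rw [pderiv_C_mul, pderiv_X_self, mul_one]
  · intro b _ hb
    rw [pderiv_C_mul, pderiv_X_of_ne hb, mul_zero]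
  · intro h
    exact absurd (Finset.mem_univ _) h

/-- **Restriction to a subspace.** -/
theorem restrict_exists (hd : 1 ≤ d) {F : MvPolynomial (Fin (n + 2)) ℂ} (hF : F.IsHomogeneous d)
    (hF0 : F ≠ 0) (G : Fin (n + 2) → MvPolynomial (Fin N) ℂ) (hFG : aeval G F = 0)
    (hdom : ∀ e (H : MvPolynomial (Fin (n + 2)) ℂ), H.IsHomogeneous e → aeval G H = 0 → F ∣ H) :
    ∃ (c : Fin N → ℂ) (A : Fin N → Fin n → ℂ),
      aeval (fun i => aeval (sub c A) (G i)) F = 0 ∧
      ∀ e (H : MvPolynomial (Fin (n + 2)) ℂ), H.IsHomogeneous e →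
        aeval (fun i => aeval (sub c A) (G i)) H = 0 → F ∣ H := by
  classical
  let K := FractionRing (MvPolynomial (Fin N) ℂ)
  let al : MvPolynomial (Fin N) ℂ →ₐ[ℂ] K := IsScalarTower.toAlgHom ℂ _ K
  have hal : Function.Injective al := IsFractionRing.injective (MvPolynomial (Fin N) ℂ) K
  have hchar : CharZero K := algebraRat.charZero K
  set x : Fin (n + 2) → K := fun i => al (G i) with hx
  have hax : ∀ H : MvPolynomial (Fin (n + 2)) ℂ, aeval x H = al (aeval G H) := by
    intro H
    have : (aeval x : MvPolynomial (Fin (n + 2)) ℂ →ₐ[ℂ] K) = al.comp (aeval G) := by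
      apply MvPolynomial.algHom_ext
      intro i
      rw [aeval_X, AlgHom.comp_apply, aeval_X]
    rw [this, AlgHom.comp_apply]
  have hker : ∀ e (H : MvPolynomial (Fin (n + 2)) ℂ), H.IsHomogeneous e → aeval x H = 0 →
      F ∣ H := by
    intro e H hH h
    refine hdom e H hH (hal ?_)
    rw [← hax, h, map_zero]
  obtain ⟨j, hj0, hju⟩ := exists_indep' hF hd hF0 hker
  set z : Fin (n + 1) → MvPolynomial (Fin N) ℂ := fun i => G (j.succAbove i) with hz
  have hz0 : al (z 0) ≠ 0 := hj0
  obtain ⟨δ, hδ⟩ := exists_dual _ hju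
  -- common denominator
  obtain ⟨q, hq⟩ := IsLocalization.exist_integer_multiples_of_finite
    (nonZeroDivisors (MvPolynomial (Fin N) ℂ)) (fun ls : Fin N × Fin n => δ ls.2 (al (X ls.1)))
  choose ω hω using hq
  have hq0 : al (q : MvPolynomial (Fin N) ℂ) ≠ 0 := by
    intro h
    exact nonZeroDivisors.coe_ne_zero q (hal (by rw [h, map_zero]))
  have hω' : ∀ (l : Fin N) (s : Fin n), al (ω (l, s)) = al q * δ s (al (X l)) := by
    intro l s
    have := hω (l, s)
    rw [Algebra.smul_def] at this
    exact this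
  -- the matrix
  let Z : Matrix (Fin (n + 1)) (Fin (n + 1)) (MvPolynomial (Fin N) ℂ) := fun i r =>
    Fin.cases (z i) (fun s => ∑ l, ω (l, s) * pderiv l (z i)) r
  have hZ0 : ∀ i, Z i 0 = z i := fun i => rfl
  have hZs : ∀ i (s : Fin n), Z i s.succ = ∑ l, ω (l, s) * pderiv l (z i) := fun i s => rfl
  have hZd : ∀ i (s : Fin n), al (Z i s.succ) = al q * δ s (al (z i)) := by
    intro i s
    rw [hZs, map_sum, der_al al (δ s) (z i), Finset.mul_sum]
    refine Finset.sum_congr rfl fun l _ => ?_
    rw [map_mul, hω']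
    ring
  have hdetZ : Z.det ≠ 0 := by
    intro hdet
    have h1 : (al.toRingHom.mapMatrix Z).det = 0 := by
      rw [← RingHom.map_det, hdet, map_zero]
    obtain ⟨v, hv0, hv⟩ := Matrix.exists_vecMul_eq_zero_iff.2 h1
    apply hv0
    have hv' : ∀ r, ∑ i, v i * al (Z i r) = 0 := fun r => congrFun hv r
    have e0 : ∑ i, v i * al (z i) = 0 := hv' 0
    have es : ∀ s : Fin n, ∑ i, v i * δ s (al (z i)) = 0 := by
      intro s
      have h2 := hv' s.succ
      have h3 : ∑ i, v i * al (Z i s.succ) = al q * ∑ i, v i * δ s (al (z i)) := by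
        rw [Finset.mul_sum]
        refine Finset.sum_congr rfl fun i _ => ?_
        rw [hZd]
        ring
      rw [h3] at h2
      rcases mul_eq_zero.1 h2 with h | h
      · exact absurd h hq0
      · exact h
    -- `z i = z 0 * u i`
    let u : Fin (n + 1) → K := fun i => al (z i) / al (z 0)
    have hu : ∀ i, al (z i) = al (z 0) * u i := by
      intro i
      change al (z i) = al (z 0) * (al (z i) / al (z 0))
      rw [mul_comm, div_mul_cancel₀ _ hz0]
    have hu0 : u 0 = 1 := div_self hz0
    have hus : ∀ (s l : Fin n), δ s (u l.succ) = if l = s then 1 else 0 := fun s l => hδ s l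
    have f0 : ∑ i, v i * u i = 0 := by
      have h2 : ∑ i, v i * al (z i) = al (z 0) * ∑ i, v i * u i := by
        rw [Finset.mul_sum]
        refine Finset.sum_congr rfl fun i _ => ?_
        rw [hu i]
        ring
      rw [h2] at e0
      rcases mul_eq_zero.1 e0 with h | h
      · exact absurd h hz0
      · exact h
    have fs : ∀ s : Fin n, ∑ i, v i * δ s (u i) = 0 := by
      intro s
      have h2 : ∑ i, v i * δ s (al (z i)) =
          al (z 0) * ∑ i, v i * δ s (u i) + δ s (al (z 0)) * ∑ i, v i * u i := by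
        rw [Finset.mul_sum, Finset.mul_sum, ← Finset.sum_add_distrib]
        refine Finset.sum_congr rfl fun i _ => ?_
        rw [hu i, Derivation.leibniz, smul_eq_mul, smul_eq_mul]
        ring
      rw [es s, f0, mul_zero, add_zero] at h2
      rcases mul_eq_zero.1 h2.symm with h | h
      · exact absurd h hz0
      · exact h
    have hvs : ∀ s : Fin n, v s.succ = 0 := by
      intro s
      have h2 := fs s
      rw [Fin.sum_univ_succ, hu0, (δ s).map_one_eq_zero, mul_zero, zero_add,
        Finset.sum_eq_single s] at h2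
      · rw [hus, if_pos rfl, mul_one] at h2
        exact h2
      · intro b _ hb
        rw [hus, if_neg hb, mul_zero]
      · intro h
        exact absurd (Finset.mem_univ _) h
    funext i
    refine Fin.cases ?_ (fun s => hvs s) i
    rw [Fin.sum_univ_succ, hu0, mul_one, Finset.sum_eq_zero, add_zero] at f0
    · exact f0
    · intro s _
      rw [hvs, zero_mul]
  obtain ⟨c, hc⟩ : ∃ c : Fin N → ℂ, eval c Z.det ≠ 0 := by
    by_contra hcon
    push Not at hcon
    exact hdetZ (MvPolynomial.funext fun c => by rw [hcon, map_zero])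
  refine ⟨c, fun l s => eval c (ω (l, s)), ?_, ?_⟩
  · have : (aeval (fun i => aeval (sub c fun l s => eval c (ω (l, s))) (G i)) :
        MvPolynomial (Fin (n + 2)) ℂ →ₐ[ℂ] MvPolynomial (Fin n) ℂ) =
        (aeval (sub c fun l s => eval c (ω (l, s)))).comp (aeval G) := by
      apply MvPolynomial.algHom_ext
      intro i
      rw [aeval_X, AlgHom.comp_apply, aeval_X]
    rw [this, AlgHom.comp_apply, hFG, map_zero]
  · set A : Fin N → Fin n → ℂ := fun l s => eval c (ω (l, s)) with hA
    intro e H hH hHG
    have hFG' : aeval (fun i => aeval (sub c A) (G i)) F = 0 := by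
      have : (aeval (fun i => aeval (sub c A) (G i)) :
          MvPolynomial (Fin (n + 2)) ℂ →ₐ[ℂ] MvPolynomial (Fin n) ℂ) =
          (aeval (sub c A)).comp (aeval G) := by
        apply MvPolynomial.algHom_ext
        intro i
        rw [aeval_X, AlgHom.comp_apply, aeval_X]
      rw [this, AlgHom.comp_apply, hFG, map_zero]
    have hprime : ∀ (a b : ℕ) (A B : MvPolynomial (Fin (n + 2)) ℂ), A.IsHomogeneous a →
        B.IsHomogeneous b → F ∣ A * B → F ∣ A ∨ F ∣ B := by
      intro a b A B hA hB ⟨E, hE⟩
      have h1 : aeval G A * aeval G B = 0 := by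
        rw [← map_mul, hE, map_mul, hFG, zero_mul]
      rcases mul_eq_zero.1 h1 with h | h
      · exact Or.inl (hdom a A hA h)
      · exact Or.inr (hdom b B hB h)
    set z' : Fin (n + 1) → MvPolynomial (Fin n) ℂ := fun i => aeval (sub c A) (z i) with hz'
    have hdet' : (ZZ z').det ≠ 0 := by
      intro h
      have h1 : eval (0 : Fin n → ℂ) (ZZ z').det = eval c Z.det := by
        rw [RingHom.map_det, RingHom.map_det]
        congr 1
        ext i r
        change eval 0 (ZZ z' i r) = eval c (Z i r)
        refine Fin.cases ?_ (fun s => ?_) r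
        · exact eval_sub c A (z i)
        · change eval 0 (pderiv s (aeval (sub c A) (z i))) =
            eval c (∑ l, ω (l, s) * pderiv l (z i))
          rw [chain_rule (pderiv s) (sub c A) (z i), map_sum, map_sum]
          refine Finset.sum_congr rfl fun l _ => ?_
          rw [map_mul, map_mul, eval_sub, pderiv_sub, eval_C, mul_comm]
      rw [h, map_zero] at h1
      exact hc h1.symm
    have hnr := no_relation z' hdet'
    refine dom_of_indep hF hd hF0 hprime (aeval fun i => aeval (sub c A) (G i)) j.succAbove hFG' ?_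
      hH hHG
    intro l B hB hB0
    refine hnr l B hB ?_
    rw [aeval_rename] at hB0
    exact hB0

end

end Pool.Agent.TH314.PD
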