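import Mathlib
import Pool.Agent.TH314.PD.Main
import Pool.Agent.TH314.PD.Restr2

/-!
# Maps given by forms of degree `k` onto a smooth hypersurface: final statements
-/

set_option autoImplicit false

namespace Pool.Agent.TH314.PD

open MvPolynomial

noncomputable section

variable {n N d k : ℕ}

/-- the case of `n` parameters, with the degree of the map -/
theorem bound (hd : 2 ≤ d) (F : MvPolynomial (Fin (n + 2)) ℂ) (hF : F.IsHomogeneous d)
    (hsm : ∀ z : Fin (n + 2) → ℂ, (∀ i, eval z (pderiv i F) = 0) → z = 0)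
    (G : Fin (n + 2) → MvPolynomial (Fin n) ℂ) (hG : ∀ i, (G i).totalDegree ≤ k)
    (hFG : aeval G F = 0)
    (hdom : ∀ e (H : MvPolynomial (Fin (n + 2)) ℂ), H.IsHomogeneous e → aeval G H = 0 → F ∣ H) :
    FiniteDimensional (ratioField fun i =>
        algebraMap (MvPolynomial (Fin n) ℂ) (FractionRing (MvPolynomial (Fin n) ℂ)) (G i))
        (FractionRing (MvPolynomial (Fin n) ℂ)) ∧
      Module.finrank (ratioField fun i =>
        algebraMap (MvPolynomial (Fin n) ℂ) (FractionRing (MvPolynomial (Fin n) ℂ)) (G i))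
        (FractionRing (MvPolynomial (Fin n) ℂ)) * (d * (d - 1) ^ n) ≤ (n + 1) * (k - 1) ^ n := by
  have hchar : CharZero (FractionRing (MvPolynomial (Fin n) ℂ)) := algebraRat.charZero _
  refine core hd F hF hsm
    (IsScalarTower.toAlgHom ℂ (MvPolynomial (Fin n) ℂ) (FractionRing (MvPolynomial (Fin n) ℂ)))
    (IsFractionRing.injective (MvPolynomial (Fin n) ℂ) (FractionRing (MvPolynomial (Fin n) ℂ)))
    ?_ ?_ G hG hFG hdom
  · have : Algebra.IsAlgebraic (MvPolynomial (Fin n) ℂ) (FractionRing (MvPolynomial (Fin n) ℂ)) :=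
      (IsFractionRing.comap_isAlgebraic_iff (K := FractionRing (MvPolynomial (Fin n) ℂ))).2
        inferInstance
    exact (IsTranscendenceBasis.mvPolynomial (Fin n) ℂ).algebraMap_comp
      (A := FractionRing (MvPolynomial (Fin n) ℂ))
  · intro z
    obtain ⟨a, b, h⟩ := IsFractionRing.div_surjective (A := MvPolynomial (Fin n) ℂ) z
    exact ⟨a, b, h.2.symm⟩

/-- any number of parameters -/
theorem param_bound (hd : 2 ≤ d) (F : MvPolynomial (Fin (n + 2)) ℂ) (hF : F.IsHomogeneous d)
    (hsm : ∀ z : Fin (n + 2) → ℂ, (∀ i, eval z (pderiv i F) = 0) → z = 0)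
    (G : Fin (n + 2) → MvPolynomial (Fin N) ℂ) (hG : ∀ i, (G i).totalDegree ≤ k)
    (hFG : aeval G F = 0)
    (hdom : ∀ e (H : MvPolynomial (Fin (n + 2)) ℂ), H.IsHomogeneous e → aeval G H = 0 → F ∣ H) :
    d * (d - 1) ^ n ≤ (n + 1) * (k - 1) ^ n := by
  obtain ⟨c, A, h1, h2⟩ := restrict_exists (by omega) hF (ne_zero_of_smooth hsm) G hFG hdom
  obtain ⟨h3, h4⟩ := bound hd F hF hsm (fun i => aeval (sub c A) (G i))
    (fun i => aeval_sub_deg c A (G i) (hG i)) h1 h2
  have h5 : 0 < Module.finrank (ratioField fun i =>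
      algebraMap (MvPolynomial (Fin n) ℂ) (FractionRing (MvPolynomial (Fin n) ℂ))
        (aeval (sub c A) (G i))) (FractionRing (MvPolynomial (Fin n) ℂ)) :=
    Module.finrank_pos
  exact (Nat.le_mul_of_pos_left _ h5).trans h4

end

end Pool.Agent.TH314.PD
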