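import Mathlib

/-!
# Counting lattice points in dilates of a convex set
-/

set_option autoImplicit false

namespace Pool.Agent.TH314.PD

open MeasureTheory Pointwise

noncomputable section

variable {n : ℕ}

/-- the half-open unit cube at a lattice point -/
def cube (α : Fin n →₀ ℕ) : Set (Fin n → ℝ) :=
  Set.pi Set.univ fun l => Set.Ico (α l : ℝ) ((α l : ℝ) + 1)

theorem cube_volume (α : Fin n →₀ ℕ) : volume (cube α) = 1 := by
  unfold cube
  rw [Real.volume_pi_Ico]
  simp

theorem cube_measurable (α : Fin n →₀ ℕ) : MeasurableSet (cube α) :=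
  MeasurableSet.univ_pi fun _ => measurableSet_Ico

theorem cube_disjoint {α β : Fin n →₀ ℕ} (h : α ≠ β) : Disjoint (cube α) (cube β) := by
  rw [Set.disjoint_left]
  intro x hx hx'
  apply h
  ext l
  have h1 := hx l (Set.mem_univ l)
  have h2 := hx' l (Set.mem_univ l)
  rw [Set.mem_Ico] at h1 h2
  have h3 : (α l : ℝ) < (β l : ℝ) + 1 := lt_of_le_of_lt h1.1 h2.2
  have h4 : (β l : ℝ) < (α l : ℝ) + 1 := lt_of_le_of_lt h2.1 h1.2
  have h5 : α l < β l + 1 := by exact_mod_cast h3
  have h6 : β l < α l + 1 := by exact_mod_cast h4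
  omega

/-- the set of lattice points -/
def lat (P : Set (Fin n → ℝ)) (r : ℝ) (w : Fin n → ℝ) : Set (Fin n →₀ ℕ) :=
  {α | (fun l => (α l : ℝ)) - w ∈ r • P}

/-- the counting inequality for finite sets of lattice points -/
theorem card_finset {P : Set (Fin n → ℝ)} (hP : Convex ℝ P) {z : Fin n → ℝ} {ρ : ℝ} (hρ : 0 < ρ)
    (hball : Metric.ball z ρ ⊆ P) {r : ℝ} (hr : 0 ≤ r) (w : Fin n → ℝ)
    (S : Finset (Fin n →₀ ℕ)) (hS : ∀ α ∈ S, α ∈ lat P r w) :
    (S.card : ENNReal) ≤ ENNReal.ofReal ((r + 2 / ρ) ^ n) * volume P := by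
  set c : ℝ := 2 / ρ with hc
  have hc0 : 0 < c := by positivity
  have h1 : volume (⋃ α ∈ S, cube α) = (S.card : ENNReal) := by
    rw [measure_biUnion_finset]
    · rw [Finset.sum_congr rfl fun α _ => cube_volume α]
      simp
    · intro α _ β _ hαβ
      exact cube_disjoint hαβ
    · intro α _
      exact cube_measurable α
  set w' : Fin n → ℝ := w - c • z with hw'
  have h2 : (⋃ α ∈ S, cube α) ⊆ (fun x => -w' + x) ⁻¹' ((r + c) • P) := by
    intro x hx
    rw [Set.mem_iUnion₂] at hx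
    obtain ⟨α, hα, hx⟩ := hx
    rw [Set.mem_preimage, hP.add_smul hr hc0.le]
    have h3 : -w' + x = ((fun l => (α l : ℝ)) - w) + c • (z + c⁻¹ • (x - fun l => (α l : ℝ))) := by
      rw [smul_add, smul_smul, mul_inv_cancel₀ hc0.ne', one_smul, hw']
      abel
    rw [h3]
    refine Set.add_mem_add (hS α hα) (Set.smul_mem_smul_set (hball ?_))
    rw [Metric.mem_ball, dist_self_add_left, norm_smul, Real.norm_eq_abs, abs_of_pos (by positivity)]
    have h4 : ‖x - fun l => (α l : ℝ)‖ ≤ 1 := by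
      rw [pi_norm_le_iff_of_nonneg zero_le_one]
      intro l
      have h5 := hx l (Set.mem_univ l)
      rw [Set.mem_Ico] at h5
      rw [Pi.sub_apply, Real.norm_eq_abs, abs_le]
      constructor
      · linarith [h5.1]
      · linarith [h5.2]
    calc c⁻¹ * ‖x - fun l => (α l : ℝ)‖ ≤ c⁻¹ * 1 := by
          apply mul_le_mul_of_nonneg_left h4
          positivity
      _ = ρ / 2 := by rw [hc]; field_simp
      _ < ρ := by linarith
  rw [← h1]
  refine (measure_mono h2).trans (le_of_eq ?_)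
  rw [measure_preimage_add, Measure.addHaar_smul, Module.finrank_fin_fun, abs_of_nonneg (by positivity)]

/-- the counting inequality -/
theorem lat_finite {P : Set (Fin n → ℝ)} (hP : Convex ℝ P) {z : Fin n → ℝ} {ρ : ℝ} (hρ : 0 < ρ)
    (hball : Metric.ball z ρ ⊆ P) (hV : volume P ≠ ⊤) {r : ℝ} (hr : 0 ≤ r) (w : Fin n → ℝ) :
    (lat P r w).Finite ∧
      ((lat P r w).ncard : ℝ) ≤ (r + 2 / ρ) ^ n * (volume P).toReal := by
  have h1 : ∀ S : Finset (Fin n →₀ ℕ), (∀ α ∈ S, α ∈ lat P r w) →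
      (S.card : ℝ) ≤ (r + 2 / ρ) ^ n * (volume P).toReal := by
    intro S hS
    have h2 := card_finset hP hρ hball hr w S hS
    have h3 : ENNReal.ofReal ((r + 2 / ρ) ^ n) * volume P ≠ ⊤ :=
      ENNReal.mul_ne_top ENNReal.ofReal_ne_top hV
    have h4 := ENNReal.toReal_mono h3 h2
    rwa [ENNReal.toReal_natCast, ENNReal.toReal_mul, ENNReal.toReal_ofReal (by positivity)] at h4
  have hfin : (lat P r w).Finite := by
    by_contra hinf
    obtain ⟨N, hN⟩ := exists_nat_gt ((r + 2 / ρ) ^ n * (volume P).toReal)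
    obtain ⟨S, hS, hcard⟩ := Set.Infinite.exists_subset_card_eq hinf N
    have h5 := h1 S fun α hα => hS hα
    rw [hcard] at h5
    exact absurd h5 (not_le.2 hN)
  refine ⟨hfin, ?_⟩
  have h6 := h1 hfin.toFinset fun α hα => hfin.mem_toFinset.1 hα
  rwa [← Set.ncard_eq_toFinset_card _ hfin] at h6

end

end Pool.Agent.TH314.PD
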