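import Mathlib
import Pool.Agent.TH314.PD.NPc
import Pool.Agent.TH314.PD.LIu
import Pool.Agent.TH314.PD.Upper

/-!
# The degree bound by the volume of a convex set containing the exponents
-/

set_option autoImplicit false

namespace Pool.Agent.TH314.PD

open MvPolynomial MeasureTheory Pointwise

noncomputable section

section NB

variable {L : Type} [Field L] {n : ℕ} {P : Set (Fin n → ℝ)}

theorem lat_add (hP : Convex ℝ P) {r r' : ℝ} (hr : 0 ≤ r) (hr' : 0 ≤ r') {w w' : Fin n → ℝ}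
    {α β : Fin n →₀ ℕ} (hα : α ∈ lat P r w) (hβ : β ∈ lat P r' w') :
    α + β ∈ lat P (r + r') (w + w') := by
  change (fun l => (((α + β) l : ℕ) : ℝ)) - (w + w') ∈ (r + r') • P
  rw [hP.add_smul hr hr']
  have h1 : (fun l => (((α + β) l : ℕ) : ℝ)) - (w + w') =
      ((fun l => (α l : ℝ)) - w) + ((fun l => (β l : ℝ)) - w') := by
    funext l
    simp only [Pi.sub_apply, Pi.add_apply, Finsupp.add_apply, Nat.cast_add]
    ring
  rw [h1]
  exact Set.add_mem_add hα hβ

theorem lat_zero (hP : P.Nonempty) : (0 : Fin n →₀ ℕ) ∈ lat P 0 0 := by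
  change (fun l => (((0 : Fin n →₀ ℕ) l : ℕ) : ℝ)) - 0 ∈ (0 : ℝ) • P
  rw [Set.zero_smul_set hP]
  simp only [Finsupp.coe_zero, Pi.zero_apply, Nat.cast_zero, sub_zero]
  rfl

/-- exponents: at most `a` in the variable `none`, and the other ones in `w + r P` -/
def NB (P : Set (Fin n → ℝ)) (a : ℕ) (r : ℝ) (w : Fin n → ℝ)
    (f : MvPolynomial (Option (Fin n)) L) : Prop :=
  ∀ α ∈ f.support, α none ≤ a ∧ α.some ∈ lat P r w

theorem NB.mono {a a' : ℕ} {r : ℝ} {w : Fin n → ℝ} {f : MvPolynomial (Option (Fin n)) L}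
    (h : NB P a r w f) (ha : a ≤ a') : NB P a' r w f :=
  fun α hα => ⟨(h α hα).1.trans ha, (h α hα).2⟩

theorem NB.mul (hP : Convex ℝ P) {a a' : ℕ} {r r' : ℝ} (hr : 0 ≤ r) (hr' : 0 ≤ r')
    {w w' : Fin n → ℝ} {f g : MvPolynomial (Option (Fin n)) L}
    (hf : NB P a r w f) (hg : NB P a' r' w' g) : NB P (a + a') (r + r') (w + w') (f * g) := by
  classical
  intro α hα
  obtain ⟨β, hβ, γ, hγ, rfl⟩ := Finset.mem_add.1 (MvPolynomial.support_mul f g hα)
  have h1 := hf β hβ
  have h2 := hg γ hγ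
  refine ⟨?_, ?_⟩
  · rw [Finsupp.add_apply]
    omega
  · rw [Finsupp.some_add]
    exact lat_add hP hr hr' h1.2 h2.2

theorem NB.add {a : ℕ} {r : ℝ} {w : Fin n → ℝ} {f g : MvPolynomial (Option (Fin n)) L}
    (hf : NB P a r w f) (hg : NB P a r w g) : NB P a r w (f + g) := by
  classical
  intro α hα
  rcases Finset.mem_union.1 (MvPolynomial.support_add hα) with h | h
  · exact hf α h
  · exact hg α h

theorem NB.sum {ι : Type} (s : Finset ι) {a : ℕ} {r : ℝ} {w : Fin n → ℝ}
    {f : ι → MvPolynomial (Option (Fin n)) L} (hf : ∀ i ∈ s, NB P a r w (f i)) :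
    NB P a r w (∑ i ∈ s, f i) := by
  classical
  induction s using Finset.induction_on with
  | empty =>
    rw [Finset.sum_empty]
    intro α hα
    simp at hα
  | insert i s hi ih =>
    rw [Finset.sum_insert hi]
    exact (hf i (Finset.mem_insert_self _ _)).add (ih fun j hj => hf j (Finset.mem_insert_of_mem hj))

theorem NB.C (hP : P.Nonempty) (c : L) :
    NB P 0 0 0 (MvPolynomial.C c : MvPolynomial (Option (Fin n)) L) := by
  intro α hα
  have h1 : α = 0 := by
    have := support_monomial_subset hα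
    rwa [Finset.mem_singleton] at this
  subst h1
  refine ⟨by simp, ?_⟩
  rw [Finsupp.some_zero]
  exact lat_zero hP

theorem NB.X (hP : P.Nonempty) :
    NB P 1 0 0 (MvPolynomial.X none : MvPolynomial (Option (Fin n)) L) := by
  intro α hα
  have h1 : α = Finsupp.single none 1 := by
    have := support_monomial_subset hα
    rwa [Finset.mem_singleton] at this
  subst h1
  refine ⟨by simp, ?_⟩
  rw [Finsupp.some_single_none]
  exact lat_zero hP

theorem NB.pow (hP : Convex ℝ P) (hP' : P.Nonempty) {a : ℕ} {r : ℝ} (hr : 0 ≤ r)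
    {f : MvPolynomial (Option (Fin n)) L} (hf : NB P a r 0 f) (m : ℕ) :
    NB P (m * a) (m * r) 0 (f ^ m) := by
  induction m with
  | zero =>
    rw [pow_zero, Nat.cast_zero, zero_mul, zero_mul]
    exact NB.C hP' 1
  | succ m ih =>
    rw [pow_succ]
    have := ih.mul hP (by positivity) hr hf
    rwa [show m * a + a = (m + 1) * a by ring, show (m : ℝ) * r + r = ((m + 1 : ℕ) : ℝ) * r by
      push_cast; ring, add_zero] at this

theorem NB.prod (hP : Convex ℝ P) (hP' : P.Nonempty) {ι : Type} (s : Finset ι) {a : ι → ℕ}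
    {r : ι → ℝ} (hr : ∀ i, 0 ≤ r i) {f : ι → MvPolynomial (Option (Fin n)) L}
    (hf : ∀ i ∈ s, NB P (a i) (r i) 0 (f i)) :
    NB P (∑ i ∈ s, a i) (∑ i ∈ s, r i) 0 (∏ i ∈ s, f i) := by
  classical
  induction s using Finset.induction_on with
  | empty =>
    rw [Finset.prod_empty, Finset.sum_empty, Finset.sum_empty]
    exact NB.C hP' 1
  | insert i s hi ih =>
    rw [Finset.prod_insert hi, Finset.sum_insert hi, Finset.sum_insert hi]
    have := (hf i (Finset.mem_insert_self _ _)).mul hP (hr i)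
      (Finset.sum_nonneg fun j _ => hr j) (ih fun j hj => hf j (Finset.mem_insert_of_mem hj))
    rwa [add_zero] at this

theorem NB.exists {z : Fin n → ℝ} {ρ : ℝ} (hρ : 0 < ρ) (hball : Metric.ball z ρ ⊆ P)
    (f : MvPolynomial (Option (Fin n)) L) :
    ∃ c0 : ℕ, ∀ c : ℕ, c0 ≤ c → NB P c c (-(c : ℝ) • z) f := by
  let κ : (Option (Fin n) →₀ ℕ) → ℕ := fun α =>
    ⌈‖fun l => ((α.some l : ℕ) : ℝ)‖ / ρ⌉₊ + 1 + α none
  refine ⟨∑ α ∈ f.support, κ α, fun c hc α hα => ?_⟩
  have h1 : κ α ≤ c :=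
    (Finset.single_le_sum (f := κ) (fun _ _ => Nat.zero_le _) hα).trans hc
  refine ⟨by simp only [κ] at h1; omega, ?_⟩
  have h2 : ⌈‖fun l => ((α.some l : ℕ) : ℝ)‖ / ρ⌉₊ + 1 ≤ c := by simp only [κ] at h1; omega
  have h3 : ‖fun l => ((α.some l : ℕ) : ℝ)‖ / ρ + 1 ≤ (c : ℝ) := by
    refine (add_le_add_left (Nat.le_ceil _) 1).trans ?_
    exact_mod_cast h2
  have hc0 : (0 : ℝ) < c := lt_of_lt_of_le (by positivity) h3
  change (fun l => ((α.some l : ℕ) : ℝ)) - -(c : ℝ) • z ∈ (c : ℝ) • P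
  have h4 : (fun l => ((α.some l : ℕ) : ℝ)) - -(c : ℝ) • z =
      (c : ℝ) • (z + (c : ℝ)⁻¹ • fun l => ((α.some l : ℕ) : ℝ)) := by
    rw [smul_add, smul_smul, mul_inv_cancel₀ hc0.ne', one_smul, neg_smul, sub_neg_eq_add, add_comm]
  rw [h4]
  refine Set.smul_mem_smul_set (hball ?_)
  rw [Metric.mem_ball, dist_self_add_left, norm_smul, Real.norm_eq_abs, abs_of_pos (by positivity),
    inv_mul_lt_iff₀ hc0]
  rw [← div_lt_iff₀ hρ]
  linarith

/-- the set of exponents -/
def exN (P : Set (Fin n → ℝ)) (a : ℕ) (r : ℝ) (w : Fin n → ℝ) : Set (Option (Fin n) →₀ ℕ) :=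
  {α | α none ≤ a ∧ α.some ∈ lat P r w}

theorem mem_restrictN {a : ℕ} {r : ℝ} {w : Fin n → ℝ} {f : MvPolynomial (Option (Fin n)) L} :
    f ∈ restrictSupport L (exN P a r w) ↔ NB P a r w f := by
  rw [mem_restrictSupport_iff]
  exact Iff.rfl

theorem finrank_restrictN (hP : Convex ℝ P) {z : Fin n → ℝ} {ρ : ℝ} (hρ : 0 < ρ)
    (hball : Metric.ball z ρ ⊆ P) (hV : volume P ≠ ⊤) (a : ℕ) {r : ℝ} (hr : 0 ≤ r)
    (w : Fin n → ℝ) :
    Module.Finite L (restrictSupport L (exN P a r w)) ∧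
      (Module.finrank L (restrictSupport L (exN P a r w)) : ℝ) ≤
        (a + 1) * ((r + 2 / ρ) ^ n * (volume P).toReal) := by
  obtain ⟨hfin, hcard⟩ := lat_finite hP hρ hball hV hr w
  have hf : Finite (lat P r w) := hfin
  let F : exN P a r w → (Fin (a + 1) × lat P r w) := fun α =>
    (⟨α.1 none, by have := α.2.1; omega⟩, ⟨α.1.some, α.2.2⟩)
  have hF : Function.Injective F := by
    intro α β h
    simp only [F, Prod.mk.injEq, Fin.mk.injEq, Subtype.mk.injEq] at h
    apply Subtype.ext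
    ext i
    cases i with
    | none => exact h.1
    | some l => exact DFunLike.congr_fun h.2 l
  have : Finite (exN P a r w) := Finite.of_injective F hF
  have : Fintype (exN P a r w) := Fintype.ofFinite _
  have : Fintype (lat P r w) := Fintype.ofFinite _
  let B := MvPolynomial.basisRestrictSupport L (exN P a r w)
  refine ⟨Module.Finite.of_basis B, ?_⟩
  rw [Module.finrank_eq_card_basis B]
  have h1 : Fintype.card (exN P a r w) ≤ (a + 1) * (lat P r w).ncard := by
    refine (Fintype.card_le_of_injective F hF).trans ?_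
    rw [Fintype.card_prod, Fintype.card_fin, ← Nat.card_eq_fintype_card, Nat.card_coe_set_eq]
  calc ((Fintype.card (exN P a r w) : ℕ) : ℝ) ≤ ((a + 1) * (lat P r w).ncard : ℕ) := by
        exact_mod_cast h1
    _ = (a + 1) * ((lat P r w).ncard : ℝ) := by push_cast; ring
    _ ≤ (a + 1) * ((r + 2 / ρ) ^ n * (volume P).toReal) := by
        apply mul_le_mul_of_nonneg_left hcard
        positivity

end NB

/-- the asymptotic step -/
theorem asym_np {M n c : ℕ} {V s : ℝ}
    (h : ∀ l : ℕ, (M : ℝ) * ((l + (n + 1)).choose (n + 1) : ℕ) ≤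
      ((l : ℝ) + c + 1) * (((l : ℝ) + c + s) ^ n * V)) :
    (M : ℝ) ≤ (n + 1).factorial * V := by
  have h2 : ∀ l : ℕ, (M : ℝ) ≤ ((n + 1).factorial * V) * ((1 + (c : ℝ) * (1 / ((l : ℝ) + 1))) *
      (1 + ((c : ℝ) + s - 1) * (1 / ((l : ℝ) + 1))) ^ n) := by
    intro l
    have hL : (0 : ℝ) < (l : ℝ) + 1 := by positivity
    have h0 : (l + 1) ^ (n + 1) ≤ (n + 1).factorial * (l + (n + 1)).choose (n + 1) := by
      refine (Nat.pow_succ_le_ascFactorial (l + 1) (n + 1)).trans (le_of_eq ?_)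
      rw [Nat.ascFactorial_eq_factorial_mul_choose]
    have h0' : ((l : ℝ) + 1) ^ (n + 1) ≤
        (n + 1).factorial * ((l + (n + 1)).choose (n + 1) : ℕ) := by exact_mod_cast h0
    have h3 : (M : ℝ) * ((l : ℝ) + 1) ^ (n + 1) ≤
        ((n + 1).factorial * V) * (((l : ℝ) + c + 1) * ((l : ℝ) + c + s) ^ n) := by
      calc (M : ℝ) * ((l : ℝ) + 1) ^ (n + 1) ≤
          M * ((n + 1).factorial * ((l + (n + 1)).choose (n + 1) : ℕ)) :=
            mul_le_mul_of_nonneg_left h0' (by positivity)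
        _ = (n + 1).factorial * (M * ((l + (n + 1)).choose (n + 1) : ℕ)) := by ring
        _ ≤ (n + 1).factorial * (((l : ℝ) + c + 1) * (((l : ℝ) + c + s) ^ n * V)) :=
            mul_le_mul_of_nonneg_left (h l) (by positivity)
        _ = ((n + 1).factorial * V) * (((l : ℝ) + c + 1) * ((l : ℝ) + c + s) ^ n) := by ring
    have h4 : 1 + ((c : ℝ) + s - 1) * (1 / ((l : ℝ) + 1)) = ((l : ℝ) + c + s) / (l + 1) := by
      field_simp
      ring
    have h5 : 1 + (c : ℝ) * (1 / ((l : ℝ) + 1)) = ((l : ℝ) + c + 1) / (l + 1) := by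
      field_simp
      ring
    rw [h4, h5, div_pow, div_mul_div_comm, ← pow_succ', mul_div_assoc', le_div_iff₀ (by positivity)]
    exact h3
  have h5 : Filter.Tendsto (fun l : ℕ => ((n + 1).factorial * V) *
      ((1 + (c : ℝ) * (1 / ((l : ℝ) + 1))) *
      (1 + ((c : ℝ) + s - 1) * (1 / ((l : ℝ) + 1))) ^ n)) Filter.atTop
      (nhds (((n + 1).factorial * V) * ((1 + (c : ℝ) * 0) * (1 + ((c : ℝ) + s - 1) * 0) ^ n))) := by
    have h6 := tendsto_one_div_add_atTop_nhds_zero_nat (𝕜 := ℝ)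
    exact ((tendsto_const_nhds.add (tendsto_const_nhds.mul h6)).mul
      ((tendsto_const_nhds.add (tendsto_const_nhds.mul h6)).pow n)).const_mul _
  have h6 := ge_of_tendsto' h5 h2
  rwa [mul_zero, add_zero, mul_zero, add_zero, one_mul, one_pow, mul_one] at h6

section

variable {L K : Type} [Field L] [Field K] [Algebra L K] {n : ℕ}

/-- **Upper bound by the volume.** -/
theorem ub_np [CharZero K] [FiniteDimensional L K] {P : Set (Fin n → ℝ)} (hP : Convex ℝ P)
    {z : Fin n → ℝ} {ρ : ℝ} (hρ : 0 < ρ) (hball : Metric.ball z ρ ⊆ P) (hV : volume P ≠ ⊤)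
    (E : Option (Fin n) → MvPolynomial (Option (Fin n)) L) (p : Option (Fin n) → K)
    (hE : ∀ i, NB P 1 1 0 (E i)) (h0 : ∀ i, aeval p (E i) = 0)
    (hnd : ∀ v : Option (Fin n) → K,
      (∀ i, ∑ j, v j * aeval p (pderiv j (E i)) = 0) → v = 0)
    (hsurj : ∀ z : K, ∃ g : MvPolynomial (Option (Fin n)) L, aeval p g = z)
    (m : MvPolynomial (Option (Fin n)) L) (hm : NB P 0 1 0 m) (hm0 : aeval p m ≠ 0) :
    (Module.finrank L K : ℝ) ≤ (n + 1).factorial * (volume P).toReal := by
  classical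
  have hP' : P.Nonempty := ⟨z, hball (Metric.mem_ball_self hρ)⟩
  let b := Module.finBasis L K
  choose g hg using fun i => hsurj (b i)
  have hli : LinearIndependent L (fun i => aeval p (g i)) := by
    have h1 : (fun i => aeval p (g i)) = b := funext hg
    rw [h1]
    exact b.linearIndependent
  choose cc hcc using fun i => NB.exists (P := P) hρ hball (g i)
  set c := ∑ i, cc i with hc
  have hgc : ∀ i, NB P c c (-(c : ℝ) • z) (g i) := fun i => hcc i c
    (Finset.single_le_sum (f := cc) (fun _ _ => Nat.zero_le _) (Finset.mem_univ i))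
  refine asym_np (c := c) (s := 2 / ρ) fun l => ?_
  have hLI := li_unit E p h0 hnd g hli (fun s => m ^ (l - s)) fun s => by
    rw [map_pow]
    exact pow_ne_zero _ hm0
  obtain ⟨hfin, hrank⟩ := finrank_restrictN (L := L) hP hρ hball hV (l + c)
    (r := (l : ℝ) + c) (by positivity) (-(c : ℝ) • z)
  set V := restrictSupport L (exN P (l + c) ((l : ℝ) + c) (-(c : ℝ) • z)) with hVV
  let h' : Fin (Module.finrank L K) × bd (Option (Fin n)) l → V := fun x =>
    ⟨g x.1 * m ^ (l - x.2.1.degree) * ∏ i, E i ^ (x.2.1 i), by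
      rw [hVV, mem_restrictN]
      have hα : x.2.1.degree ≤ l := by
        rw [Finsupp.degree_eq_sum]
        exact mem_bd.1 x.2.2
      have h1 : NB P (∑ i, x.2.1 i * 1) (∑ i, (x.2.1 i : ℝ) * 1) 0 (∏ i, E i ^ (x.2.1 i)) :=
        NB.prod hP hP' _ (fun i => by positivity) fun i _ => (hE i).pow hP hP' zero_le_one _
      have h2 := hm.pow hP hP' zero_le_one (l - x.2.1.degree)
      have h3 := ((hgc x.1).mul hP (by positivity) (by positivity) h2).mul hP (by positivity)
        (Finset.sum_nonneg fun i _ => by positivity) h1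
      have h4 : (∑ i, (x.2.1 i : ℝ) * 1) = (x.2.1.degree : ℝ) := by
        rw [Finsupp.degree_eq_sum]
        push_cast
        simp
      have h5 : (c : ℝ) + ((l - x.2.1.degree : ℕ) : ℝ) * 1 + ∑ i, (x.2.1 i : ℝ) * 1 =
          (l : ℝ) + c := by
        rw [h4, Nat.cast_sub hα]
        ring
      rw [h5, add_zero, add_zero] at h3
      refine h3.mono ?_
      have h6 : ∑ i, x.2.1 i * 1 = x.2.1.degree := by
        rw [Finsupp.degree_eq_sum]
        simp
      rw [h6]
      omega⟩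
  have hli' : LinearIndependent L h' := by
    refine LinearIndependent.of_comp (Submodule.subtype _) ?_
    have h1 : (Submodule.subtype V) ∘ h' =
        (fun x : Fin (Module.finrank L K) × (Option (Fin n) →₀ ℕ) =>
          g x.1 * m ^ (l - x.2.degree) * ∏ i, E i ^ (x.2 i)) ∘
        (fun x : Fin (Module.finrank L K) × bd (Option (Fin n)) l => (x.1, x.2.1)) := rfl
    rw [h1]
    refine hLI.comp _ ?_
    rintro ⟨t, α⟩ ⟨t', α'⟩ hx
    simp only [Prod.mk.injEq] at hx
    exact Prod.ext hx.1 (Subtype.ext hx.2)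
  have h1 := hli'.fintype_card_le_finrank
  rw [Fintype.card_prod, Fintype.card_coe, card_bd, Fintype.card_fin, Fintype.card_option,
    Fintype.card_fin] at h1
  have h2 : ((Module.finrank L K * (l + (n + 1)).choose (n + 1) : ℕ) : ℝ) ≤
      (Module.finrank L V : ℝ) := by exact_mod_cast h1
  rw [Nat.cast_mul] at h2
  refine h2.trans (hrank.trans (le_of_eq ?_))
  push_cast
  ring

end

end

end Pool.Agent.TH314.PD
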