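import Mathlib
import Pool.Agent.TH314.PD.NPb

/-!
# The upper bound by the volume of a convex set containing the exponents
-/

set_option autoImplicit false

namespace Pool.Agent.TH314.PD

open MvPolynomial MeasureTheory Pointwise

noncomputable section

variable {n : ℕ}

/-- the operators `1` and `X l * ∂ l` -/
def Top : Option (Fin n) → MvPolynomial (Fin n) ℂ → MvPolynomial (Fin n) ℂ
  | none => fun g => g
  | some l => fun g => X l * pderiv l g

theorem Top_support (i : Option (Fin n)) (g : MvPolynomial (Fin n) ℂ) :
    (Top i g).support ⊆ g.support := by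
  classical
  cases i with
  | none => exact subset_rfl
  | some l =>
    change (X l * pderiv l g).support ⊆ g.support
    have h1 : X l * pderiv l g = ∑ α ∈ g.support, monomial α (coeff α g * (α l : ℂ)) := by
      conv_lhs => rw [g.as_sum, map_sum, Finset.mul_sum]
      refine Finset.sum_congr rfl fun α _ => ?_
      rw [pderiv_monomial, X, monomial_mul, one_mul]
      rcases Nat.eq_zero_or_pos (α l) with h | h
      · rw [h, Nat.cast_zero, mul_zero, monomial_zero, monomial_zero]
      · congr 2
        rw [add_comm]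
        exact tsub_add_cancel_of_le (Finsupp.single_le_iff.2 h)
    intro β hβ
    rw [h1] at hβ
    obtain ⟨α, hα, hβ2⟩ := Finset.mem_biUnion.1 (MvPolynomial.support_sum hβ)
    have h3 : β = α := by
      have := support_monomial_subset hβ2
      rwa [Finset.mem_singleton] at this
    rw [h3]
    exact hα

variable {K : Type} [Field K] [Algebra ℂ K]

theorem io_NB (L : IntermediateField ℂ K) {P : Set (Fin n → ℝ)} {g : MvPolynomial (Fin n) ℂ}
    (hg : ∀ α ∈ g.support, (fun l => (α l : ℝ)) ∈ P) : NB P 0 1 0 (io L g) := by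
  classical
  have h1 : io L g = ∑ α ∈ g.support, monomial (α.mapDomain some) (algebraMap ℂ L (coeff α g)) := by
    conv_lhs => rw [g.as_sum, map_sum]
    refine Finset.sum_congr rfl fun α _ => ?_
    unfold io
    rw [aeval_monomial]
    rw [monomial_eq, Finsupp.prod_mapDomain_index (fun _ => pow_zero _) (fun _ _ _ => pow_add _ _ _)]
    rfl
  intro β hβ
  rw [h1] at hβ
  obtain ⟨α, hα, hβ2⟩ := Finset.mem_biUnion.1 (MvPolynomial.support_sum hβ)
  have h3 : β = α.mapDomain some := by
    have := support_monomial_subset hβ2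
    rwa [Finset.mem_singleton] at this
  subst h3
  refine ⟨?_, ?_⟩
  · rw [Finsupp.mapDomain_of_notMem_range]
    simp
  · have h4 : (α.mapDomain some).some = α := by
      ext l
      exact Finsupp.mapDomain_apply (Option.some_injective _) _ _
    rw [h4]
    change (fun l => (α l : ℝ)) - 0 ∈ (1 : ℝ) • P
    rw [sub_zero, one_smul]
    exact hg α hα

/-- **Upper bound by the volume.** -/
theorem upper_np [CharZero K] (al : MvPolynomial (Fin n) ℂ →ₐ[ℂ] K) (hal : Function.Injective al)
    (hb : IsTranscendenceBasis ℂ (fun l : Fin n => al (X l)))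
    (hfrac : ∀ z : K, ∃ a b, z = al a / al b)
    {P : Set (Fin n → ℝ)} (hP : Convex ℝ P)
    {z : Fin n → ℝ} {ρ : ℝ} (hρ : 0 < ρ) (hball : Metric.ball z ρ ⊆ P) (hV : volume P ≠ ⊤)
    (Γ : Fin (n + 2) → MvPolynomial (Fin n) ℂ)
    (hΓ : ∀ j, ∀ α ∈ (Γ j).support, (fun l => (α l : ℝ)) ∈ P)
    (x : Fin (n + 2) → K) (p : Fin (n + 1) → MvPolynomial (Fin (n + 2)) ℂ)
    [Algebra.IsAlgebraic (LL x p) K]
    (Y : Fin (n + 2) → K) (hY0 : Y 0 = 1) (hYc : ∀ j : Fin (n + 1), Y j.castSucc = yy x p j)
    (hr0 : ∑ j, Y j * al (Γ j) = 0) (hr1 : ∀ l, ∑ j, Y j * al (pderiv l (Γ j)) = 0)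
    (hlast : Γ (Fin.last (n + 1)) ≠ 0)
    (hind : ∀ (a : K) (w : Fin n → K),
      (∀ j, a * al (Γ j) + ∑ l, w l * al (pderiv l (Γ j)) = 0) → a = 0 ∧ w = 0) :
    (Module.finrank (LL x p) K : ℝ) ≤ (n + 1).factorial * (volume P).toReal := by
  classical
  have hP' : P.Nonempty := ⟨z, hball (Metric.mem_ball_self hρ)⟩
  have hfd : FiniteDimensional (LL x p) K := finite_dim al hfrac (LL x p)
  set L := LL x p with hL
  let yL : Fin (n + 1) → L := fun j => ⟨yy x p j, IntermediateField.subset_adjoin _ _ ⟨j, rfl⟩⟩
  let E : Option (Fin n) → MvPolynomial (Option (Fin n)) L := fun i =>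
    (∑ j : Fin (n + 1), C (yL j) * io L (Top i (Γ j.castSucc))) +
      X none * io L (Top i (Γ (Fin.last (n + 1))))
  let pt : Option (Fin n) → K := fun i => match i with
    | none => Y (Fin.last (n + 1))
    | some l => al (X l)
  have hio : ∀ g : MvPolynomial (Fin n) ℂ, aeval pt (io L g) = al g := by
    intro g
    rw [aeval_io]
    have h1 : (aeval (fun l => pt (some l)) : MvPolynomial (Fin n) ℂ →ₐ[ℂ] K) = al := by
      apply MvPolynomial.algHom_ext
      intro l
      rw [aeval_X]
    rw [h1]
  have hsum : ∀ f : Fin (n + 2) → MvPolynomial (Fin n) ℂ,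
      aeval pt ((∑ j : Fin (n + 1), C (yL j) * io L (f j.castSucc)) +
        X none * io L (f (Fin.last (n + 1)))) = ∑ j, Y j * al (f j) := by
    intro f
    have h2 : ∀ j : Fin (n + 1), aeval pt (C (yL j) * io L (f j.castSucc)) =
        Y j.castSucc * al (f j.castSucc) := by
      intro j
      rw [map_mul, aeval_C, hio, hYc]
      rfl
    rw [map_add, map_sum, map_mul, aeval_X, hio, Finset.sum_congr rfl fun j _ => h2 j]
    exact (Fin.sum_univ_castSucc (fun j => Y j * al (f j))).symm
  have hE0 : ∀ i, aeval pt (E i) = 0 := by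
    intro i
    have h0 : aeval pt (E i) = ∑ j, Y j * al (Top i (Γ j)) := hsum (fun j => Top i (Γ j))
    rw [h0]
    cases i with
    | none => exact hr0
    | some l =>
      have h1 : ∀ j, Y j * al (Top (some l) (Γ j)) = al (X l) * (Y j * al (pderiv l (Γ j))) := by
        intro j
        change Y j * al (X l * pderiv l (Γ j)) = _
        rw [map_mul]
        ring
      rw [Finset.sum_congr rfl fun j _ => h1 j, ← Finset.mul_sum, hr1 l, mul_zero]
  have hdn : ∀ i, pderiv none (E i) = io L (Top i (Γ (Fin.last (n + 1)))) := by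
    intro i
    change pderiv none ((∑ j : Fin (n + 1), C (yL j) * io L (Top i (Γ j.castSucc))) +
      X none * io L (Top i (Γ (Fin.last (n + 1))))) = _
    rw [map_add, map_sum, pderiv_mul, pderiv_X_self, pderiv_none_io, mul_zero, add_zero, one_mul]
    rw [Finset.sum_eq_zero, zero_add]
    intro j _
    rw [pderiv_C_mul, pderiv_none_io, mul_zero]
  have hds : ∀ i m, pderiv (some m) (E i) =
      (∑ j : Fin (n + 1), C (yL j) * io L (pderiv m (Top i (Γ j.castSucc)))) +
        X none * io L (pderiv m (Top i (Γ (Fin.last (n + 1))))) := by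
    intro i m
    change pderiv (some m) ((∑ j : Fin (n + 1), C (yL j) * io L (Top i (Γ j.castSucc))) +
      X none * io L (Top i (Γ (Fin.last (n + 1))))) = _
    rw [map_add, map_sum, pderiv_mul, pderiv_X_of_ne (by simp), zero_mul, zero_add, pderiv_some_io]
    congr 1
    refine Finset.sum_congr rfl fun j _ => ?_
    rw [pderiv_C_mul, pderiv_some_io]
  obtain ⟨α0, hα0⟩ := support_nonempty.2 hlast
  refine ub_np hP hρ hball hV E pt ?_ hE0 ?_ (surj al hfrac L pt fun l => rfl)
    (io L (monomial α0 1)) ?_ ?_
  · intro i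
    have h1 : ∀ j, NB P 0 1 0 (io L (Top i (Γ j))) := fun j =>
      io_NB L fun α hα => hΓ j α (Top_support i _ hα)
    refine NB.add (NB.sum _ fun j _ => ?_) ?_
    · have := ((NB.C hP' (yL j)).mul hP le_rfl zero_le_one (h1 j.castSucc)).mono (zero_le_one)
      rwa [zero_add, zero_add] at this
    · have := (NB.X (L := L) hP').mul hP le_rfl zero_le_one (h1 (Fin.last (n + 1)))
      rwa [zero_add, zero_add, add_zero] at this
  · intro v hv
    have hder : ∀ δ : Derivation ℂ K K, (∀ j, δ (Y j) = 0) → δ = 0 := by
      intro δ hδ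
      refine W602.GT.der_eq_zero δ (Set.range (yy x p)) (inferInstanceAs (Algebra.IsAlgebraic (LL x p) K)) ?_
      rintro _ ⟨j, rfl⟩
      rw [← hYc j]
      exact hδ _
    have hT : ∀ i, v none * al (Top i (Γ (Fin.last (n + 1)))) +
        ∑ m, v (some m) * ∑ j, Y j * al (pderiv m (Top i (Γ j))) = 0 := by
      intro i
      have h2 := hv i
      rw [Fintype.sum_option, hdn, hio] at h2
      rw [← h2]
      congr 1
      refine Finset.sum_congr rfl fun m _ => ?_
      rw [hds, hsum (fun j => pderiv m (Top i (Γ j)))]
    have hX : ∀ l : Fin n, al (X l) ≠ 0 := by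
      intro l h
      exact X_ne_zero (R := ℂ) l (hal (by rw [h, map_zero]))
    have hsome : ∀ l : Fin n, v none * al (pderiv l (Γ (Fin.last (n + 1)))) +
        ∑ m, v (some m) * ∑ j, Y j * al (pderiv m (pderiv l (Γ j))) = 0 := by
      intro l
      have h2 : v none * al (Top (some l) (Γ (Fin.last (n + 1)))) +
          ∑ m, v (some m) * ∑ j, Y j * al (pderiv m (Top (some l) (Γ j))) = 0 := hT (some l)
      have h3 : ∀ m, ∑ j, Y j * al (pderiv m (Top (some l) (Γ j))) =
          al (X l) * ∑ j, Y j * al (pderiv m (pderiv l (Γ j))) := by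
        intro m
        have h4 : ∀ j, Y j * al (pderiv m (Top (some l) (Γ j))) =
            (if l = m then Y j * al (pderiv l (Γ j)) else 0) +
              al (X l) * (Y j * al (pderiv m (pderiv l (Γ j)))) := by
          intro j
          change Y j * al (pderiv m (X l * pderiv l (Γ j))) = _
          rw [pderiv_mul]
          by_cases h : l = m
          · subst h
            rw [pderiv_X_self, if_pos rfl, map_add, map_mul, map_mul, map_one]
            ring
          · rw [pderiv_X_of_ne h, if_neg h, zero_mul, zero_add, map_mul]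
            ring
        rw [Finset.sum_congr rfl fun j _ => h4 j, Finset.sum_add_distrib, ← Finset.mul_sum]
        have h5 : ∑ j, (if l = m then Y j * al (pderiv l (Γ j)) else 0) = 0 := by
          by_cases h : l = m
          · simp only [if_pos h]
            exact hr1 l
          · simp only [if_neg h]
            exact Finset.sum_const_zero
        rw [h5, zero_add]
      rw [Finset.sum_congr rfl fun m _ => by rw [h3 m]] at h2
      have h6 : v none * al (Top (some l) (Γ (Fin.last (n + 1)))) =
          al (X l) * (v none * al (pderiv l (Γ (Fin.last (n + 1))))) := by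
        change v none * al (X l * pderiv l (Γ (Fin.last (n + 1)))) = _
        rw [map_mul]
        ring
      have h7 : ∑ m, v (some m) * (al (X l) * ∑ j, Y j * al (pderiv m (pderiv l (Γ j)))) =
          al (X l) * ∑ m, v (some m) * ∑ j, Y j * al (pderiv m (pderiv l (Γ j))) := by
        rw [Finset.mul_sum]
        refine Finset.sum_congr rfl fun m _ => ?_
        ring
      rw [h6, h7, ← mul_add] at h2
      exact (mul_eq_zero.1 h2).resolve_left (hX l)
    have hnone : v none * al (Dop 1 none (Γ (Fin.last (n + 1)))) +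
        ∑ m, v (some m) * ∑ j, Y j * al (pderiv m (Dop 1 none (Γ j))) = 0 := by
      have h8 : ∀ g : MvPolynomial (Fin n) ℂ, Dop 1 none g = Top none g - ∑ l, Top (some l) g := by
        intro g
        rw [Dop_none]
        change ((1 : ℕ) : ℂ) • g - ∑ l, X l * pderiv l g = g - ∑ l, X l * pderiv l g
        rw [Nat.cast_one, one_smul]
      have h9 : ∀ m, ∑ j, Y j * al (pderiv m (Dop 1 none (Γ j))) =
          ∑ j, Y j * al (pderiv m (Top none (Γ j))) -
            ∑ l, ∑ j, Y j * al (pderiv m (Top (some l) (Γ j))) := by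
        intro m
        rw [Finset.sum_comm, ← Finset.sum_sub_distrib]
        refine Finset.sum_congr rfl fun j _ => ?_
        rw [h8, map_sub, map_sub, map_sum, map_sum, mul_sub, Finset.mul_sum]
      have h10 : v none * al (Dop 1 none (Γ (Fin.last (n + 1)))) =
          v none * al (Top none (Γ (Fin.last (n + 1)))) -
            ∑ l, v none * al (Top (some l) (Γ (Fin.last (n + 1)))) := by
        rw [h8, map_sub, map_sum, mul_sub, Finset.mul_sum]
      have h11 : ∑ m, v (some m) * ∑ j, Y j * al (pderiv m (Dop 1 none (Γ j))) =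
          ∑ m, v (some m) * ∑ j, Y j * al (pderiv m (Top none (Γ j))) -
            ∑ l, ∑ m, v (some m) * ∑ j, Y j * al (pderiv m (Top (some l) (Γ j))) := by
        rw [Finset.sum_comm, ← Finset.sum_sub_distrib]
        refine Finset.sum_congr rfl fun m _ => ?_
        rw [h9, mul_sub]
        congr 1
        rw [Finset.mul_sum]
      rw [h10, h11]
      have h12 := hT none
      have h13 : ∑ l, (v none * al (Top (some l) (Γ (Fin.last (n + 1)))) +
          ∑ m, v (some m) * ∑ j, Y j * al (pderiv m (Top (some l) (Γ j)))) = 0 :=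
        Finset.sum_eq_zero fun l _ => hT (some l)
      rw [Finset.sum_add_distrib] at h13
      linear_combination h12 - h13
    have h1 := nd (k := 1) al hal hb Γ Y hY0 hr0 hr1 hlast one_pos hind hder (v none)
      (fun l => v (some l)) (fun i => by
        cases i with
        | none => exact hnone
        | some l => exact hsome l)
    funext i
    cases i with
    | none => exact h1.1
    | some l => exact congrFun h1.2 l
  · refine io_NB L fun α hα => ?_
    have h1 : α = α0 := by
      have := support_monomial_subset hα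
      rwa [Finset.mem_singleton] at this
    rw [h1]
    exact hΓ _ α0 hα0
  · rw [hio]
    intro h
    have h1 : (monomial α0 (1 : ℂ)) = 0 := hal (by rw [h, map_zero])
    rw [monomial_eq_zero] at h1
    exact one_ne_zero h1

end

end Pool.Agent.TH314.PD
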