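import Mathlib
import Pool.Agent.TH314.PD.NPm

/-!
# The Newton polytope bound: final statement
-/

set_option autoImplicit false

namespace Pool.Agent.TH314.PD

open MvPolynomial MeasureTheory

noncomputable section

variable {n m d : ℕ}

/-- the exponents of the polynomials `G i`, as real vectors -/
def expo (G : Fin m → MvPolynomial (Fin n) ℂ) : Set (Fin n → ℝ) :=
  {v | ∃ i, ∃ α ∈ (G i).support, v = fun l => (α l : ℝ)}

theorem expo_finite (G : Fin m → MvPolynomial (Fin n) ℂ) : (expo G).Finite := by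
  have h : expo G = ⋃ i, (fun α : Fin n →₀ ℕ => (fun l => (α l : ℝ))) '' ((G i).support : Set _) := by
    ext v
    simp only [expo, Set.mem_ofPred_eq, Set.mem_iUnion, Set.mem_image, Finset.mem_coe]
    constructor
    · rintro ⟨i, α, hα, rfl⟩
      exact ⟨i, α, hα, rfl⟩
    · rintro ⟨i, α, hα, rfl⟩
      exact ⟨i, α, hα, rfl⟩
  rw [h]
  exact Set.finite_iUnion fun i => (Finset.finite_toSet _).image _

theorem bound_np (hd : 2 ≤ d) (F : MvPolynomial (Fin (n + 2)) ℂ) (hF : F.IsHomogeneous d)
    (hsm : ∀ z : Fin (n + 2) → ℂ, (∀ i, eval z (pderiv i F) = 0) → z = 0)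
    (G : Fin (n + 2) → MvPolynomial (Fin n) ℂ)
    (hFG : aeval G F = 0)
    (hdom : ∀ e (H : MvPolynomial (Fin (n + 2)) ℂ), H.IsHomogeneous e → aeval G H = 0 → F ∣ H) :
    FiniteDimensional (ratioField fun i =>
        algebraMap (MvPolynomial (Fin n) ℂ) (FractionRing (MvPolynomial (Fin n) ℂ)) (G i))
        (FractionRing (MvPolynomial (Fin n) ℂ)) ∧
      ((Module.finrank (ratioField fun i =>
        algebraMap (MvPolynomial (Fin n) ℂ) (FractionRing (MvPolynomial (Fin n) ℂ)) (G i))
        (FractionRing (MvPolynomial (Fin n) ℂ)) * (d * (d - 1) ^ n) : ℕ) : ℝ) ≤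
          (n + 1).factorial * (volume (convexHull ℝ (expo G))).toReal := by
  have hchar : CharZero (FractionRing (MvPolynomial (Fin n) ℂ)) := algebraRat.charZero _
  set P := convexHull ℝ (expo G) with hPdef
  have hPc : IsCompact P := (expo_finite G).isCompact_convexHull (𝕜 := ℝ)
  have hPconv : Convex ℝ P := convex_convexHull ℝ _
  -- the polytope is not empty
  have hPne : P.Nonempty := by
    rw [hPdef, convexHull_nonempty_iff]
    by_contra hemp
    rw [Set.not_nonempty_iff_eq_empty] at hemp
    have h1 : ∀ i, G i = 0 := by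
      intro i
      by_contra h
      obtain ⟨α, hα⟩ := support_nonempty.2 h
      have : (fun l => (α l : ℝ)) ∈ expo G := ⟨i, α, hα, rfl⟩
      rw [hemp] at this
      exact this
    have h2 := hdom 1 (X 0) (isHomogeneous_X _ _) (by rw [aeval_X, h1])
    exact X_ne_zero (0 : Fin (n + 2)) (eq_zero_of_dvd hF (ne_zero_of_smooth hsm)
      (isHomogeneous_X ℂ _) (by omega) h2)
  obtain ⟨z0, hz0⟩ := hPne
  have hmain : ∀ ε : ℝ, 0 < ε → FiniteDimensional (ratioField fun i =>
        algebraMap (MvPolynomial (Fin n) ℂ) (FractionRing (MvPolynomial (Fin n) ℂ)) (G i))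
        (FractionRing (MvPolynomial (Fin n) ℂ)) ∧
      ((Module.finrank (ratioField fun i =>
        algebraMap (MvPolynomial (Fin n) ℂ) (FractionRing (MvPolynomial (Fin n) ℂ)) (G i))
        (FractionRing (MvPolynomial (Fin n) ℂ)) * (d * (d - 1) ^ n) : ℕ) : ℝ) ≤
          (n + 1).factorial * (volume (Metric.cthickening ε P)).toReal := by
    intro ε hε
    refine core_np hd F hF hsm
      (IsScalarTower.toAlgHom ℂ (MvPolynomial (Fin n) ℂ) (FractionRing (MvPolynomial (Fin n) ℂ)))
      (IsFractionRing.injective (MvPolynomial (Fin n) ℂ) (FractionRing (MvPolynomial (Fin n) ℂ)))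
      ?_ ?_ (hPconv.cthickening ε) (z0 := z0) hε ?_ ?_ G ?_ hFG hdom
    · have : Algebra.IsAlgebraic (MvPolynomial (Fin n) ℂ) (FractionRing (MvPolynomial (Fin n) ℂ)) :=
        (IsFractionRing.comap_isAlgebraic_iff (K := FractionRing (MvPolynomial (Fin n) ℂ))).2
          inferInstance
      exact (IsTranscendenceBasis.mvPolynomial (Fin n) ℂ).algebraMap_comp
        (A := FractionRing (MvPolynomial (Fin n) ℂ))
    · intro z
      obtain ⟨a, b, h⟩ := IsFractionRing.div_surjective (A := MvPolynomial (Fin n) ℂ) z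
      exact ⟨a, b, h.2.symm⟩
    · exact (Metric.ball_subset_thickening hz0 ε).trans (Metric.thickening_subset_cthickening ε P)
    · exact (hPc.isBounded.cthickening (δ := ε)).measure_lt_top.ne
    · intro i α hα
      exact Metric.self_subset_cthickening P (subset_convexHull ℝ _ ⟨i, α, hα, rfl⟩)
  refine ⟨(hmain 1 one_pos).1, ?_⟩
  have htend := tendsto_measure_cthickening_of_isCompact (μ := (volume : Measure (Fin n → ℝ))) hPc
  have htend2 : Filter.Tendsto (fun ε : ℝ => ((n + 1).factorial : ℝ) *
      (volume (Metric.cthickening ε P)).toReal) (nhdsWithin 0 (Set.Ioi 0))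
      (nhds ((n + 1).factorial * (volume P).toReal)) := by
    refine Filter.Tendsto.const_mul _ ?_
    exact ((ENNReal.tendsto_toReal hPc.measure_lt_top.ne).comp htend).mono_left
      nhdsWithin_le_nhds
  refine ge_of_tendsto htend2 ?_
  filter_upwards [self_mem_nhdsWithin] with ε hε
  exact (hmain ε hε).2

end

end Pool.Agent.TH314.PD
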